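import Pool.Agent.Work.MP_02c6ed_co.G24.Height2

/-!
# Closure properties of the class of greedy posets
-/

set_option autoImplicit false
set_option linter.unusedSectionVars false

open Finset

namespace Pool.Agent.Work.MP_02c6ed_co.G24

variable {α : Type} [PartialOrder α] [Fintype α] [DecidableEq α]

/-- The local condition is inherited by the remainders. -/
theorem LC_of_reach {T : Finset α} {o : Option α} (hr : Reach ∅ T o)
    (hst : ∀ x ∈ o, Stuck T x) (h : LC (∅ : Finset α)) : LC T := by
  have hnxt : ∀ y, Nxt T none y → Nxt T o y := fun y hy => ⟨hy.1, fun x hx => Or.inr (hst x hx)⟩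
  have key : ∀ (S : Finset α) (o' : Option α), Reach T S o' →
      (o' = none ∧ S = T) ∨ Reach ∅ S o' := by
    intro S o' hS
    induction hS with
    | nil => exact Or.inl ⟨rfl, rfl⟩
    | step S o' y _ hy ih =>
      right
      rcases ih with ⟨rfl, rfl⟩ | h1
      · exact Reach.step S o y hr (hnxt y hy)
      · exact Reach.step S o' y h1 hy
  intro S o' hS y₁ y₂ l₁ l₂ h₁ h₂
  rcases key S o' hS with ⟨rfl, rfl⟩ | h3
  · exact h S o hr y₁ y₂ l₁ l₂ (hnxt y₁ h₁) (hnxt y₂ h₂)
  · exact h S o' h3 y₁ y₂ l₁ l₂ h₁ h₂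

/-- Remainders of greedy posets are greedy. -/
theorem greedy_rem (hG : Greedy (univ : Finset α)) {Q : Finset α} (hQ : Rem Q) : Greedy Q := by
  have hdown : Down (∅ : Finset α) := by
    intro w hw
    simp at hw
  have hLC : LC (∅ : Finset α) := by
    rw [← greedy_iff_LC hdown, sdiff_empty]
    exact hG
  obtain ⟨S, o, rfl, hS, hr, hst⟩ := reach_of_rem hQ
  exact (greedy_iff_LC hS).2 (LC_of_reach hr hst hLC)

/-- The up-set generated by some minimal elements of a greedy poset is greedy. -/
theorem greedy_up (hG : Greedy (univ : Finset α)) (A Q : Finset α)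
    (hQ : ∀ w, w ∈ Q ↔ ∃ m ∈ A, (∀ v, ¬ v < m) ∧ m ≤ w) : Greedy Q := by
  classical
  have hdown : Down (∅ : Finset α) := by
    intro w hw
    simp at hw
  have hLC : LC (∅ : Finset α) := by
    rw [← greedy_iff_LC hdown, sdiff_empty]
    exact hG
  obtain ⟨T, o, hr, hT, hst⟩ := reach_hull (univ \ A) _ ∅ none le_rfl Reach.nil (by simp)
  have hTd : Down T := Reach.down hdown hr
  have : Q = univ \ T := by
    ext w
    rw [hQ, mem_sdiff, hT]
    simp only [mem_univ, true_and, Hull, not_forall, mem_sdiff, not_not]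
    constructor
    · rintro ⟨m, hm, h1, h2⟩
      exact ⟨m, h1, h2, hm⟩
    · rintro ⟨m, h1, h2, hm⟩
      exact ⟨m, hm, h1, h2⟩
  rw [this]
  exact (greedy_iff_LC hTd).2 (LC_of_reach hr hst hLC)

end Pool.Agent.Work.MP_02c6ed_co.G24
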