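import Pool.Agent.Work.MP_02c6ed_co.G24.Hard

/-!
# Every finite poset is a down-set of a greedy poset
-/

set_option autoImplicit false
set_option linter.unusedSectionVars false

open Finset

namespace Pool.Agent.Work.MP_02c6ed_co.G24

/-- Every element gets a private upper cover. -/
inductive Dbl (β : Type) : Type
  | base (x : β)
  | top (x : β)
  deriving DecidableEq, Fintype

variable {β : Type} [PartialOrder β]

/-- The strict order. -/
def Dbl.Lt : Dbl β → Dbl β → Prop
  | .base x, .base y => x < y
  | .base x, .top y => x ≤ y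
  | .top _, _ => False

theorem Dbl.lt_irrefl' (x : Dbl β) : ¬ Dbl.Lt x x := by
  cases x <;> simp [Dbl.Lt]

theorem Dbl.lt_trans' (x y z : Dbl β) (h1 : Dbl.Lt x y) (h2 : Dbl.Lt y z) : Dbl.Lt x z := by
  cases x <;> cases y <;> simp only [Dbl.Lt] at h1 <;> cases z <;> simp only [Dbl.Lt] at h2 ⊢
  · exact h1.trans h2
  · exact h1.le.trans h2

instance : PartialOrder (Dbl β) where
  le x y := x = y ∨ Dbl.Lt x y
  lt x y := Dbl.Lt x y
  le_refl x := Or.inl rfl
  le_trans x y z h1 h2 := by
    rcases h1 with rfl | h1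
    · exact h2
    · rcases h2 with rfl | h2
      · exact Or.inr h1
      · exact Or.inr (Dbl.lt_trans' x y z h1 h2)
  le_antisymm x y h1 h2 := by
    rcases h1 with rfl | h1
    · rfl
    · rcases h2 with rfl | h2
      · rfl
      · exact absurd (Dbl.lt_trans' x y x h1 h2) (Dbl.lt_irrefl' x)
  lt_iff_le_not_ge x y := by
    constructor
    · intro h
      refine ⟨Or.inr h, ?_⟩
      rintro (rfl | h')
      · exact Dbl.lt_irrefl' _ h
      · exact Dbl.lt_irrefl' _ (Dbl.lt_trans' _ _ _ h h')
    · rintro ⟨rfl | h, h'⟩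
      · exact absurd (Or.inl rfl) h'
      · exact h

theorem Dbl.lt_def (x y : Dbl β) : x < y ↔ Dbl.Lt x y := Iff.rfl

theorem greedy_dbl [Fintype β] [DecidableEq β] : Greedy (univ : Finset (Dbl β)) := by
  have hdown : Down (∅ : Finset (Dbl β)) := by
    intro w hw
    simp at hw
  apply greedy_of_unstuck
  intro S o y hr hy hz hst
  have hS : Down S := Reach.down hdown hr
  cases y with
  | top x =>
    obtain ⟨z, hz⟩ := hz
    rw [Dbl.lt_def] at hz
    simp [Dbl.Lt] at hz
  | base x =>
    refine hst (Dbl.top x) ⟨?_, fun z hz => ?_⟩ (by rw [Dbl.lt_def]; simp [Dbl.Lt])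
    · intro h
      rcases mem_insert.1 h with h | h
      · cases h
      · exact hy.1.1 (hS _ h (Dbl.base x) (by rw [Dbl.lt_def]; simp [Dbl.Lt]))
    · rw [Dbl.lt_def] at hz
      cases z with
      | base w =>
        simp only [Dbl.Lt] at hz
        rcases hz.lt_or_eq with h | rfl
        · exact mem_insert_of_mem (hy.1.2 (Dbl.base w) (by rw [Dbl.lt_def]; exact h))
        · exact mem_insert_self _ _
      | top w => simp [Dbl.Lt] at hz

/-- **Every finite poset is a down-set of a greedy poset.** -/
theorem exists_greedy_extension (β : Type) [PartialOrder β] [Fintype β] [DecidableEq β] :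
    ∃ (α : Type) (_ : PartialOrder α) (_ : Fintype α) (_ : DecidableEq α) (f : β ↪o α),
      Greedy (univ : Finset α) ∧ ∀ x y, x ≤ f y → ∃ z, f z = x := by
  refine ⟨Dbl β, inferInstance, inferInstance, inferInstance,
    ⟨⟨Dbl.base, fun x y h => by injection h⟩, ?_⟩, greedy_dbl, ?_⟩
  · intro x y
    show (Dbl.base x = Dbl.base y ∨ Dbl.Lt (Dbl.base x) (Dbl.base y)) ↔ x ≤ y
    simp only [Dbl.Lt, Dbl.base.injEq]
    exact le_iff_eq_or_lt.symm
  · intro x y h
    rcases h with h | h
    · exact ⟨y, h.symm⟩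
    · cases x with
      | base w => exact ⟨w, rfl⟩
      | top w => exact absurd h (by simp [Dbl.Lt])

end Pool.Agent.Work.MP_02c6ed_co.G24
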