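import Pool.Agent.Work.MP_02c6ed_co.G24.Balanced

/-!
# Greedy posets: a reduction from unsatisfiability
-/

set_option autoImplicit false
set_option linter.unusedSectionVars false

open Finset

namespace Pool.Agent.Work.MP_02c6ed_co.G24

section Criterion

variable {α : Type} [PartialOrder α] [Fintype α] [DecidableEq α]

open Classical in
/-- The number of the maximal elements which are not placed. -/
noncomputable def mx (S : Finset α) : ℕ := (univ.filter (fun z : α => z ∉ S ∧ ∀ w, ¬ z < w)).card

theorem mx_insert_max {S : Finset α} {y : α} (hy : y ∉ S) (hm : ∀ w, ¬ y < w) :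
    mx (insert y S) + 1 = mx S := by
  classical
  unfold mx
  have : univ.filter (fun z : α => z ∉ S ∧ ∀ w, ¬ z < w) =
      insert y (univ.filter (fun z : α => z ∉ insert y S ∧ ∀ w, ¬ z < w)) := by
    ext z
    simp only [mem_filter, mem_univ, true_and, mem_insert, not_or]
    constructor
    · rintro ⟨h1, h2⟩
      by_cases hz : z = y
      · exact Or.inl hz
      · exact Or.inr ⟨⟨hz, h1⟩, h2⟩
    · rintro (rfl | ⟨⟨_, h1⟩, h2⟩)
      · exact ⟨hy, hm⟩
      · exact ⟨h1, h2⟩
  rw [this, card_insert_of_notMem]
  simp

theorem mx_insert {S : Finset α} {y w : α} (hm : y < w) : mx (insert y S) = mx S := by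
  classical
  unfold mx
  congr 1
  ext z
  simp only [mem_filter, mem_univ, true_and, mem_insert, not_or]
  constructor
  · rintro ⟨⟨_, h1⟩, h2⟩
    exact ⟨h1, h2⟩
  · rintro ⟨h1, h2⟩
    refine ⟨⟨?_, h1⟩, h2⟩
    rintro rfl
    exact h2 w hm

/-- If no step to a non-maximal element gets stuck, then the poset is greedy (every run has one
chain for every maximal element). -/
theorem greedy_of_unstuck
    (h : ∀ (S : Finset α) (o : Option α) (y : α), Reach ∅ S o → Nxt S o y → (∃ z, y < z) →
      ¬ Stuck (insert y S) y) : Greedy (univ : Finset α) := by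
  classical
  have key : ∀ (L : List α) (S : Finset α) (o : Option α), Reach ∅ S o → GComp S o L →
      jf o L + (if o = none then 0 else 1) =
        mx S + (if ∃ x, o = some x ∧ Stuck S x then 1 else 0) := by
    intro L
    induction L with
    | nil =>
      intro S o _ hL
      rw [GComp] at hL
      subst hL
      have h0 : mx (univ : Finset α) = 0 := by
        unfold mx
        rw [Finset.card_eq_zero]
        ext z; simp
      rw [jf, h0]
      cases o with
      | none => simp
      | some x =>
        have : Stuck (univ : Finset α) x := fun y hy => absurd (mem_univ y) hy.1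
        simp [this]
    | cons y l ih =>
      intro S o hr hL
      have h1 := ih (insert y S) (some y) (Reach.step S o y hr hL.1) hL.2
      have h2 : mx (insert y S) + (if Stuck (insert y S) y then 1 else 0) = mx S := by
        by_cases hy : ∃ z, y < z
        · obtain ⟨z, hz⟩ := hy
          rw [if_neg (h S o y hr hL.1 ⟨z, hz⟩), mx_insert hz, add_zero]
        · push Not at hy
          rw [if_pos (show Stuck (insert y S) y from fun z _ => hy z)]
          exact mx_insert_max hL.1.1.1 hy
      have h3 : jf (some y) l + 1 = mx S := by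
        rw [← h2]
        simpa using h1
      rw [jf]
      cases o with
      | none =>
        rw [cost_none]
        simp only [if_true, add_zero]
        simp
        omega
      | some x =>
        by_cases hst : Stuck S x
        · rw [cost_not (hst y hL.1.1)]
          simp [hst]
          omega
        · rw [cost_lt ((hL.1.2 x rfl).resolve_right hst)]
          simp [hst]
          omega
  have hD : Down (∅ : Finset α) := by
    intro w hw
    simp at hw
  have h2 := (greedy_iff_unique hD).2 (fun L L' hL hL' => by
    have h1 := key L ∅ none Reach.nil hL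
    have h2 := key L' ∅ none Reach.nil hL'
    simp only [if_true] at h1 h2
    omega)
  rwa [sdiff_empty] at h2

end Criterion

/-! ### The poset of a formula -/

variable {V K : Type}

/-- The elements of the poset of a formula `φ` with variables `V` and clauses `K`; `φ k` is the
set of the literals of the clause `k`, a literal is a variable with a sign. There are two copies
of every variable and every clause. -/
inductive Pos (φ : K → Finset (V × Bool)) : Type
  | r (v : V × Bool)
  | lit (v : V × Bool) (s : Bool)
  | top (v : V × Bool) (s : Bool)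
  | a
  | g (k : K × Bool)
  | b
  | c
  | d
  deriving DecidableEq, Fintype

variable {φ : K → Finset (V × Bool)}

/-- The strict order. -/
def Pos.Lt : Pos φ → Pos φ → Prop
  | .r v, .lit w _ => v = w
  | .r v, .top w _ => v = w
  | .r _, .a => True
  | .r _, .g _ => True
  | .r _, .c => True
  | .lit v s, .top w t => v = w ∧ s = t
  | .lit v s, .g k => v.2 = k.2 ∧ (v.1, !s) ∈ φ k.1
  | .a, .g _ => True
  | .a, .c => True
  | .b, .c => True
  | .b, .d => True
  | _, _ => False

theorem Pos.lt_irrefl' (x : Pos φ) : ¬ Pos.Lt x x := by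
  cases x <;> simp [Pos.Lt]

theorem Pos.lt_trans' (x y z : Pos φ) (h1 : Pos.Lt x y) (h2 : Pos.Lt y z) : Pos.Lt x z := by
  cases x <;> cases y <;> simp only [Pos.Lt] at h1 <;> cases z <;> simp_all [Pos.Lt]

instance : PartialOrder (Pos φ) where
  le x y := x = y ∨ Pos.Lt x y
  lt x y := Pos.Lt x y
  le_refl x := Or.inl rfl
  le_trans x y z h1 h2 := by
    rcases h1 with rfl | h1
    · exact h2
    · rcases h2 with rfl | h2
      · exact Or.inr h1
      · exact Or.inr (Pos.lt_trans' x y z h1 h2)
  le_antisymm x y h1 h2 := by
    rcases h1 with rfl | h1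
    · rfl
    · rcases h2 with rfl | h2
      · rfl
      · exact absurd (Pos.lt_trans' x y x h1 h2) (Pos.lt_irrefl' x)
  lt_iff_le_not_ge x y := by
    constructor
    · intro h
      refine ⟨Or.inr h, ?_⟩
      rintro (rfl | h')
      · exact Pos.lt_irrefl' _ h
      · exact Pos.lt_irrefl' _ (Pos.lt_trans' _ _ _ h h')
    · rintro ⟨rfl | h, h'⟩
      · exact absurd (Or.inl rfl) h'
      · exact h

/-- Satisfiability. -/
def Sat (φ : K → Finset (V × Bool)) : Prop := ∃ s : V → Bool, ∀ k, ∃ l ∈ φ k, s l.1 = l.2

section

theorem lt_def (x y : Pos φ) : x < y ↔ Pos.Lt x y := Iff.rfl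

variable [Fintype V] [Fintype K] [DecidableEq V] [DecidableEq K]

/-- Before `a` is placed, every placed `r v` is the last element or one of its literals is
placed. -/
theorem inv_lit {S : Finset (Pos φ)} {o : Option (Pos φ)} (h : Reach ∅ S o)
    (ha : (Pos.a : Pos φ) ∉ S) (v : V × Bool) (hv : (Pos.r v : Pos φ) ∈ S) :
    o = some (Pos.r v : Pos φ) ∨ ∃ s, (Pos.lit v s : Pos φ) ∈ S := by
  induction h with
  | nil => simp at hv
  | step S o y hr hy ih =>
    have haS : (Pos.a : Pos φ) ∉ S := fun h => ha (mem_insert_of_mem h)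
    have hay : (Pos.a : Pos φ) ≠ y := fun h => ha (h ▸ mem_insert_self _ _)
    rcases mem_insert.1 hv with h | h
    · exact Or.inl (by rw [h])
    · right
      rcases ih haS h with h1 | ⟨s, hs⟩
      · by_cases hex : ∃ s, (Pos.lit v s : Pos φ) ∈ S
        · obtain ⟨s, hs⟩ := hex
          exact ⟨s, mem_insert_of_mem hs⟩
        · push Not at hex
          have hav : Av S (Pos.lit v true : Pos φ) := by
            refine ⟨hex true, fun z hz => ?_⟩
            rw [lt_def] at hz
            cases z <;> simp only [Pos.Lt] at hz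
            subst hz
            exact h
          have hlt : (Pos.r v : Pos φ) < y := by
            refine (hy.2 _ h1).resolve_right (fun hst => hst _ hav ?_)
            rw [lt_def]
            simp [Pos.Lt]
          rw [lt_def] at hlt
          cases y with
          | r w => simp [Pos.Lt] at hlt
          | lit w s =>
            simp only [Pos.Lt] at hlt
            subst hlt
            exact ⟨s, mem_insert_self _ _⟩
          | top w s =>
            simp only [Pos.Lt] at hlt
            subst hlt
            exfalso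
            exact hex s (hy.1.2 (Pos.lit v s : Pos φ) (by rw [lt_def]; simp [Pos.Lt]))
          | a => exact absurd rfl hay
          | g k =>
            exact absurd (hy.1.2 (Pos.a : Pos φ) (by rw [lt_def]; simp [Pos.Lt])) haS
          | b => simp [Pos.Lt] at hlt
          | c =>
            exact absurd (hy.1.2 (Pos.a : Pos φ) (by rw [lt_def]; simp [Pos.Lt])) haS
          | d => simp [Pos.Lt] at hlt
      · exact ⟨s, mem_insert_of_mem hs⟩

theorem greedy_of_unsat (hφ : ¬ Sat φ) : Greedy (univ : Finset (Pos φ)) := by
  have hdown : Down (∅ : Finset (Pos φ)) := by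
    intro w hw
    simp at hw
  apply greedy_of_unstuck
  intro S o y hr hy hz hst
  have hS : Down S := Reach.down hdown hr
  have hS' : Down (insert y S) := hS.insert hy.1
  cases y with
  | r v =>
    refine hst (Pos.lit v true : Pos φ) ⟨?_, fun z hz => ?_⟩ (by rw [lt_def]; simp [Pos.Lt])
    · intro h
      rcases mem_insert.1 h with h | h
      · cases h
      · exact hy.1.1 (hS _ h (Pos.r v : Pos φ) (by rw [lt_def]; simp [Pos.Lt]))
    · rw [lt_def] at hz
      cases z <;> simp only [Pos.Lt] at hz
      subst hz
      exact mem_insert_self _ _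
  | lit v s =>
    refine hst (Pos.top v s : Pos φ) ⟨?_, fun z hz => ?_⟩ (by rw [lt_def]; simp [Pos.Lt])
    · intro h
      rcases mem_insert.1 h with h | h
      · cases h
      · exact hy.1.1 (hS _ h (Pos.lit v s : Pos φ) (by rw [lt_def]; simp [Pos.Lt]))
    · rw [lt_def] at hz
      cases z <;> simp only [Pos.Lt] at hz
      · subst hz
        exact mem_insert_of_mem (hy.1.2 (Pos.r _ : Pos φ) (by rw [lt_def]; simp [Pos.Lt]))
      · obtain ⟨rfl, rfl⟩ := hz
        exact mem_insert_self _ _
  | top v s =>
    obtain ⟨z, hz⟩ := hz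
    rw [lt_def] at hz
    cases z <;> simp only [Pos.Lt] at hz
  | a =>
    have hbS : (Pos.b : Pos φ) ∉ S := by
      intro hb
      refine hst (Pos.c : Pos φ) ⟨?_, fun z hz => ?_⟩ (by rw [lt_def]; simp [Pos.Lt])
      · intro h
        rcases mem_insert.1 h with h | h
        · cases h
        · exact hy.1.1 (hS _ h (Pos.a : Pos φ) (by rw [lt_def]; simp [Pos.Lt]))
      · rw [lt_def] at hz
        cases z <;> simp only [Pos.Lt] at hz
        · exact mem_insert_of_mem (hy.1.2 (Pos.r _ : Pos φ) (by rw [lt_def]; simp [Pos.Lt]))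
        · exact mem_insert_self _ _
        · exact mem_insert_of_mem hb
    -- choose a copy without the exceptional variable
    obtain ⟨i, hi⟩ : ∃ i : Bool, ∀ v : V, o ≠ some (Pos.r (v, i) : Pos φ) := by
      by_cases h : ∃ v : V, o = some (Pos.r (v, true) : Pos φ)
      · obtain ⟨v, hv⟩ := h
        refine ⟨false, fun w hw => ?_⟩
        rw [hv, Option.some.injEq] at hw
        cases hw
      · push Not at h
        exact ⟨true, h⟩
    have hl : ∀ v : V, ∃ s, (Pos.lit (v, i) s : Pos φ) ∈ S := by
      intro v
      have h1 : (Pos.r (v, i) : Pos φ) ∈ S := hy.1.2 _ (by rw [lt_def]; simp [Pos.Lt])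
      exact (inv_lit hr hy.1.1 (v, i) h1).resolve_left (hi v)
    choose s hs using hl
    apply hφ
    refine ⟨s, fun k => ?_⟩
    by_contra hk
    push Not at hk
    refine hst (Pos.g (k, i) : Pos φ) ⟨?_, fun z hz => ?_⟩ (by rw [lt_def]; simp [Pos.Lt])
    · intro h
      rcases mem_insert.1 h with h | h
      · cases h
      · exact hy.1.1 (hS _ h (Pos.a : Pos φ) (by rw [lt_def]; simp [Pos.Lt]))
    · rw [lt_def] at hz
      cases z with
      | r v => exact mem_insert_of_mem (hy.1.2 (Pos.r _ : Pos φ) (by rw [lt_def]; simp [Pos.Lt]))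
      | lit v t =>
        simp only [Pos.Lt] at hz
        obtain ⟨h1, h2⟩ := hz
        have h3 := hk _ h2
        have h4 : s v.1 = t := by
          revert h3
          cases t <;> cases s v.1 <;> simp
        have h5 := hs v.1
        rw [h4, ← h1] at h5
        exact mem_insert_of_mem h5
      | top v t => simp [Pos.Lt] at hz
      | a => exact mem_insert_self _ _
      | g k => simp [Pos.Lt] at hz
      | b => simp [Pos.Lt] at hz
      | c => simp [Pos.Lt] at hz
      | d => simp [Pos.Lt] at hz
  | g k =>
    obtain ⟨z, hz⟩ := hz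
    rw [lt_def] at hz
    cases z <;> simp only [Pos.Lt] at hz
  | b =>
    refine hst (Pos.d : Pos φ) ⟨?_, fun z hz => ?_⟩ (by rw [lt_def]; simp [Pos.Lt])
    · intro h
      rcases mem_insert.1 h with h | h
      · cases h
      · exact hy.1.1 (hS _ h (Pos.b : Pos φ) (by rw [lt_def]; simp [Pos.Lt]))
    · rw [lt_def] at hz
      cases z <;> simp only [Pos.Lt] at hz
      exact mem_insert_self _ _
  | c =>
    obtain ⟨z, hz⟩ := hz
    rw [lt_def] at hz
    cases z <;> simp only [Pos.Lt] at hz
  | d =>
    obtain ⟨z, hz⟩ := hz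
    rw [lt_def] at hz
    cases z <;> simp only [Pos.Lt] at hz

theorem reach_assign (s : V → Bool) (A : Finset (V × Bool)) :
    ∃ (S : Finset (Pos φ)) (o : Option (Pos φ)), Reach ∅ S o ∧ (∀ x ∈ o, Stuck S x) ∧
      ∀ w, w ∈ S ↔ ∃ v ∈ A, w = Pos.r v ∨ w = Pos.lit v (s v.1) ∨ w = Pos.top v (s v.1) := by
  induction A using Finset.induction_on with
  | empty =>
    refine ⟨∅, none, Reach.nil, by simp, ?_⟩
    intro w
    simp
  | insert v A hv ih =>
    obtain ⟨S, o, hr, hst, hS⟩ := ih
    have n1 : (Pos.r v : Pos φ) ∉ S := by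
      intro h
      obtain ⟨w, hw, h | h | h⟩ := (hS _).1 h
      · cases h; exact hv hw
      · cases h
      · cases h
    have n2 : (Pos.lit v (s v.1) : Pos φ) ∉ S := by
      intro h
      obtain ⟨w, hw, h | h | h⟩ := (hS _).1 h
      · cases h
      · injection h with h1 h2
        subst h1
        exact hv hw
      · cases h
    have n3 : (Pos.top v (s v.1) : Pos φ) ∉ S := by
      intro h
      obtain ⟨w, hw, h | h | h⟩ := (hS _).1 h
      · cases h
      · cases h
      · injection h with h1 h2
        subst h1
        exact hv hw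
    have r1 : Reach ∅ (insert (Pos.r v) S) (some (Pos.r v : Pos φ)) := by
      refine Reach.step S o _ hr ⟨⟨n1, fun z hz => ?_⟩, fun x hx => Or.inr (hst x hx)⟩
      rw [lt_def] at hz
      cases z <;> simp only [Pos.Lt] at hz
    have r2 : Reach ∅ (insert (Pos.lit v (s v.1)) (insert (Pos.r v) S))
        (some (Pos.lit v (s v.1) : Pos φ)) := by
      refine Reach.step _ _ _ r1 (nxt_of_lt (by rw [lt_def]; simp [Pos.Lt]) ⟨?_, fun z hz => ?_⟩)
      · intro h
        rcases mem_insert.1 h with h | h
        · cases h
        · exact n2 h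
      · rw [lt_def] at hz
        cases z <;> simp only [Pos.Lt] at hz
        subst hz
        exact mem_insert_self _ _
    have r3 : Reach ∅ (insert (Pos.top v (s v.1)) (insert (Pos.lit v (s v.1))
        (insert (Pos.r v) S))) (some (Pos.top v (s v.1) : Pos φ)) := by
      refine Reach.step _ _ _ r2 (nxt_of_lt (by rw [lt_def]; simp [Pos.Lt]) ⟨?_, fun z hz => ?_⟩)
      · intro h
        rcases mem_insert.1 h with h | h
        · cases h
        · rcases mem_insert.1 h with h | h
          · cases h
          · exact n3 h
      · rw [lt_def] at hz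
        cases z <;> simp only [Pos.Lt] at hz
        · subst hz
          exact mem_insert_of_mem (mem_insert_self _ _)
        · obtain ⟨rfl, rfl⟩ := hz
          exact mem_insert_self _ _
    refine ⟨_, _, r3, ?_, ?_⟩
    · intro x hx z _ hz
      simp only [Option.mem_def, Option.some.injEq] at hx
      subst hx
      rw [lt_def] at hz
      cases z <;> simp only [Pos.Lt] at hz
    · intro w
      simp only [mem_insert, hS, exists_eq_or_imp]
      constructor
      · rintro (h | h | h | h)
        · exact Or.inl (Or.inr (Or.inr h))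
        · exact Or.inl (Or.inr (Or.inl h))
        · exact Or.inl (Or.inl h)
        · exact Or.inr h
      · rintro ((h | h | h) | h)
        · exact Or.inr (Or.inr (Or.inl h))
        · exact Or.inr (Or.inl h)
        · exact Or.inl h
        · exact Or.inr (Or.inr (Or.inr h))

theorem not_greedy_of_sat (hφ : Sat φ) : ¬ Greedy (univ : Finset (Pos φ)) := by
  intro hG
  have hdown : Down (∅ : Finset (Pos φ)) := by
    intro w hw
    simp at hw
  have hLC : LC (∅ : Finset (Pos φ)) := by
    rw [← greedy_iff_LC hdown, sdiff_empty]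
    exact hG
  obtain ⟨s, hs⟩ := hφ
  obtain ⟨S, o, hr, hst, hS⟩ := reach_assign (φ := φ) s univ
  have hSr : ∀ v, (Pos.r v : Pos φ) ∈ S := fun v => (hS _).2 ⟨v, mem_univ v, Or.inl rfl⟩
  have hSl : ∀ v t, (Pos.lit v t : Pos φ) ∈ S → t = s v.1 := by
    intro v t h
    obtain ⟨w, _, h | h | h⟩ := (hS _).1 h
    · cases h
    · injection h with h1 h2
      subst h1
      exact h2
    · cases h
  have ha : (Pos.a : Pos φ) ∉ S := by
    intro h
    obtain ⟨w, _, h | h | h⟩ := (hS _).1 h <;> cases h
  have hb : (Pos.b : Pos φ) ∉ S := by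
    intro h
    obtain ⟨w, _, h | h | h⟩ := (hS _).1 h <;> cases h
  have hc : (Pos.c : Pos φ) ∉ S := by
    intro h
    obtain ⟨w, _, h | h | h⟩ := (hS _).1 h <;> cases h
  have hd : (Pos.d : Pos φ) ∉ S := by
    intro h
    obtain ⟨w, _, h | h | h⟩ := (hS _).1 h <;> cases h
  have hAa : Av S (Pos.a : Pos φ) := by
    refine ⟨ha, fun z hz => ?_⟩
    rw [lt_def] at hz
    cases z <;> simp only [Pos.Lt] at hz
    exact hSr _
  have hAb : Av S (Pos.b : Pos φ) := by
    refine ⟨hb, fun z hz => ?_⟩
    rw [lt_def] at hz
    cases z <;> simp only [Pos.Lt] at hz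
  have hAd : Av (insert Pos.b S) (Pos.d : Pos φ) := by
    refine ⟨?_, fun z hz => ?_⟩
    · intro h
      rcases mem_insert.1 h with h | h
      · cases h
      · exact hd h
    · rw [lt_def] at hz
      cases z <;> simp only [Pos.Lt] at hz
      exact mem_insert_self _ _
  have hdmax : ∀ y : Pos φ, ¬ (Pos.d : Pos φ) < y := by
    intro y hy
    rw [lt_def] at hy
    cases y <;> simp only [Pos.Lt] at hy
  have hbd : (Pos.b : Pos φ) < Pos.d := by rw [lt_def]; simp [Pos.Lt]
  have sa : Stuck (insert Pos.a S) (Pos.a : Pos φ) := by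
    intro z hz haz
    rw [lt_def] at haz
    cases z with
    | r v => simp [Pos.Lt] at haz
    | lit v t => simp [Pos.Lt] at haz
    | top v t => simp [Pos.Lt] at haz
    | a => simp [Pos.Lt] at haz
    | g k =>
      obtain ⟨l, hl, hsl⟩ := hs k.1
      have h1 : (Pos.lit (l.1, k.2) (!l.2) : Pos φ) < Pos.g k := by
        rw [lt_def]
        simp only [Pos.Lt, Bool.not_not]
        exact ⟨trivial, hl⟩
      have h2 := hz.2 _ h1
      rcases mem_insert.1 h2 with h | h
      · cases h
      · have h3 := hSl _ _ h
        simp only [hsl] at h3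
        revert h3
        cases l.2 <;> simp
    | b => simp [Pos.Lt] at haz
    | c =>
      have h2 := hz.2 (Pos.b : Pos φ) (by rw [lt_def]; simp [Pos.Lt])
      rcases mem_insert.1 h2 with h | h
      · cases h
      · exact hb h
    | d => simp [Pos.Lt] at haz
  have hl := hLC S o hr Pos.a Pos.b [] [Pos.d] ⟨hAa, fun x hx => Or.inr (hst x hx)⟩
    ⟨hAb, fun x hx => Or.inr (hst x hx)⟩ (by intro h; cases h) trivial ⟨hAd, hbd, trivial⟩
    (by simpa using sa) (fun y _ hy => hdmax y (by simpa using hy))
  simp only [List.toFinset_nil, List.getLastD_nil, List.toFinset_cons, List.getLastD_cons] at hl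
  have h5 := hl.2 (fun y _ hy => hdmax y hy)
  refine h5 Pos.c ⟨?_, fun z hz => ?_⟩ (by rw [lt_def]; simp [Pos.Lt])
  · simp only [mem_union, mem_insert, notMem_empty, or_false, not_or]
    exact ⟨⟨(by intro h; cases h), hc⟩, ⟨(by intro h; cases h), hc⟩, (by intro h; cases h)⟩
  · rw [lt_def] at hz
    cases z with
    | r v => simp [hSr]
    | lit v t => simp [Pos.Lt] at hz
    | top v t => simp [Pos.Lt] at hz
    | a => simp
    | g k => simp [Pos.Lt] at hz
    | b => simp
    | c => simp [Pos.Lt] at hz
    | d => simp [Pos.Lt] at hz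

/-- **The reduction**: the poset of a formula is greedy iff the formula is unsatisfiable. -/
theorem greedy_iff_unsat : Greedy (univ : Finset (Pos φ)) ↔ ¬ Sat φ :=
  ⟨fun h hs => not_greedy_of_sat hs h, greedy_of_unsat⟩

omit [Fintype V] [Fintype K] [DecidableEq V] [DecidableEq K] in
/-- The poset of a formula has height 3. -/
theorem height_three (w x y z : Pos φ) (h1 : w < x) (h2 : x < y) : ¬ y < z := by
  rw [lt_def] at h1 h2 ⊢
  cases w <;> cases x <;> simp only [Pos.Lt] at h1 <;> cases y <;> simp only [Pos.Lt] at h2 <;>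
    cases z <;> simp_all [Pos.Lt]

/-- The number of the elements. -/
theorem card_pos : Fintype.card (Pos φ) = 10 * Fintype.card V + 2 * Fintype.card K + 4 := by
  have e : Pos φ ≃ ((V × Bool) ⊕ ((V × Bool) × Bool) ⊕ ((V × Bool) × Bool) ⊕ (K × Bool) ⊕ Fin 4) :=
    { toFun := fun x => match x with
        | .r v => Sum.inl v
        | .lit v s => Sum.inr (Sum.inl (v, s))
        | .top v s => Sum.inr (Sum.inr (Sum.inl (v, s)))
        | .g k => Sum.inr (Sum.inr (Sum.inr (Sum.inl k)))
        | .a => Sum.inr (Sum.inr (Sum.inr (Sum.inr 0)))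
        | .b => Sum.inr (Sum.inr (Sum.inr (Sum.inr 1)))
        | .c => Sum.inr (Sum.inr (Sum.inr (Sum.inr 2)))
        | .d => Sum.inr (Sum.inr (Sum.inr (Sum.inr 3)))
      invFun := fun x => match x with
        | Sum.inl v => .r v
        | Sum.inr (Sum.inl (v, s)) => .lit v s
        | Sum.inr (Sum.inr (Sum.inl (v, s))) => .top v s
        | Sum.inr (Sum.inr (Sum.inr (Sum.inl k))) => .g k
        | Sum.inr (Sum.inr (Sum.inr (Sum.inr i))) => if i = 0 then .a else if i = 1 then .b
            else if i = 2 then .c else .d
      left_inv := by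
        intro x
        cases x <;> simp
      right_inv := by
        rintro (v | ⟨v, s⟩ | ⟨v, s⟩ | k | i)
        · rfl
        · rfl
        · rfl
        · rfl
        · fin_cases i <;> simp }
  rw [Fintype.card_congr e]
  simp only [Fintype.card_sum, Fintype.card_prod, Fintype.card_bool, Fintype.card_fin]
  ring

end

end Pool.Agent.Work.MP_02c6ed_co.G24
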