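import Pool.Agent.Work.MP_02c6ed_co.G24.Mat
import Pool.Agent.Work.MP_02c6ed_co.G24.Hard
import Pool.Agent.Work.MP_02c6ed_co.G24.Closure
import Pool.Agent.Work.MP_02c6ed_co.G24.Embed

/-!
# Greedy posets: summary
-/

set_option autoImplicit false

open Finset

namespace Pool.Agent.Work.MP_02c6ed_co.G24

/-- Summary of the results. -/
theorem summary :
    -- the local-global theorem
    (∀ (α : Type) [PartialOrder α] [Fintype α] [DecidableEq α],
      Greedy (univ : Finset α) ↔ Balanced α) ∧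
    -- closure properties
    (∀ (α : Type) [PartialOrder α] [Fintype α] [DecidableEq α], Greedy (univ : Finset α) →
      (∀ Q : Finset α, Rem Q → Greedy Q) ∧
      ∀ A Q : Finset α, (∀ w, w ∈ Q ↔ ∃ m ∈ A, (∀ v, ¬ v < m) ∧ m ≤ w) → Greedy Q) ∧
    -- no characterisation by down-sets
    (∀ (β : Type) [PartialOrder β] [Fintype β] [DecidableEq β],
      ∃ (α : Type) (_ : PartialOrder α) (_ : Fintype α) (_ : DecidableEq α) (f : β ↪o α),
        Greedy (univ : Finset α) ∧ ∀ x y, x ≤ f y → ∃ z, f z = x) ∧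
    -- all up-sets
    (∀ (α : Type) [PartialOrder α] [Fintype α] [DecidableEq α],
      ((∀ S : Finset α, Down S → Greedy (univ \ S)) ↔ Elim α) ∧
      ((∀ S : Finset α, Down S → Greedy (univ \ S)) ↔ ∃ r : Finset α → ℤ, IsRank r) ∧
      (∀ r : Finset α → ℤ, IsRank r → Nonempty α →
        (sigma (univ : Finset α) : ℤ) + 1 = r univ - r ∅)) ∧
    -- height at most 2
    (∀ (α : Type) [PartialOrder α] [Fintype α] [DecidableEq α],
      (∀ x y z : α, x < y → ¬ y < z) →
      (Greedy (univ : Finset α) ↔ Elim α) ∧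
      (Greedy (univ : Finset α) ↔ ∃ M : Matroid α, CircuitsBelow M) ∧
      (∀ M : Matroid α, CircuitsBelow M → Nonempty α →
        ∀ B, M.IsBase B → B.ncard = sigma (univ : Finset α) + 1)) ∧
    -- height 3
    (∀ (V K : Type) [Fintype V] [Fintype K] [DecidableEq V] [DecidableEq K]
      (φ : K → Finset (V × Bool)),
      Fintype.card (Pos φ) = 10 * Fintype.card V + 2 * Fintype.card K + 4 ∧
      (∀ w x y z : Pos φ, w < x → x < y → ¬ y < z) ∧
      (Greedy (univ : Finset (Pos φ)) ↔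
        ¬ ∃ s : V → Bool, ∀ k, ∃ l ∈ φ k, s l.1 = l.2)) := by
  refine ⟨fun α _ _ _ => greedy_iff_balanced, fun α _ _ _ hG => ⟨fun Q hQ => greedy_rem hG hQ,
    fun A Q hQ => greedy_up hG A Q hQ⟩, fun β _ _ _ => exists_greedy_extension β,
    fun α _ _ _ => ⟨all_greedy_iff_elim, all_greedy_iff_rank, fun r hr _ => sigma_of_rank hr⟩,
    fun α _ _ _ h2 => ⟨greedy_iff_elim h2, greedy_iff_matroid h2, fun M hM _ =>
    sigma_of_matroid hM⟩, fun V K _ _ _ _ φ => ⟨card_pos, height_three, greedy_iff_unsat⟩⟩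

end Pool.Agent.Work.MP_02c6ed_co.G24
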