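import Pool.Agent.Work.MP_02c6ed_co.G24.Runs

/-!
# Greedy posets: the local-global theorem in terms of greedy chains
-/

set_option autoImplicit false
set_option linter.unusedSectionVars false

open Finset

namespace Pool.Agent.Work.MP_02c6ed_co.G24

variable {α : Type} [PartialOrder α] [Fintype α] [DecidableEq α]

/-- The remainders of the greedy procedure. -/
inductive Rem : Finset α → Prop
  | all : Rem univ
  | step (Q C : Finset α) : Rem Q → GreedyChain Q C → Rem (Q \ C)

/-- The chain `C` can be continued by a minimal element of `Q`. -/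
def Cont (Q C : Finset α) : Prop :=
  ∃ e ∈ Q, (∀ z ∈ Q, ¬ z < e) ∧ ∀ x ∈ C, x < e

/-- After two greedy chains either both or none of them can be continued. -/
def Balanced (α : Type) [PartialOrder α] [Fintype α] [DecidableEq α] : Prop :=
  ∀ Q : Finset α, Rem Q → ∀ C D : Finset α, GreedyChain Q C → GreedyChain Q D → C ≠ D →
    (Cont (Q \ (C ∪ D)) C ↔ Cont (Q \ (C ∪ D)) D)

theorem cont_iff {W : Finset α} {S : Finset α} {y : α} {l : List α}
    (hl : Path S y l) : Cont (univ \ W) (y :: l).toFinset ↔ ¬ Stuck W (l.getLastD y) := by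
  unfold Cont Stuck
  push Not
  constructor
  · rintro ⟨e, he, hm, hx⟩
    refine ⟨e, ⟨by simpa using he, fun z hz => ?_⟩, hx _ ?_⟩
    · by_contra hzW
      exact hm z (by simpa using hzW) hz
    · rw [List.mem_toFinset]; exact getLastD_mem l y
  · rintro ⟨e, he, hlt⟩
    refine ⟨e, by simpa using he.1, fun z hz hze => ?_, fun x hx => ?_⟩
    · exact (mem_sdiff.1 hz).2 (he.2 z hze)
    · rw [List.mem_toFinset] at hx
      exact (hl.le_last x hx).trans_lt hlt

theorem disjoint_paths {S : Finset α} {a b : α} {lb : List α} (ha : Av S a) (hb : Av S b)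
    (hab : a ≠ b) (hlb : Path (insert b S) b lb) : a ∉ S ∪ (b :: lb).toFinset := by
  intro h
  rcases mem_union.1 h with h | h
  · exact ha.1 h
  · rw [List.mem_toFinset] at h
    rcases List.mem_cons.1 h with h | h
    · exact hab h
    · exact hb.1 (ha.2 b (hlb.lt a h))

/-- States of the procedure: a remainder and the beginning of a chain. -/
theorem state_of_reach {S : Finset α} {o : Option α} (h : Reach ∅ S o) :
    ∃ S' : Finset α, Rem (univ \ S') ∧ Down S' ∧ ((o = none ∧ S = S') ∨
      ∃ (y : α) (l : List α), Av S' y ∧ Path (insert y S') y l ∧ S = S' ∪ (y :: l).toFinset ∧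
        o = some (l.getLastD y)) := by
  induction h with
  | nil =>
    refine ⟨∅, ?_, ?_, Or.inl ⟨rfl, rfl⟩⟩
    · rw [sdiff_empty]; exact Rem.all
    · intro w hw
      simp at hw
  | step S o y hr hy ih =>
    obtain ⟨S', h1, h2, h3⟩ := ih
    have hnew : ∀ y : α, insert y S' = S' ∪ ([y] : List α).toFinset := by
      intro y
      ext w
      simp only [mem_insert, mem_union, List.mem_toFinset, List.mem_singleton]
      tauto
    rcases h3 with ⟨rfl, rfl⟩ | ⟨y₀, l, g1, g2, rfl, rfl⟩
    · exact ⟨S, h1, h2, Or.inr ⟨y, [], hy.1, trivial, hnew y, rfl⟩⟩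
    · by_cases hst : Stuck (S' ∪ (y₀ :: l).toFinset) (l.getLastD y₀)
      · have hC : GreedyChain (univ \ S') (y₀ :: l).toFinset :=
          (greedyChain_iff h2 (nonempty_of_path g1) _).2 ⟨y₀, l, g1, g2, rfl, hst⟩
        refine ⟨S' ∪ (y₀ :: l).toFinset, ?_, down_union h2 g1 g2, Or.inr ⟨y, [], hy.1, trivial,
          ?_, rfl⟩⟩
        · have := Rem.step _ _ h1 hC
          have e : (univ \ S') \ (y₀ :: l).toFinset = univ \ (S' ∪ (y₀ :: l).toFinset) := by
            ext w; simp only [mem_sdiff, mem_univ, true_and, mem_union, not_or]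
          rwa [e] at this
        · ext w
          simp only [mem_insert, mem_union, List.mem_toFinset, List.mem_singleton]
          tauto
      · have hlt : l.getLastD y₀ < y := (hy.2 _ rfl).resolve_right hst
        refine ⟨S', h1, h2, Or.inr ⟨y₀, l ++ [y], g1, ?_, ?_, ?_⟩⟩
        · rw [path_append]
          refine ⟨g2, ?_⟩
          rw [insert_union_toFinset]
          exact ⟨hy.1, hlt, trivial⟩
        · ext w
          simp only [mem_insert, mem_union, List.mem_toFinset, List.mem_cons, List.mem_append]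
          tauto
        · rw [getLastD_append]; simp

/-- Remainders are reached. -/
theorem reach_of_rem {Q : Finset α} (h : Rem Q) :
    ∃ (S : Finset α) (o : Option α), Q = univ \ S ∧ Down S ∧ Reach ∅ S o ∧ ∀ x ∈ o, Stuck S x := by
  induction h with
  | all =>
    refine ⟨∅, none, by simp, ?_, Reach.nil, by simp⟩
    intro w hw
    simp at hw
  | step Q C hQ hC ih =>
    obtain ⟨S, o, rfl, hS, hr, hst⟩ := ih
    by_cases hne : (univ \ S).Nonempty
    · obtain ⟨y, l, h1, h2, rfl, h4⟩ := (greedyChain_iff hS hne C).1 hC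
      refine ⟨S ∪ (y :: l).toFinset, some (l.getLastD y), ?_, down_union hS h1 h2, ?_, ?_⟩
      · ext w; simp only [mem_sdiff, mem_univ, true_and, mem_union, not_or]
      · have h5 : Reach ∅ (insert y S) (some y) :=
          Reach.step S o y hr ⟨h1, fun x hx => Or.inr (hst x hx)⟩
        have := h5.path h2
        rwa [insert_union_toFinset] at this
      · intro x hx
        simp only [Option.mem_def, Option.some.injEq] at hx
        exact hx ▸ h4
    · rw [Finset.not_nonempty_iff_eq_empty] at hne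
      refine ⟨S, o, ?_, hS, hr, hst⟩
      rw [hne, empty_sdiff]

theorem union_aux (S : Finset α) (a b : List α) :
    S ∪ a.toFinset ∪ (S ∪ b.toFinset) = S ∪ (a.toFinset ∪ b.toFinset) := by
  ext w; simp only [mem_union]; tauto

theorem sdiff_aux (S : Finset α) (A : Finset α) : (univ \ S) \ A = univ \ (S ∪ A) := by
  ext w; simp only [mem_sdiff, mem_univ, true_and, mem_union, not_or]

theorem LC_of_balanced (hB : Balanced α) : LC (∅ : Finset α) := by
  intro S o hr y₁ y₂ l₁ l₂ h₁ h₂ hne hp₁ hp₂ hs₁ hs₂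
  rw [insert_union_toFinset] at hs₁ hs₂ ⊢
  rw [insert_union_toFinset]
  -- the case of new chains
  have key : ∀ S' : Finset α, Rem (univ \ S') → Down S' → ∀ (p₁ p₂ : List α) (c₁ c₂ : α),
      Av S' c₁ → Av S' c₂ → Path (insert c₁ S') c₁ p₁ → Path (insert c₂ S') c₂ p₂ →
      S' ∪ (c₁ :: p₁).toFinset = S ∪ (y₁ :: l₁).toFinset →
      S' ∪ (c₂ :: p₂).toFinset = S ∪ (y₂ :: l₂).toFinset →
      p₁.getLastD c₁ = l₁.getLastD y₁ → p₂.getLastD c₂ = l₂.getLastD y₂ →
      y₁ ∈ c₁ :: p₁ → S' ⊆ S →
      (Stuck (S ∪ (y₁ :: l₁).toFinset ∪ (S ∪ (y₂ :: l₂).toFinset)) (l₁.getLastD y₁) ↔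
        Stuck (S ∪ (y₁ :: l₁).toFinset ∪ (S ∪ (y₂ :: l₂).toFinset)) (l₂.getLastD y₂)) := by
    intro S' hR hD p₁ p₂ c₁ c₂ a₁ a₂ q₁ q₂ e₁ e₂ f₁ f₂ hy hsub
    have g₁ : GreedyChain (univ \ S') (c₁ :: p₁).toFinset :=
      (greedyChain_iff hD (nonempty_of_path a₁) _).2 ⟨c₁, p₁, a₁, q₁, rfl, by
        rw [e₁, f₁]; exact hs₁⟩
    have g₂ : GreedyChain (univ \ S') (c₂ :: p₂).toFinset :=
      (greedyChain_iff hD (nonempty_of_path a₂) _).2 ⟨c₂, p₂, a₂, q₂, rfl, by
        rw [e₂, f₂]; exact hs₂⟩
    have hCD : (c₁ :: p₁).toFinset ≠ (c₂ :: p₂).toFinset := by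
      intro h
      have hy1 : y₁ ∈ S' ∪ (c₂ :: p₂).toFinset := by
        rw [← h]
        exact mem_union_right _ (by rw [List.mem_toFinset]; exact hy)
      rw [e₂] at hy1
      exact disjoint_paths h₁.1 h₂.1 hne hp₂ hy1
    have := hB _ hR _ _ g₁ g₂ hCD
    rw [sdiff_aux, cont_iff q₁, cont_iff q₂, not_iff_not, f₁, f₂] at this
    have e : S' ∪ ((c₁ :: p₁).toFinset ∪ (c₂ :: p₂).toFinset) =
        S ∪ (y₁ :: l₁).toFinset ∪ (S ∪ (y₂ :: l₂).toFinset) := by
      rw [← e₁, ← e₂, union_aux]
    rwa [e] at this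
  obtain ⟨S', hR, hD, h3⟩ := state_of_reach hr
  rcases h3 with ⟨rfl, rfl⟩ | ⟨y₀, l, g1, g2, rfl, rfl⟩
  · exact key S hR hD l₁ l₂ y₁ y₂ h₁.1 h₂.1 hp₁ hp₂ rfl rfl rfl rfl (by simp) (Subset.refl _)
  · by_cases hst : Stuck (S' ∪ (y₀ :: l).toFinset) (l.getLastD y₀)
    · have hC : GreedyChain (univ \ S') (y₀ :: l).toFinset :=
        (greedyChain_iff hD (nonempty_of_path g1) _).2 ⟨y₀, l, g1, g2, rfl, hst⟩
      have hR' : Rem (univ \ (S' ∪ (y₀ :: l).toFinset)) := by
        have := Rem.step _ _ hR hC
        rwa [sdiff_aux] at this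
      exact key _ hR' (down_union hD g1 g2) l₁ l₂ y₁ y₂ h₁.1 h₂.1 hp₁ hp₂ rfl rfl rfl rfl
        (by simp) (Subset.refl _)
    · have hlt₁ : l.getLastD y₀ < y₁ := (h₁.2 _ rfl).resolve_right hst
      have hlt₂ : l.getLastD y₀ < y₂ := (h₂.2 _ rfl).resolve_right hst
      have hq : ∀ (y : α) (m : List α), Nxt (S' ∪ (y₀ :: l).toFinset) (some (l.getLastD y₀)) y →
          l.getLastD y₀ < y → Path (insert y (S' ∪ (y₀ :: l).toFinset)) y m →
          Path (insert y₀ S') y₀ (l ++ y :: m) := by
        intro y m hy hlt hm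
        rw [path_append, insert_union_toFinset]
        exact ⟨g2, hy.1, hlt, hm⟩
      have he : ∀ (y : α) (m : List α), S' ∪ (y₀ :: (l ++ y :: m)).toFinset =
          S' ∪ (y₀ :: l).toFinset ∪ (y :: m).toFinset := by
        intro y m
        ext w
        simp only [mem_union, List.mem_toFinset, List.mem_cons, List.mem_append]
        tauto
      have hlast : ∀ (y : α) (m : List α), (l ++ y :: m).getLastD y₀ = m.getLastD y := by
        intro y m
        rw [getLastD_append, List.getLastD_cons]
      exact key S' hR hD (l ++ y₁ :: l₁) (l ++ y₂ :: l₂) y₀ y₀ g1 g1 (hq _ _ h₁ hlt₁ hp₁)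
        (hq _ _ h₂ hlt₂ hp₂) (he _ _) (he _ _) (hlast _ _) (hlast _ _) (by simp)
        subset_union_left

theorem path_cases {S : Finset α} {x : α} {l : List α} (hl : Path S x l)
    (hst : Stuck (S ∪ l.toFinset) (l.getLastD x)) :
    (l = [] ∧ Stuck S x) ∨ ∃ y m, l = y :: m ∧ Av S y ∧ x < y ∧ Path (insert y S) y m ∧
      Stuck (insert y S ∪ m.toFinset) (m.getLastD y) := by
  cases l with
  | nil => exact Or.inl ⟨rfl, by simpa using hst⟩
  | cons y m =>
    rw [← insert_union_toFinset, List.getLastD_cons] at hst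
    exact Or.inr ⟨y, m, rfl, hl.1, hl.2.1, hl.2.2, hst⟩

/-- The local condition for chains with a common beginning. -/
theorem LC_common (hLC : LC (∅ : Finset α)) : ∀ (n : ℕ) (S : Finset α) (x : α) (l m : List α),
    l.length ≤ n → Reach ∅ S (some x) → Path S x l → Path S x m → l ≠ m →
    Stuck (S ∪ l.toFinset) (l.getLastD x) → Stuck (S ∪ m.toFinset) (m.getLastD x) →
    (Stuck (S ∪ (l.toFinset ∪ m.toFinset)) (l.getLastD x) ↔
      Stuck (S ∪ (l.toFinset ∪ m.toFinset)) (m.getLastD x)) := by
  intro n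
  induction n with
  | zero =>
    intro S x l m hn hr hl hm hne hsl hsm
    rw [Nat.le_zero, List.length_eq_zero_iff] at hn
    subst hn
    cases m with
    | nil => exact absurd rfl hne
    | cons b m =>
      exfalso
      have : Stuck S x := by simpa using hsl
      exact this b hm.1 hm.2.1
  | succ n ih =>
    intro S x l m hn hr hl hm hne hsl hsm
    rcases path_cases hl hsl with ⟨rfl, hs⟩ | ⟨a, l', rfl, ha, hxa, hl', hsl'⟩
    · cases m with
      | nil => exact absurd rfl hne
      | cons b m => exact absurd hm.2.1 (hs b hm.1)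
    · rcases path_cases hm hsm with ⟨rfl, hs⟩ | ⟨b, m', rfl, hb, hxb, hm', hsm'⟩
      · exact absurd hxa (hs a ha)
      · have e : ∀ c d : α, ∀ u v : List α, insert c S ∪ u.toFinset ∪ (insert d S ∪ v.toFinset) =
            S ∪ ((c :: u).toFinset ∪ (d :: v).toFinset) := by
          intro c d u v
          rw [insert_union_toFinset, insert_union_toFinset, union_aux]
        by_cases hab : a = b
        · subst hab
          have hne' : l' ≠ m' := fun h => hne (by rw [h])
          have h := ih (insert a S) a l' m' (by simpa using hn)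
            (Reach.step S (some x) a hr (nxt_of_lt hxa ha)) hl' hm' hne' hsl' hsm'
          rw [List.getLastD_cons, List.getLastD_cons]
          have e' : insert a S ∪ (l'.toFinset ∪ m'.toFinset) =
              S ∪ ((a :: l').toFinset ∪ (a :: m').toFinset) := by
            ext w
            simp only [mem_union, mem_insert, List.mem_toFinset, List.mem_cons]
            tauto
          rwa [e'] at h
        · have h := hLC S (some x) hr a b l' m' (nxt_of_lt hxa ha) (nxt_of_lt hxb hb) hab hl' hm'
            hsl' hsm'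
          rw [List.getLastD_cons, List.getLastD_cons]
          rwa [e] at h

theorem balanced_of_LC (hLC : LC (∅ : Finset α)) : Balanced α := by
  intro Q hQ C D hC hD hCD
  obtain ⟨S, o, rfl, hS, hr, hst⟩ := reach_of_rem hQ
  by_cases hne : (univ \ S).Nonempty
  · obtain ⟨a, l, a1, a2, rfl, a4⟩ := (greedyChain_iff hS hne C).1 hC
    obtain ⟨b, m, b1, b2, rfl, b4⟩ := (greedyChain_iff hS hne D).1 hD
    rw [sdiff_aux, cont_iff a2, cont_iff b2, not_iff_not]
    have ha : Nxt S o a := ⟨a1, fun x hx => Or.inr (hst x hx)⟩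
    have hb : Nxt S o b := ⟨b1, fun x hx => Or.inr (hst x hx)⟩
    rw [← insert_union_toFinset] at a4 b4
    by_cases hab : a = b
    · subst hab
      have hne' : l ≠ m := fun h => hCD (by rw [h])
      have h := LC_common hLC _ (insert a S) a l m le_rfl (Reach.step S o a hr ha) a2 b2 hne' a4 b4
      have e' : insert a S ∪ (l.toFinset ∪ m.toFinset) =
          S ∪ ((a :: l).toFinset ∪ (a :: m).toFinset) := by
        ext w
        simp only [mem_union, mem_insert, List.mem_toFinset, List.mem_cons]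
        tauto
      rwa [e'] at h
    · have h := hLC S o hr a b l m ha hb hab a2 b2 a4 b4
      rw [insert_union_toFinset, insert_union_toFinset, union_aux] at h
      exact h
  · rw [Finset.not_nonempty_iff_eq_empty] at hne
    rw [hne] at hC hD
    exact absurd ((Finset.subset_empty.1 hC.1.1).trans (Finset.subset_empty.1 hD.1.1).symm) hCD

/-- **Local-global theorem.** -/
theorem greedy_iff_balanced : Greedy (univ : Finset α) ↔ Balanced α := by
  have hD : Down (∅ : Finset α) := by
    intro w hw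
    simp at hw
  have h := greedy_iff_LC hD
  rw [sdiff_empty] at h
  rw [h]
  exact ⟨balanced_of_LC, LC_of_balanced⟩

end Pool.Agent.Work.MP_02c6ed_co.G24
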