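import Pool.Agent.Work.MP_02c6ed_co.G24.Level

/-!
# Greedy posets: the local-global principle (main induction)
-/

set_option autoImplicit false
set_option linter.unusedSectionVars false

open Finset

namespace Pool.Agent.Work.MP_02c6ed_co.G24

variable {α : Type} [PartialOrder α] [Fintype α] [DecidableEq α]

/-- Two new chains on top of `W` are disjoint. -/
theorem disj {W : Finset α} {z y₁ y₂ : α} {m₁ m₂ : List α}
    (hy₁ : Av W y₁) (hy₂ : Av W y₂) (hz : z < y₂) (hz' : ¬ z < y₁)
    (hm₁ : Path (insert y₁ W) y₁ m₁) (hm₂ : Path (insert y₂ W) y₂ m₂) :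
    ∀ w ∈ y₁ :: m₁, w ∉ W ∪ (y₂ :: m₂).toFinset := by
  have hb : y₁ ∉ W ∪ (y₂ :: m₂).toFinset := by
    intro h
    rcases mem_union.1 h with h | h
    · exact hy₁.1 h
    · rw [List.mem_toFinset] at h
      rcases List.mem_cons.1 h with h | h
      · exact hz' (h ▸ hz)
      · exact hz' (hz.trans (hm₂.lt y₁ h))
  intro w hw h
  rcases List.mem_cons.1 hw with rfl | hw
  · exact hb h
  · have hlt := hm₁.lt w hw
    rcases mem_union.1 h with h | h
    · exact hm₁.notMem w hw (mem_insert_of_mem h)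
    · rw [List.mem_toFinset] at h
      rcases List.mem_cons.1 h with h | h
      · subst h
        exact hy₁.1 (hy₂.2 y₁ hlt)
      · have := hm₂.below w h y₁ hlt
        rw [insert_union_toFinset] at this
        exact hb this

theorem getLastD_mem (l : List α) (x : α) : l.getLastD x ∈ x :: l := by
  induction l generalizing x with
  | nil => simp
  | cons a l ih =>
    rw [List.getLastD_cons]
    exact List.mem_cons_of_mem _ (ih a)

/-- If `k` can be continued after `W`, then the other chain can be continued as well. -/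
theorem not_stuck {W : Finset α} {x z y₁ y₂ : α} {k k' m : List α}
    (hy₁ : Av W y₁) (hy₂ : Av W y₂) (hx₁ : x < y₁) (hx₂ : ¬ x < y₂) (hz₁ : ¬ z < y₁)
    (hz₂ : z < y₂)
    (hm : Path (insert y₁ W) y₁ m) (hk : Path (insert y₂ W) y₂ (k ++ k')) (hk' : k' ≠ [])
    (h : Stuck (W ∪ (y₁ :: m).toFinset ∪ (y₂ :: k).toFinset) (m.getLastD y₁) ↔
        Stuck (W ∪ (y₁ :: m).toFinset ∪ (y₂ :: k).toFinset) (k.getLastD y₂)) :
    ¬ Stuck (W ∪ (y₁ :: m).toFinset ∪ (y₂ :: (k ++ k')).toFinset) (m.getLastD y₁) := by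
  have hd1 := disj hy₁ hy₂ hz₂ hz₁ hm hk
  have hd2 := disj hy₂ hy₁ hx₁ hx₂ hk hm
  have hk2 : k.getLastD y₂ ∈ y₂ :: k := getLastD_mem k y₂
  have hm2 : m.getLastD y₁ ∈ y₁ :: m := getLastD_mem m y₁
  have hk2' : k.getLastD y₂ ∈ y₂ :: (k ++ k') := by
    rcases List.mem_cons.1 hk2 with h | h
    · rw [h]; simp
    · exact List.mem_cons_of_mem _ (List.mem_append_left _ h)
  cases k' with
  | nil => exact absurd rfl hk'
  | cons w k' =>
    have hk0 := hk
    rw [path_append] at hk
    obtain ⟨hka, hkw⟩ := hk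
    rw [Path, insert_union_toFinset] at hkw
    have hns : ¬ Stuck (W ∪ (y₁ :: m).toFinset ∪ (y₂ :: k).toFinset) (k.getLastD y₂) := by
      intro hs
      refine hs w ⟨?_, ?_⟩ hkw.2.1
      · intro hw
        simp only [mem_union] at hw
        rcases hw with (hw | hw) | hw
        · exact hkw.1.1 (mem_union_left _ hw)
        · exact hd2 w (by simp) (mem_union_right _ hw)
        · exact hkw.1.1 (mem_union_right _ hw)
      · intro v hv
        have := hkw.1.2 v hv
        simp only [mem_union] at this ⊢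
        tauto
    rw [← h] at hns
    unfold Stuck at hns ⊢
    push Not at hns ⊢
    obtain ⟨g, hg, hxg⟩ := hns
    refine ⟨g, ⟨?_, ?_⟩, hxg⟩
    · intro hgm
      have hg1 := hg.1
      simp only [mem_union, List.mem_toFinset, not_or] at hgm hg1
      rcases hgm with hgm | hgm
      · tauto
      · -- `g` lies on the second chain, but it is above an element of the first chain
        have hbel : ∀ v, v < g → v ∈ W ∪ (y₂ :: (k ++ w :: k')).toFinset := by
          intro v hv
          rcases List.mem_cons.1 hgm with h | h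
          · subst h
            exact mem_union_left _ (hy₂.2 v hv)
          · have := hk0.below g h v hv
            rwa [insert_union_toFinset] at this
        exact hd1 _ hm2 (hbel _ hxg)
    · intro v hv
      have := hg.2 v hv
      simp only [mem_union, List.mem_toFinset, List.mem_cons, List.mem_append] at this ⊢
      tauto

/-- The comparison of the two orders of two chains. -/
theorem level {S₀ : Finset α} (h₀ : Down S₀) (hLC : LC S₀) (n : ℕ) : ∀ (A B W : Finset α) (x₀ z₀ : α) (xl zl : List α),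
    (univ \ W).card ≤ n →
    (∀ (S' : Finset α) (o' : Option α), Reach S₀ S' o' → W ⊆ S' → Nice S' o') →
    Reach S₀ A (some (zl.getLastD z₀)) → Stuck A (zl.getLastD z₀) → Av A x₀ →
    Path (insert x₀ A) x₀ xl → W = A ∪ (x₀ :: xl).toFinset →
    Reach S₀ B (some (xl.getLastD x₀)) → Stuck B (xl.getLastD x₀) → Av B z₀ →
    Path (insert z₀ B) z₀ zl → W = B ∪ (z₀ :: zl).toFinset →
    (Stuck W (xl.getLastD x₀) ↔ Stuck W (zl.getLastD z₀)) →
    G W (some (xl.getLastD x₀)) = G W (some (zl.getLastD z₀)) := by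
  induction n with
  | zero =>
    intro A B W x₀ z₀ xl zl hn _ _ _ _ _ _ _ _ _ _ _ _
    have hW : W = univ := by
      rw [Nat.le_zero, Finset.card_eq_zero, Finset.sdiff_eq_empty_iff_subset] at hn
      exact Finset.univ_subset_iff.1 hn
    subst hW
    rw [G_eq_zero, G_eq_zero] <;>
    · rintro ⟨y, hy⟩
      exact hy.1.1 (mem_univ _)
  | succ n ih =>
    intro A B W x₀ z₀ xl zl hn hN hA hAs hAx hAp hWA hB hBs hBz hBp hWB hc
    set x := xl.getLastD x₀ with hx
    set z := zl.getLastD z₀ with hz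
    have hWx : Reach S₀ W (some x) := by
      have h1 : Reach S₀ (insert x₀ A) (some x₀) := Reach.step A _ x₀ hA (nxt_of_stuck hAs hAx)
      have h2 := h1.path hAp
      rwa [insert_union_toFinset, ← hWA] at h2
    have hWz : Reach S₀ W (some z) := by
      have h1 : Reach S₀ (insert z₀ B) (some z₀) := Reach.step B _ z₀ hB (nxt_of_stuck hBs hBz)
      have h2 := h1.path hBp
      rwa [insert_union_toFinset, ← hWB] at h2
    by_cases hsx : Stuck W x
    · -- both chains end
      have hsz := hc.1 hsx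
      by_cases hex : ∃ y, Av W y
      · obtain ⟨y, hy⟩ := hex
        rw [hN W _ hWx (Finset.Subset.refl _) y (nxt_of_stuck hsx hy),
          hN W _ hWz (Finset.Subset.refl _) y (nxt_of_stuck hsz hy),
          cost_not (hsx y hy), cost_not (hsz y hy)]
      · rw [G_eq_zero, G_eq_zero]
        · rintro ⟨y, hy⟩
          exact hex ⟨y, hy.1⟩
        · rintro ⟨y, hy⟩
          exact hex ⟨y, hy.1⟩
    · have hsz : ¬ Stuck W z := fun h => hsx (hc.2 h)
      by_cases hcom : ∃ y, Av W y ∧ x < y ∧ z < y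
      · obtain ⟨y, hy, hxy, hzy⟩ := hcom
        rw [hN W _ hWx (Finset.Subset.refl _) y (nxt_of_lt hxy hy),
          hN W _ hWz (Finset.Subset.refl _) y (nxt_of_lt hzy hy), cost_lt hxy, cost_lt hzy]
      · push Not at hcom
        unfold Stuck at hsx hsz
        push Not at hsx hsz
        obtain ⟨y₁, hy₁, hxy₁⟩ := hsx
        obtain ⟨y₂, hy₂, hzy₂⟩ := hsz
        have hzy₁ : ¬ z < y₁ := hcom y₁ hy₁ hxy₁
        have hxy₂ : ¬ x < y₂ := fun h => hcom y₂ hy₂ h hzy₂
        have hne : y₁ ≠ y₂ := fun h => hzy₁ (h ▸ hzy₂)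
        obtain ⟨k₂, hk₂, hL₂⟩ := side h₀ hLC hA hAs hAx hAp hWA hy₂ hzy₂ hxy₂
        obtain ⟨k₁, hk₁, hL₁⟩ := side h₀ hLC hB hBs hBz hBp hWB hy₁ hxy₁ hzy₁
        -- maximal continuations
        obtain ⟨k₂', hk₂', hst₂⟩ := exists_path (insert y₂ W ∪ k₂.toFinset) (k₂.getLastD y₂)
        obtain ⟨k₁', hk₁', hst₁⟩ := exists_path (insert y₁ W ∪ k₁.toFinset) (k₁.getLastD y₁)
        have hm₂ : Path (insert y₂ W) y₂ (k₂ ++ k₂') := path_append.2 ⟨hk₂, hk₂'⟩
        have hm₁ : Path (insert y₁ W) y₁ (k₁ ++ k₁') := path_append.2 ⟨hk₁, hk₁'⟩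
        have hs₂ : Stuck (W ∪ (y₂ :: (k₂ ++ k₂')).toFinset) ((k₂ ++ k₂').getLastD y₂) := by
          rw [getLastD_append, ← insert_union_toFinset, List.toFinset_append, ← union_assoc]
          exact hst₂
        have hs₁ : Stuck (W ∪ (y₁ :: (k₁ ++ k₁')).toFinset) ((k₁ ++ k₁').getLastD y₁) := by
          rw [getLastD_append, ← insert_union_toFinset, List.toFinset_append, ← union_assoc]
          exact hst₁
        have hF₂ := hL₂ y₁ (k₁ ++ k₁') hne ⟨hy₁, hxy₁, hm₁⟩ hs₁
        have hF₁ := hL₁ y₂ (k₂ ++ k₂') hne.symm ⟨hy₂, hzy₂, hm₂⟩ hs₂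
        have hd1 := disj hy₁ hy₂ hzy₂ hzy₁ hm₁ hm₂
        have hd2 := disj hy₂ hy₁ hxy₁ hxy₂ hm₂ hm₁
        -- the next level
        have hcomm : W ∪ (y₂ :: (k₂ ++ k₂')).toFinset ∪ (y₁ :: (k₁ ++ k₁')).toFinset =
            W ∪ (y₁ :: (k₁ ++ k₁')).toFinset ∪ (y₂ :: (k₂ ++ k₂')).toFinset := by
          rw [union_assoc, union_assoc, union_comm (y₂ :: (k₂ ++ k₂')).toFinset]
        have hc' : Stuck (W ∪ (y₁ :: (k₁ ++ k₁')).toFinset ∪ (y₂ :: (k₂ ++ k₂')).toFinset)
              ((k₁ ++ k₁').getLastD y₁) ↔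
            Stuck (W ∪ (y₁ :: (k₁ ++ k₁')).toFinset ∪ (y₂ :: (k₂ ++ k₂')).toFinset)
              ((k₂ ++ k₂').getLastD y₂) := by
          by_cases h2 : k₂' = []
          · subst h2
            simpa using hF₂
          · by_cases h1 : k₁' = []
            · subst h1
              rw [← hcomm]
              simpa using hF₁.symm
            · have n1 := not_stuck hy₁ hy₂ hxy₁ hxy₂ hzy₁ hzy₂ hm₁ hm₂ h2 hF₂
              have n2 := not_stuck hy₂ hy₁ hzy₂ hzy₁ hxy₂ hxy₁ hm₂ hm₁ h1 hF₁
              rw [hcomm] at n2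
              exact ⟨fun h => absurd h n1, fun h => absurd h n2⟩
        -- reachability
        have hr₂ : Reach S₀ (insert y₂ W) (some y₂) := Reach.step W _ y₂ hWz (nxt_of_lt hzy₂ hy₂)
        have hr₁ : Reach S₀ (insert y₁ W) (some y₁) := Reach.step W _ y₁ hWx (nxt_of_lt hxy₁ hy₁)
        have hA' : Reach S₀ (W ∪ (y₂ :: (k₂ ++ k₂')).toFinset) (some ((k₂ ++ k₂').getLastD y₂)) := by
          have := hr₂.path hm₂
          rwa [insert_union_toFinset] at this
        have hB' : Reach S₀ (W ∪ (y₁ :: (k₁ ++ k₁')).toFinset) (some ((k₁ ++ k₁').getLastD y₁)) := by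
          have := hr₁.path hm₁
          rwa [insert_union_toFinset] at this
        have hAx' : Av (W ∪ (y₂ :: (k₂ ++ k₂')).toFinset) y₁ :=
          hy₁.mono subset_union_left (hd1 y₁ (by simp))
        have hBz' : Av (W ∪ (y₁ :: (k₁ ++ k₁')).toFinset) y₂ :=
          hy₂.mono subset_union_left (hd2 y₂ (by simp))
        have hAp' : Path (insert y₁ (W ∪ (y₂ :: (k₂ ++ k₂')).toFinset)) y₁ (k₁ ++ k₁') := by
          refine hm₁.mono (insert_subset_insert _ subset_union_left) ?_
          intro w hw hwm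
          rcases mem_insert.1 hwm with h | h
          · exact lt_irrefl _ (h ▸ hm₁.lt w hw)
          · exact hd1 w (List.mem_cons_of_mem _ hw) h
        have hBp' : Path (insert y₂ (W ∪ (y₁ :: (k₁ ++ k₁')).toFinset)) y₂ (k₂ ++ k₂') := by
          refine hm₂.mono (insert_subset_insert _ subset_union_left) ?_
          intro w hw hwm
          rcases mem_insert.1 hwm with h | h
          · exact lt_irrefl _ (h ▸ hm₂.lt w hw)
          · exact hd2 w (List.mem_cons_of_mem _ hw) h
        set W' := W ∪ (y₁ :: (k₁ ++ k₁')).toFinset ∪ (y₂ :: (k₂ ++ k₂')).toFinset with hW'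
        have hWW' : W ⊆ W' := subset_union_left.trans subset_union_left
        have hcard : (univ \ W').card ≤ n := by
          have : (univ \ W').card < (univ \ W).card := by
            refine Finset.card_lt_card ⟨sdiff_subset_sdiff (Finset.Subset.refl _) hWW', ?_⟩
            intro h
            have h1 := h (mem_sdiff.2 ⟨mem_univ y₁, hy₁.1⟩)
            rw [mem_sdiff] at h1
            exact h1.2 (by rw [hW']; simp)
          omega
        have key := ih (W ∪ (y₂ :: (k₂ ++ k₂')).toFinset) (W ∪ (y₁ :: (k₁ ++ k₁')).toFinset) W'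
          y₁ y₂ (k₁ ++ k₁') (k₂ ++ k₂') hcard
          (fun S' o' hr hs => hN S' o' hr (hWW'.trans hs)) hA' hs₂ hAx' hAp'
          (by rw [hcomm]) hB' hs₁ hBz' hBp' rfl hc'
        -- the values
        have e1 : G W (some z) = 1 + G W' (some ((k₁ ++ k₁').getLastD y₁)) := by
          rw [hN W _ hWz (Finset.Subset.refl _) y₂ (nxt_of_lt hzy₂ hy₂), cost_lt hzy₂, zero_add,
            G_path hN (subset_insert _ _) hr₂ hm₂, insert_union_toFinset,
            hN _ _ hA' subset_union_left y₁ (nxt_of_stuck hs₂ hAx'), cost_not (hs₂ y₁ hAx'),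
            G_path hN (subset_union_left.trans (subset_insert _ _))
              (Reach.step _ _ y₁ hA' (nxt_of_stuck hs₂ hAx')) hAp', insert_union_toFinset, hcomm]
        have e2 : G W (some x) = 1 + G W' (some ((k₂ ++ k₂').getLastD y₂)) := by
          rw [hN W _ hWx (Finset.Subset.refl _) y₁ (nxt_of_lt hxy₁ hy₁), cost_lt hxy₁, zero_add,
            G_path hN (subset_insert _ _) hr₁ hm₁, insert_union_toFinset,
            hN _ _ hB' subset_union_left y₂ (nxt_of_stuck hs₁ hBz'), cost_not (hs₁ y₂ hBz'),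
            G_path hN (subset_union_left.trans (subset_insert _ _))
              (Reach.step _ _ y₂ hB' (nxt_of_stuck hs₁ hBz')) hBp', insert_union_toFinset]
        rw [e1, e2, key]

/-- The local condition implies that all choices are equally good. -/
theorem nice_of_LC {S₀ : Finset α} (h₀ : Down S₀) (hLC : LC S₀) :
    ∀ (S : Finset α) (o : Option α), Reach S₀ S o → Nice S o := by
  suffices h : ∀ (n : ℕ) (S : Finset α) (o : Option α), (univ \ S).card ≤ n → Reach S₀ S o →
      Nice S o from fun S o => h _ S o le_rfl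
  intro n
  induction n with
  | zero =>
    intro S o hn _ y hy
    have hS : S = univ := by
      rw [Nat.le_zero, Finset.card_eq_zero, Finset.sdiff_eq_empty_iff_subset] at hn
      exact Finset.univ_subset_iff.1 hn
    exact absurd (hS ▸ mem_univ y) hy.1.1
  | succ n ih =>
    intro S o hn hr
    have hN : ∀ (T S' : Finset α) (o' : Option α), S ⊂ T → Reach S₀ S' o' → T ⊆ S' → Nice S' o' := by
      intro T S' o' hT hr' hTS
      refine ih S' o' ?_ hr'
      have : (univ \ S').card < (univ \ S).card := by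
        refine Finset.card_lt_card ⟨sdiff_subset_sdiff (Finset.Subset.refl _)
          (hT.1.trans hTS), fun h => ?_⟩
        obtain ⟨w, hw, hwS⟩ := Finset.exists_of_ssubset hT
        have := h (mem_sdiff.2 ⟨mem_univ w, hwS⟩)
        exact (mem_sdiff.1 this).2 (hTS hw)
      omega
    refine nice_of_eq fun y₁ y₂ h₁ h₂ hne => ?_
    rw [cost_eq h₁ h₂]
    congr 1
    have hr₁ := Reach.step S o y₁ hr h₁
    have hr₂ := Reach.step S o y₂ hr h₂
    have hN₁ : ∀ (S' : Finset α) (o' : Option α), Reach S₀ S' o' → insert y₁ S ⊆ S' →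
        Nice S' o' := fun S' o' => hN _ S' o' (Finset.ssubset_insert h₁.1.1)
    have hN₂ : ∀ (S' : Finset α) (o' : Option α), Reach S₀ S' o' → insert y₂ S ⊆ S' →
        Nice S' o' := fun S' o' => hN _ S' o' (Finset.ssubset_insert h₂.1.1)
    obtain ⟨l₁, hl₁, hs₁⟩ := exists_path (insert y₁ S) y₁
    obtain ⟨l₂, hl₂, hs₂⟩ := exists_path (insert y₂ S) y₂
    have hc := hLC S o hr y₁ y₂ l₁ l₂ h₁ h₂ hne hl₁ hl₂ hs₁ hs₂
    -- the two chains are disjoint
    have hd : ∀ (a b : α) (la lb : List α), Av S a → Av S b → a ≠ b →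
        Path (insert a S) a la → Path (insert b S) b lb →
        ∀ w ∈ a :: la, w ∉ S ∪ (b :: lb).toFinset := by
      intro a b la lb ha hb hab hla hlb
      have hb' : a ∉ S ∪ (b :: lb).toFinset := by
        intro h
        rcases mem_union.1 h with h | h
        · exact ha.1 h
        · rw [List.mem_toFinset] at h
          rcases List.mem_cons.1 h with h | h
          · exact hab h
          · exact hb.1 (ha.2 b (hlb.lt a h))
      intro w hw h
      rcases List.mem_cons.1 hw with rfl | hw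
      · exact hb' h
      · have hlt := hla.lt w hw
        rcases mem_union.1 h with h | h
        · exact hla.notMem w hw (mem_insert_of_mem h)
        · rw [List.mem_toFinset] at h
          rcases List.mem_cons.1 h with h | h
          · subst h
            exact ha.1 (hb.2 a hlt)
          · have := hlb.below w h a hlt
            rw [insert_union_toFinset] at this
            exact hb' this
    have hd1 := hd y₁ y₂ l₁ l₂ h₁.1 h₂.1 hne hl₁ hl₂
    have hd2 := hd y₂ y₁ l₂ l₁ h₂.1 h₁.1 hne.symm hl₂ hl₁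
    rw [insert_union_toFinset] at hs₁ hs₂
    have hA : Reach S₀ (S ∪ (y₂ :: l₂).toFinset) (some (l₂.getLastD y₂)) := by
      have := hr₂.path hl₂
      rwa [insert_union_toFinset] at this
    have hB : Reach S₀ (S ∪ (y₁ :: l₁).toFinset) (some (l₁.getLastD y₁)) := by
      have := hr₁.path hl₁
      rwa [insert_union_toFinset] at this
    have hAx : Av (S ∪ (y₂ :: l₂).toFinset) y₁ :=
      h₁.1.mono subset_union_left (hd1 y₁ (by simp))
    have hBz : Av (S ∪ (y₁ :: l₁).toFinset) y₂ :=
      h₂.1.mono subset_union_left (hd2 y₂ (by simp))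
    have hAp : Path (insert y₁ (S ∪ (y₂ :: l₂).toFinset)) y₁ l₁ := by
      refine hl₁.mono (insert_subset_insert _ subset_union_left) ?_
      intro w hw hwm
      rcases mem_insert.1 hwm with h | h
      · exact lt_irrefl _ (h ▸ hl₁.lt w hw)
      · exact hd1 w (List.mem_cons_of_mem _ hw) h
    have hBp : Path (insert y₂ (S ∪ (y₁ :: l₁).toFinset)) y₂ l₂ := by
      refine hl₂.mono (insert_subset_insert _ subset_union_left) ?_
      intro w hw hwm
      rcases mem_insert.1 hwm with h | h
      · exact lt_irrefl _ (h ▸ hl₂.lt w hw)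
      · exact hd2 w (List.mem_cons_of_mem _ hw) h
    set W := S ∪ (y₁ :: l₁).toFinset ∪ (y₂ :: l₂).toFinset with hW
    have hcomm : S ∪ (y₂ :: l₂).toFinset ∪ (y₁ :: l₁).toFinset = W := by
      rw [hW, union_assoc, union_assoc, union_comm (y₂ :: l₂).toFinset]
    have hWe : insert y₁ S ∪ l₁.toFinset ∪ (insert y₂ S ∪ l₂.toFinset) = W := by
      rw [insert_union_toFinset, insert_union_toFinset, hW]
      ext w; simp only [mem_union]; tauto
    rw [hWe] at hc
    have hyW : insert y₁ S ⊆ W := by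
      intro w hw
      rw [hW]
      rcases mem_insert.1 hw with rfl | hw
      · simp
      · simp [hw]
    have key := level h₀ hLC _ (S ∪ (y₂ :: l₂).toFinset) (S ∪ (y₁ :: l₁).toFinset) W y₁ y₂ l₁ l₂
      le_rfl (fun S' o' hr' hs' => hN₁ S' o' hr' (hyW.trans hs')) hA hs₂ hAx hAp
      hcomm.symm hB hs₁ hBz hBp hW hc
    have sub1 : insert y₁ S ⊆ S ∪ (y₁ :: l₁).toFinset := by
      rw [← insert_union_toFinset]; exact subset_union_left
    have sub2 : insert y₂ S ⊆ S ∪ (y₂ :: l₂).toFinset := by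
      rw [← insert_union_toFinset]; exact subset_union_left
    have e1 : G (insert y₁ S) (some y₁) = 1 + G W (some (l₂.getLastD y₂)) := by
      rw [G_path hN₁ (Finset.Subset.refl _) hr₁ hl₁, insert_union_toFinset,
        hN₁ _ _ hB sub1 y₂ (nxt_of_stuck hs₁ hBz), cost_not (hs₁ y₂ hBz),
        G_path hN₁ (sub1.trans (subset_insert _ _))
          (Reach.step _ _ y₂ hB (nxt_of_stuck hs₁ hBz)) hBp, insert_union_toFinset]
    have e2 : G (insert y₂ S) (some y₂) = 1 + G W (some (l₁.getLastD y₁)) := by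
      rw [G_path hN₂ (Finset.Subset.refl _) hr₂ hl₂, insert_union_toFinset,
        hN₂ _ _ hA sub2 y₁ (nxt_of_stuck hs₂ hAx), cost_not (hs₂ y₁ hAx),
        G_path hN₂ (sub2.trans (subset_insert _ _))
          (Reach.step _ _ y₁ hA (nxt_of_stuck hs₂ hAx)) hAp, insert_union_toFinset, hcomm]
    rw [e1, e2, key]

end Pool.Agent.Work.MP_02c6ed_co.G24
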