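import Pool.Agent.Work.MP_02c6ed_co.G24.Setting
import Pool.Agent.Work.MP_02c6ed_co.G24.Main

/-!
# Greedy posets: runs of the procedure and greedy linear extensions
-/

set_option autoImplicit false
set_option linter.unusedSectionVars false

open Finset

namespace Pool.Agent.Work.MP_02c6ed_co.G24

variable {α : Type} [PartialOrder α] [Fintype α] [DecidableEq α]

/-- `L` lists the elements outside of `S` in an admissible order. -/
def Comp : Finset α → List α → Prop
  | S, [] => S = univ
  | S, y :: l => Av S y ∧ Comp (insert y S) l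

/-- `L` is a greedy completion of the state `(S, o)`. -/
def GComp : Finset α → Option α → List α → Prop
  | S, _, [] => S = univ
  | S, o, y :: l => Nxt S o y ∧ GComp (insert y S) (some y) l

/-- The number of the chains of a completion which begin after the state. -/
noncomputable def jf : Option α → List α → ℕ
  | _, [] => 0
  | o, y :: l => cost o y + jf (some y) l

theorem Down.insert {S : Finset α} (h : Down S) {y : α} (hy : Av S y) : Down (insert y S) := by
  intro w hw v hv
  rcases mem_insert.1 hw with rfl | hw
  · exact mem_insert_of_mem (hy.2 v hv)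
  · exact mem_insert_of_mem (h w hw v hv)

theorem Comp.notMem {S : Finset α} {L : List α} (h : Comp S L) : ∀ w ∈ L, w ∉ S := by
  induction L generalizing S with
  | nil => simp
  | cons y l ih =>
    intro w hw
    rcases List.mem_cons.1 hw with rfl | hw
    · exact h.1.1
    · exact fun hh => ih h.2 w hw (mem_insert_of_mem hh)

theorem Comp.mem {S : Finset α} {L : List α} (h : Comp S L) : ∀ w, w ∉ S → w ∈ L := by
  induction L generalizing S with
  | nil =>
    intro w hw
    rw [Comp] at h
    exact absurd (h ▸ mem_univ w) hw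
  | cons y l ih =>
    intro w hw
    by_cases hwy : w = y
    · simp [hwy]
    · exact List.mem_cons_of_mem _ (ih h.2 w (by simp [hwy, hw]))

theorem comp_iff {S : Finset α} (hS : Down S) (L : List α) : Comp S L ↔ LinExt (univ \ S) L := by
  induction L generalizing S with
  | nil =>
    simp only [Comp, LinExt, List.not_mem_nil, false_iff, mem_sdiff, mem_univ, true_and,
      not_not, List.Pairwise.nil, and_true]
    exact ⟨fun h x => h ▸ mem_univ x, fun h => Finset.eq_univ_iff_forall.2 h⟩
  | cons y l ih =>
    constructor
    · intro h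
      have h2 := (ih (hS.insert h.1)).1 h.2
      refine ⟨fun x => ?_, List.pairwise_cons.2 ⟨fun x hx hxy => ?_, h2.2⟩⟩
      · rw [List.mem_cons, h2.1]
        simp only [mem_sdiff, mem_univ, true_and, mem_insert, not_or]
        constructor
        · rintro (rfl | h3)
          · exact h.1.1
          · exact h3.2
        · intro h3
          by_cases hxy : x = y
          · exact Or.inl hxy
          · exact Or.inr ⟨hxy, h3⟩
      · have hx' := h2.1 x |>.1 hx
        simp only [mem_sdiff, mem_univ, true_and, mem_insert, not_or] at hx'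
        exact hx'.2 (h.1.2 x (lt_of_le_of_ne hxy hx'.1))
    · intro h
      have hp := List.pairwise_cons.1 h.2
      have hy : y ∉ S := by
        have := (h.1 y).1 (by simp)
        simpa using this
      have hav : Av S y := by
        refine ⟨hy, fun z hz => ?_⟩
        by_contra hzS
        have hz' : z ∈ y :: l := (h.1 z).2 (by simp [hzS])
        rcases List.mem_cons.1 hz' with h3 | h3
        · exact hz.ne h3
        · exact hp.1 z h3 hz.le
      refine ⟨hav, (ih (hS.insert hav)).2 ⟨fun x => ?_, hp.2⟩⟩
      simp only [mem_sdiff, mem_univ, true_and, mem_insert, not_or]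
      constructor
      · intro hx
        have h3 := (h.1 x).1 (List.mem_cons_of_mem _ hx)
        simp only [mem_sdiff, mem_univ, true_and] at h3
        exact ⟨fun hxy => hp.1 x hx hxy.le, h3⟩
      · intro hx
        have h3 := (h.1 x).2 (by simp [hx.2])
        rcases List.mem_cons.1 h3 with h4 | h4
        · exact absurd h4 hx.1
        · exact h4

theorem GComp.comp {S : Finset α} {o : Option α} {L : List α} (h : GComp S o L) : Comp S L := by
  induction L generalizing S o with
  | nil => exact h
  | cons y l ih => exact ⟨h.1.1, ih h.2⟩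

theorem jumps_eq {Q S : Finset α} (hS : Down S) (y : α) (l : List α) (h : Comp S (y :: l)) :
    jf (some y) l = jumps Q (y :: l) := by
  induction l generalizing S y with
  | nil => simp [jf, jumps]
  | cons z l ih =>
    rw [jf, jumps, ih (hS.insert h.1) z h.2]
    congr 1
    have hcov : CoversIn Q y z ↔ y < z := by
      refine ⟨fun h => h.1, fun hyz => ⟨hyz, fun w _ hw => ?_⟩⟩
      have hw2 := h.2.1.2 w hw.2
      rcases mem_insert.1 hw2 with rfl | hw2
      · exact lt_irrefl _ hw.1
      · exact h.1.1 (hS w hw2 y hw.1)
    by_cases hyz : y < z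
    · rw [cost_lt hyz, if_pos (hcov.2 hyz)]
    · rw [cost_not hyz, if_neg (fun hh => hyz (hcov.1 hh))]

theorem jumps_add_one {Q S : Finset α} (hS : Down S) (L : List α) (h : Comp S L) (hne : L ≠ []) :
    jf none L = jumps Q L + 1 := by
  cases L with
  | nil => exact absurd rfl hne
  | cons y l => rw [jf, cost_none, jumps_eq hS y l h, add_comm]

/-! ### The best completion can be chosen greedy -/

theorem jf_append (x : α) (l₁ l₂ : List α) :
    jf (some x) (l₁ ++ l₂) = jf (some x) l₁ + jf (some (l₁.getLastD x)) l₂ := by
  induction l₁ generalizing x with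
  | nil => simp [jf]
  | cons y l ih =>
    rw [List.cons_append, jf, jf, ih, List.getLastD_cons, add_assoc]

theorem cost_le_one (o : Option α) (y : α) : cost o y ≤ 1 := by
  unfold cost
  split_ifs <;> omega

theorem jf_le (u y : α) (l : List α) : jf (some u) l ≤ 1 + jf (some y) l := by
  cases l with
  | nil => simp [jf]
  | cons w l =>
    rw [jf, jf]
    have := cost_le_one (some u) w
    omega

theorem Comp.front {S : Finset α} {l₁ l₂ : List α} {y : α} (h : Comp S (l₁ ++ y :: l₂))
    (hy : Av S y) : Comp S (y :: (l₁ ++ l₂)) := by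
  induction l₁ generalizing S with
  | nil => exact h
  | cons a l ih =>
    have h1 : Comp (insert a S) (l ++ y :: l₂) := h.2
    have hya : y ∉ insert a S := h1.notMem y (by simp)
    have h2 := ih h1 (hy.mono (subset_insert _ _) hya)
    have hay : a ≠ y := by
      rintro rfl
      exact hya (mem_insert_self _ _)
    refine ⟨hy, h.1.mono (subset_insert _ _) ?_, ?_⟩
    · rw [mem_insert, not_or]
      exact ⟨hay, h.1.1⟩
    · rw [Finset.insert_comm]
      exact h2.2

theorem exists_greedy (n : ℕ) : ∀ (S : Finset α) (o : Option α) (L : List α), L.length = n →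
    Comp S L → ∃ L', GComp S o L' ∧ jf o L' ≤ jf o L := by
  induction n with
  | zero =>
    intro S o L hL h
    rw [List.length_eq_zero_iff] at hL
    subst hL
    exact ⟨[], h, le_rfl⟩
  | succ n ih =>
    intro S o L hL h
    cases L with
    | nil => simp at hL
    | cons a t =>
      have key : ∀ (b : α) (t' : List α), t'.length = n → Comp S (b :: t') → Nxt S o b →
          ∃ L', GComp S o L' ∧ jf o L' ≤ jf o (b :: t') := by
        intro b t' ht' hc hb
        obtain ⟨L', h1, h2⟩ := ih (insert b S) (some b) t' ht' hc.2
        exact ⟨b :: L', ⟨hb, h1⟩, by rw [jf, jf]; omega⟩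
      simp only [List.length_cons, add_left_inj] at hL
      by_cases ha : Nxt S o a
      · exact key a t hL h ha
      · -- a better next element exists
        unfold Nxt at ha
        push Not at ha
        obtain ⟨x, hx, hxa, hst⟩ := ha h.1
        unfold Stuck at hst
        push Not at hst
        obtain ⟨y, hy, hxy⟩ := hst
        simp only [Option.mem_def] at hx
        subst hx
        have hya : y ≠ a := by
          rintro rfl
          exact hxa hxy
        have hyt : y ∈ t := by
          have := h.mem y hy.1
          rcases List.mem_cons.1 this with h1 | h1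
          · exact absurd h1 hya
          · exact h1
        obtain ⟨t₁, t₂, rfl⟩ := List.append_of_mem hyt
        have hc : Comp S (y :: ((a :: t₁) ++ t₂)) := by
          have : Comp S ((a :: t₁) ++ y :: t₂) := h
          exact this.front hy
        obtain ⟨L', h1, h2⟩ := key y ((a :: t₁) ++ t₂) (by
          simp only [List.length_append, List.length_cons, List.cons_append] at hL ⊢
          omega) hc (nxt_of_lt hxy hy)
        refine ⟨L', h1, h2.trans ?_⟩
        rw [List.cons_append, jf, cost_lt hxy, jf, jf_append, jf, cost_not hxa, jf_append, jf]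
        have hu : ¬ t₁.getLastD a < y := by
          intro hlt
          have h3 := hy.2 _ hlt
          have h4 : t₁.getLastD a ∈ a :: t₁ := getLastD_mem t₁ a
          have h5 : t₁.getLastD a ∈ a :: (t₁ ++ y :: t₂) := by
            rcases List.mem_cons.1 h4 with h6 | h6
            · rw [h6]; simp
            · exact List.mem_cons_of_mem _ (List.mem_append_left _ h6)
          exact h.notMem _ h5 h3
        rw [cost_not hu]
        have h7 := cost_le_one (some y) a
        have h8 := jf_le (t₁.getLastD a) y t₂
        omega

/-! ### Greedy completions and the local condition -/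

theorem exists_gcomp (S : Finset α) (hS : Down S) (o : Option α) : ∃ L, GComp S o L := by
  by_cases hS' : S = univ
  · exact ⟨[], hS'⟩
  · have hex : ∃ y, Nxt S o y := by
      have hav : ∃ y, Av S y := by
        have hne : (univ \ S).Nonempty := by
          rw [Finset.sdiff_nonempty]
          intro h
          exact hS' (Finset.univ_subset_iff.1 h)
        obtain ⟨m, hm⟩ := Finset.exists_minimal hne
        refine ⟨m, (mem_sdiff.1 hm.1).2, fun z hz => ?_⟩
        by_contra hzS
        have := hm.2 (mem_sdiff.2 ⟨mem_univ z, hzS⟩) hz.le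
        exact absurd hz (not_lt_of_ge this)
      cases o with
      | none =>
        obtain ⟨y, hy⟩ := hav
        exact ⟨y, hy, by simp⟩
      | some x =>
        by_cases hst : Stuck S x
        · obtain ⟨y, hy⟩ := hav
          exact ⟨y, nxt_of_stuck hst hy⟩
        · unfold Stuck at hst
          push Not at hst
          obtain ⟨y, hy, hxy⟩ := hst
          exact ⟨y, nxt_of_lt hxy hy⟩
    obtain ⟨y, hy⟩ := hex
    have hlt : (univ \ insert y S).card < (univ \ S).card := by
      refine Finset.card_lt_card ⟨?_, fun hh => ?_⟩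
      · intro z hz
        simp only [mem_sdiff, mem_univ, mem_insert, true_and, not_or] at hz ⊢
        exact hz.2
      · have := hh (mem_sdiff.2 ⟨mem_univ y, hy.1.1⟩)
        simp at this
    obtain ⟨L, hL⟩ := exists_gcomp (insert y S) (hS.insert hy.1) (some y)
    exact ⟨y :: L, hy, hL⟩
termination_by (univ \ S).card

theorem jf_eq_G {S₀ : Finset α} (hN : ∀ (S : Finset α) (o : Option α), Reach S₀ S o → Nice S o)
    {S : Finset α} {o : Option α} (hr : Reach S₀ S o) {L : List α} (h : GComp S o L) :
    jf o L = G S o := by
  induction L generalizing S o with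
  | nil =>
    rw [jf, G_eq_zero]
    rintro ⟨y, hy⟩
    rw [GComp] at h
    exact hy.1.1 (h ▸ mem_univ y)
  | cons y l ih =>
    rw [jf, hN S o hr y h.1, ih (Reach.step S o y hr h.1) h.2]

/-- A reachable state can be reached by a list. -/
theorem Reach.list {S₀ S : Finset α} {o : Option α} (hr : Reach S₀ S o) :
    ∃ (p : List α) (c : ℕ), ∀ L, GComp S o L → GComp S₀ none (p ++ L) ∧
      jf none (p ++ L) = c + jf o L := by
  induction hr with
  | nil => exact ⟨[], 0, fun L hL => ⟨hL, by simp⟩⟩
  | step S o y _ hy ih =>
    obtain ⟨p, c, h⟩ := ih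
    refine ⟨p ++ [y], c + cost o y, fun L hL => ?_⟩
    have := h (y :: L) ⟨hy, hL⟩
    rw [List.append_assoc, List.singleton_append]
    refine ⟨this.1, ?_⟩
    rw [this.2, jf]
    omega

/-- The completions of all reachable states have the same number of chains. -/
theorem nice_of_unique {S₀ : Finset α} (h₀ : Down S₀)
    (hU : ∀ L L', GComp S₀ none L → GComp S₀ none L' → jf none L = jf none L') :
    ∀ (S : Finset α) (o : Option α), Reach S₀ S o → Nice S o := by
  have hU' : ∀ (S : Finset α) (o : Option α), Reach S₀ S o → ∀ L L', GComp S o L →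
      GComp S o L' → jf o L = jf o L' := by
    intro S o hr L L' hL hL'
    obtain ⟨p, c, hp⟩ := hr.list
    have h1 := hp L hL
    have h2 := hp L' hL'
    have := hU _ _ h1.1 h2.1
    omega
  -- the canonical completion
  have hG : ∀ (n : ℕ) (S : Finset α) (o : Option α), (univ \ S).card ≤ n → Reach S₀ S o →
      ∃ L, GComp S o L ∧ jf o L = G S o := by
    intro n
    induction n with
    | zero =>
      intro S o hn _
      have hS : S = univ := by
        rw [Nat.le_zero, Finset.card_eq_zero, Finset.sdiff_eq_empty_iff_subset] at hn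
        exact Finset.univ_subset_iff.1 hn
      refine ⟨[], hS, ?_⟩
      rw [jf, G_eq_zero]
      rintro ⟨y, hy⟩
      exact hy.1.1 (hS ▸ mem_univ y)
    | succ n ih =>
      intro S o hn hr
      by_cases hS : S = univ
      · refine ⟨[], hS, ?_⟩
        rw [jf, G_eq_zero]
        rintro ⟨y, hy⟩
        exact hy.1.1 (hS ▸ mem_univ y)
      · obtain ⟨L, hL⟩ := exists_gcomp S (Reach.down h₀ hr) o
        cases L with
        | nil => exact absurd hL hS
        | cons y l =>
          obtain ⟨z, hz, hGz⟩ := exists_G ⟨y, hL.1⟩
          obtain ⟨l', hl', hjl⟩ := ih (insert z S) (some z) (by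
            have : (univ \ insert z S).card < (univ \ S).card := by
              refine Finset.card_lt_card ⟨?_, fun hh => ?_⟩
              · intro w hw
                simp only [mem_sdiff, mem_univ, mem_insert, true_and, not_or] at hw ⊢
                exact hw.2
              · have := hh (mem_sdiff.2 ⟨mem_univ z, hz.1.1⟩)
                simp at this
            omega) (Reach.step S o z hr hz)
          exact ⟨z :: l', ⟨hz, hl'⟩, by rw [jf, hjl, hGz]⟩
  intro S o hr y hy
  obtain ⟨L, hL, hjL⟩ := hG _ S o le_rfl hr
  obtain ⟨L', hL', hjL'⟩ := hG _ (insert y S) (some y) le_rfl (Reach.step S o y hr hy)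
  have := hU' S o hr L (y :: L') hL ⟨hy, hL'⟩
  rw [jf] at this
  omega

/-- The local condition is necessary. -/
theorem LC_of_nice {S₀ : Finset α} (h₀ : Down S₀)
    (hN : ∀ (S : Finset α) (o : Option α), Reach S₀ S o → Nice S o) : LC S₀ := by
  intro S o hr y₁ y₂ l₁ l₂ h₁ h₂ hne hl₁ hl₂ hs₁ hs₂
  have hr₁ := Reach.step S o y₁ hr h₁
  have hr₂ := Reach.step S o y₂ hr h₂
  have hd : ∀ (a b : α) (la lb : List α), Av S a → Av S b → a ≠ b →
      Path (insert a S) a la → Path (insert b S) b lb →
      ∀ w ∈ a :: la, w ∉ S ∪ (b :: lb).toFinset := by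
    intro a b la lb ha hb hab hla hlb
    have hb' : a ∉ S ∪ (b :: lb).toFinset := by
      intro h
      rcases mem_union.1 h with h | h
      · exact ha.1 h
      · rw [List.mem_toFinset] at h
        rcases List.mem_cons.1 h with h | h
        · exact hab h
        · exact hb.1 (ha.2 b (hlb.lt a h))
    intro w hw h
    rcases List.mem_cons.1 hw with rfl | hw
    · exact hb' h
    · have hlt := hla.lt w hw
      rcases mem_union.1 h with h | h
      · exact hla.notMem w hw (mem_insert_of_mem h)
      · rw [List.mem_toFinset] at h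
        rcases List.mem_cons.1 h with h | h
        · subst h
          exact ha.1 (hb.2 a hlt)
        · have := hlb.below w h a hlt
          rw [insert_union_toFinset] at this
          exact hb' this
  have hd1 := hd y₁ y₂ l₁ l₂ h₁.1 h₂.1 hne hl₁ hl₂
  have hd2 := hd y₂ y₁ l₂ l₁ h₂.1 h₁.1 hne.symm hl₂ hl₁
  have hN' : ∀ (W S' : Finset α) (o' : Option α), Reach S₀ S' o' → W ⊆ S' → Nice S' o' :=
    fun _ S' o' hr _ => hN S' o' hr
  rw [insert_union_toFinset] at hs₁ hs₂
  have hWe : insert y₁ S ∪ l₁.toFinset ∪ (insert y₂ S ∪ l₂.toFinset) =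
      S ∪ (y₁ :: l₁).toFinset ∪ (y₂ :: l₂).toFinset := by
    rw [insert_union_toFinset, insert_union_toFinset]
    ext w; simp only [mem_union]; tauto
  have hcomm : S ∪ (y₂ :: l₂).toFinset ∪ (y₁ :: l₁).toFinset =
      S ∪ (y₁ :: l₁).toFinset ∪ (y₂ :: l₂).toFinset := by
    rw [union_assoc, union_assoc, union_comm (y₂ :: l₂).toFinset]
  have hA : Reach S₀ (S ∪ (y₂ :: l₂).toFinset) (some (l₂.getLastD y₂)) := by
    have := hr₂.path hl₂
    rwa [insert_union_toFinset] at this
  have hB : Reach S₀ (S ∪ (y₁ :: l₁).toFinset) (some (l₁.getLastD y₁)) := by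
    have := hr₁.path hl₁
    rwa [insert_union_toFinset] at this
  have hAx : Av (S ∪ (y₂ :: l₂).toFinset) y₁ :=
    h₁.1.mono subset_union_left (hd1 y₁ (by simp))
  have hBz : Av (S ∪ (y₁ :: l₁).toFinset) y₂ :=
    h₂.1.mono subset_union_left (hd2 y₂ (by simp))
  have hAp : Path (insert y₁ (S ∪ (y₂ :: l₂).toFinset)) y₁ l₁ := by
    refine hl₁.mono (insert_subset_insert _ subset_union_left) ?_
    intro w hw hwm
    rcases mem_insert.1 hwm with h | h
    · exact lt_irrefl _ (h ▸ hl₁.lt w hw)
    · exact hd1 w (List.mem_cons_of_mem _ hw) h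
  have hBp : Path (insert y₂ (S ∪ (y₁ :: l₁).toFinset)) y₂ l₂ := by
    refine hl₂.mono (insert_subset_insert _ subset_union_left) ?_
    intro w hw hwm
    rcases mem_insert.1 hwm with h | h
    · exact lt_irrefl _ (h ▸ hl₂.lt w hw)
    · exact hd2 w (List.mem_cons_of_mem _ hw) h
  rw [hWe]
  set W := S ∪ (y₁ :: l₁).toFinset ∪ (y₂ :: l₂).toFinset with hW
  have hrB := Reach.step _ _ y₂ hB (nxt_of_stuck hs₁ hBz)
  have hrA := Reach.step _ _ y₁ hA (nxt_of_stuck hs₂ hAx)
  have e1 : G (insert y₁ S) (some y₁) = 1 + G W (some (l₂.getLastD y₂)) := by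
    rw [G_path (hN' ∅) (empty_subset _) hr₁ hl₁, insert_union_toFinset,
      hN _ _ hB y₂ (nxt_of_stuck hs₁ hBz), cost_not (hs₁ y₂ hBz),
      G_path (hN' ∅) (empty_subset _) hrB hBp, insert_union_toFinset]
  have e2 : G (insert y₂ S) (some y₂) = 1 + G W (some (l₁.getLastD y₁)) := by
    rw [G_path (hN' ∅) (empty_subset _) hr₂ hl₂, insert_union_toFinset,
      hN _ _ hA y₁ (nxt_of_stuck hs₂ hAx), cost_not (hs₂ y₁ hAx),
      G_path (hN' ∅) (empty_subset _) hrA hAp, insert_union_toFinset, hcomm]
  have e3 : G W (some (l₁.getLastD y₁)) = G W (some (l₂.getLastD y₂)) := by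
    have h3 := hN S o hr y₁ h₁
    have h4 := hN S o hr y₂ h₂
    have h5 := cost_eq h₁ h₂
    omega
  have hWx : Reach S₀ W (some (l₁.getLastD y₁)) := by
    have := hrA.path hAp
    rwa [insert_union_toFinset, hcomm] at this
  have hWz : Reach S₀ W (some (l₂.getLastD y₂)) := by
    have := hrB.path hBp
    rwa [insert_union_toFinset] at this
  have aux : ∀ t t' : α, Reach S₀ W (some t) → Reach S₀ W (some t') →
      G W (some t) = G W (some t') → Stuck W t → Stuck W t' := by
    intro t t' ht ht' hG hst
    by_contra hn
    unfold Stuck at hn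
    push Not at hn
    obtain ⟨e, he, hte⟩ := hn
    rw [hN W _ ht e (nxt_of_stuck hst he), hN W _ ht' e (nxt_of_lt hte he), cost_lt hte,
      cost_not (hst e he)] at hG
    omega
  exact ⟨aux _ _ hWx hWz e3, aux _ _ hWz hWx e3.symm⟩

end Pool.Agent.Work.MP_02c6ed_co.G24
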