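import Mathlib

/-!
# Greedy posets: the local-global principle (core)

States `(S, o)`: `S` is the set of the placed elements, `o` the last one.
-/

set_option autoImplicit false
set_option linter.unusedSectionVars false

open Finset

namespace Pool.Agent.Work.MP_02c6ed_co.G24

variable {α : Type} [PartialOrder α] [Fintype α] [DecidableEq α]

/-- `y` can be placed next after the set `S`. -/
def Av (S : Finset α) (y : α) : Prop := y ∉ S ∧ ∀ z, z < y → z ∈ S

/-- No available element lies above `x`. -/
def Stuck (S : Finset α) (x : α) : Prop := ∀ y, Av S y → ¬ x < y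

/-- The allowed next elements of the state `(S, o)`. -/
def Nxt (S : Finset α) (o : Option α) (y : α) : Prop :=
  Av S y ∧ ∀ x ∈ o, x < y ∨ Stuck S x

open Classical in
/-- The cost of the step to `y`. -/
noncomputable def cost (o : Option α) (y : α) : ℕ := if ∃ x ∈ o, x < y then 0 else 1

/-- The states which can be reached if the procedure starts after the set `S₀`. -/
inductive Reach (S₀ : Finset α) : Finset α → Option α → Prop
  | nil : Reach S₀ S₀ none
  | step (S : Finset α) (o : Option α) (y : α) : Reach S₀ S o → Nxt S o y →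
      Reach S₀ (insert y S) (some y)

/-- `l` is a chain which continues the state `(S, x)`. -/
def Path : Finset α → α → List α → Prop
  | _, _, [] => True
  | S, x, y :: l => Av S y ∧ x < y ∧ Path (insert y S) y l

/-- The local condition. -/
def LC (S₀ : Finset α) : Prop :=
  ∀ (S : Finset α) (o : Option α), Reach S₀ S o → ∀ (y₁ y₂ : α) (l₁ l₂ : List α),
    Nxt S o y₁ → Nxt S o y₂ → y₁ ≠ y₂ →
    Path (insert y₁ S) y₁ l₁ → Path (insert y₂ S) y₂ l₂ →
    Stuck (insert y₁ S ∪ l₁.toFinset) (l₁.getLastD y₁) →
    Stuck (insert y₂ S ∪ l₂.toFinset) (l₂.getLastD y₂) →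
    (Stuck (insert y₁ S ∪ l₁.toFinset ∪ (insert y₂ S ∪ l₂.toFinset)) (l₁.getLastD y₁) ↔
      Stuck (insert y₁ S ∪ l₁.toFinset ∪ (insert y₂ S ∪ l₂.toFinset)) (l₂.getLastD y₂))

open Classical in
/-- The number of the remaining jumps, for one choice of the next elements. -/
noncomputable def G (S : Finset α) (o : Option α) : ℕ :=
  if h : ∃ y, Nxt S o y then
    cost o (Classical.choose h) + G (insert (Classical.choose h) S) (some (Classical.choose h))
  else 0
termination_by (univ \ S).card
decreasing_by
  have hy := (Classical.choose_spec h).1.1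
  refine Finset.card_lt_card ⟨?_, fun hh => ?_⟩
  · intro z hz
    simp only [mem_sdiff, mem_univ, mem_insert, true_and, not_or] at hz ⊢
    exact hz.2
  · have := hh (mem_sdiff.2 ⟨mem_univ (Classical.choose h), hy⟩)
    simp at this

/-- All choices at the state `(S, o)` are as good as the canonical one. -/
def Nice (S : Finset α) (o : Option α) : Prop :=
  ∀ y, Nxt S o y → G S o = cost o y + G (insert y S) (some y)

/-! ### Basic facts -/

theorem G_eq_zero {S : Finset α} {o : Option α} (h : ¬ ∃ y, Nxt S o y) : G S o = 0 := by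
  rw [G, dif_neg h]

theorem exists_G {S : Finset α} {o : Option α} (h : ∃ y, Nxt S o y) :
    ∃ y, Nxt S o y ∧ G S o = cost o y + G (insert y S) (some y) := by
  refine ⟨Classical.choose h, Classical.choose_spec h, ?_⟩
  rw [G, dif_pos h]

theorem nice_of_eq {S : Finset α} {o : Option α}
    (h : ∀ y₁ y₂, Nxt S o y₁ → Nxt S o y₂ → y₁ ≠ y₂ →
      cost o y₁ + G (insert y₁ S) (some y₁) = cost o y₂ + G (insert y₂ S) (some y₂)) :
    Nice S o := by
  intro y hy
  obtain ⟨z, hz, hG⟩ := exists_G ⟨y, hy⟩
  by_cases hyz : z = y
  · rw [hG, hyz]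
  · rw [hG, h z y hz hy hyz]

theorem cost_none (y : α) : cost none y = 1 := by
  unfold cost
  rw [if_neg]
  rintro ⟨x, hx, _⟩
  simp at hx

theorem cost_lt {x y : α} (h : x < y) : cost (some x) y = 0 := by
  unfold cost
  rw [if_pos ⟨x, rfl, h⟩]

theorem cost_not {x y : α} (h : ¬ x < y) : cost (some x) y = 1 := by
  unfold cost
  rw [if_neg]
  rintro ⟨z, hz, hzy⟩
  simp only [Option.mem_def, Option.some.injEq] at hz
  exact h (hz ▸ hzy)

theorem cost_eq {S : Finset α} {o : Option α} {y₁ y₂ : α} (h₁ : Nxt S o y₁) (h₂ : Nxt S o y₂) :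
    cost o y₁ = cost o y₂ := by
  cases o with
  | none => rw [cost_none, cost_none]
  | some x =>
    by_cases h : Stuck S x
    · rw [cost_not (h y₁ h₁.1), cost_not (h y₂ h₂.1)]
    · rw [cost_lt ((h₁.2 x rfl).resolve_right h), cost_lt ((h₂.2 x rfl).resolve_right h)]

theorem Av.mono {S T : Finset α} {y : α} (h : Av S y) (hST : S ⊆ T) (hy : y ∉ T) : Av T y :=
  ⟨hy, fun z hz => hST (h.2 z hz)⟩

theorem Path.lt {S : Finset α} {x : α} {l : List α} (h : Path S x l) : ∀ y ∈ l, x < y := by
  induction l generalizing S x with
  | nil => simp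
  | cons z l ih =>
    intro y hy
    rcases List.mem_cons.1 hy with rfl | hy
    · exact h.2.1
    · exact h.2.1.trans (ih h.2.2 y hy)

theorem Path.notMem {S : Finset α} {x : α} {l : List α} (h : Path S x l) : ∀ y ∈ l, y ∉ S := by
  induction l generalizing S x with
  | nil => simp
  | cons z l ih =>
    intro y hy
    rcases List.mem_cons.1 hy with rfl | hy
    · exact h.1.1
    · exact fun hh => ih h.2.2 y hy (mem_insert_of_mem hh)

theorem Path.below {S : Finset α} {x : α} {l : List α} (h : Path S x l) :
    ∀ y ∈ l, ∀ z, z < y → z ∈ S ∪ l.toFinset := by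
  induction l generalizing S x with
  | nil => simp
  | cons w l ih =>
    intro y hy z hz
    rcases List.mem_cons.1 hy with rfl | hy
    · exact mem_union_left _ (h.1.2 z hz)
    · have := ih h.2.2 y hy z hz
      simp only [mem_union, mem_insert, List.mem_toFinset, List.mem_cons] at this ⊢
      tauto

theorem Path.mono {S T : Finset α} {x : α} {l : List α} (h : Path S x l) (hST : S ⊆ T)
    (hl : ∀ y ∈ l, y ∉ T) : Path T x l := by
  induction l generalizing S T x with
  | nil => trivial
  | cons z l ih =>
    refine ⟨h.1.mono hST (hl z (by simp)), h.2.1, ih h.2.2 (insert_subset_insert _ hST) ?_⟩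
    intro y hy hyT
    rcases mem_insert.1 hyT with rfl | hyT
    · exact lt_irrefl _ (h.2.2.lt y hy)
    · exact hl y (by simp [hy]) hyT

theorem path_append {S : Finset α} {x : α} {l₁ l₂ : List α} :
    Path S x (l₁ ++ l₂) ↔
      Path S x l₁ ∧ Path (S ∪ l₁.toFinset) (l₁.getLastD x) l₂ := by
  induction l₁ generalizing S x with
  | nil => simp [Path]
  | cons y l ih =>
    simp only [List.cons_append, Path, ih, List.getLastD_cons]
    have : insert y S ∪ l.toFinset = S ∪ (y :: l).toFinset := by
      ext z; simp only [mem_union, mem_insert, List.mem_toFinset, List.mem_cons]; tauto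
    rw [this]
    tauto

theorem getLastD_append (l₁ l₂ : List α) (x : α) :
    (l₁ ++ l₂).getLastD x = l₂.getLastD (l₁.getLastD x) := by
  induction l₁ generalizing x with
  | nil => simp
  | cons y l ih => rw [List.cons_append, List.getLastD_cons, List.getLastD_cons, ih]

/-- Every state has a maximal continuation. -/
theorem exists_path (S : Finset α) (x : α) :
    ∃ l : List α, Path S x l ∧ Stuck (S ∪ l.toFinset) (l.getLastD x) := by
  by_cases h : Stuck S x
  · exact ⟨[], trivial, by simpa using h⟩
  · unfold Stuck at h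
    push Not at h
    obtain ⟨y, hy, hxy⟩ := h
    have hlt : (univ \ insert y S).card < (univ \ S).card := by
      refine Finset.card_lt_card ⟨?_, fun hh => ?_⟩
      · intro z hz
        simp only [mem_sdiff, mem_univ, mem_insert, true_and, not_or] at hz ⊢
        exact hz.2
      · have := hh (mem_sdiff.2 ⟨mem_univ y, hy.1⟩)
        simp at this
    obtain ⟨l, hl, hst⟩ := exists_path (insert y S) y
    refine ⟨y :: l, ⟨hy, hxy, hl⟩, ?_⟩
    rw [List.getLastD_cons]
    have : insert y S ∪ l.toFinset = S ∪ (y :: l).toFinset := by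
      ext z; simp only [mem_union, mem_insert, List.mem_toFinset, List.mem_cons]; tauto
    rwa [this] at hst
termination_by (univ \ S).card

theorem Reach.path {S₀ S : Finset α} {x : α} {l : List α} (h : Reach S₀ S (some x))
    (hl : Path S x l) : Reach S₀ (S ∪ l.toFinset) (some (l.getLastD x)) := by
  induction l generalizing S x with
  | nil => simpa using h
  | cons y l ih =>
    have h1 : Reach S₀ (insert y S) (some y) :=
      Reach.step S (some x) y h ⟨hl.1, fun z hz => by
        simp only [Option.mem_def, Option.some.injEq] at hz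
        exact Or.inl (hz ▸ hl.2.1)⟩
    have h2 := ih h1 hl.2.2
    rw [List.getLastD_cons]
    have : insert y S ∪ l.toFinset = S ∪ (y :: l).toFinset := by
      ext z; simp only [mem_union, mem_insert, List.mem_toFinset, List.mem_cons]; tauto
    rwa [this] at h2

theorem G_path {S₀ W S : Finset α} {x : α} {l : List α}
    (hN : ∀ (S' : Finset α) (o' : Option α), Reach S₀ S' o' → W ⊆ S' → Nice S' o')
    (hW : W ⊆ S) (h : Reach S₀ S (some x)) (hl : Path S x l) :
    G S (some x) = G (S ∪ l.toFinset) (some (l.getLastD x)) := by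
  induction l generalizing S x with
  | nil => simp
  | cons y l ih =>
    have hn : Nxt S (some x) y := ⟨hl.1, fun z hz => by
        simp only [Option.mem_def, Option.some.injEq] at hz
        exact Or.inl (hz ▸ hl.2.1)⟩
    have h1 : Reach S₀ (insert y S) (some y) := Reach.step S (some x) y h hn
    rw [hN S (some x) h hW y hn, cost_lt hl.2.1, zero_add,
      ih (hW.trans (subset_insert _ _)) h1 hl.2.2, List.getLastD_cons]
    have : insert y S ∪ l.toFinset = S ∪ (y :: l).toFinset := by
      ext z; simp only [mem_union, mem_insert, List.mem_toFinset, List.mem_cons]; tauto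
    rw [this]

end Pool.Agent.Work.MP_02c6ed_co.G24
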