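import Pool.Agent.Work.MP_02c6ed_co.G24.Balanced

/-!
# Posets all of whose up-sets are greedy: the elimination condition
-/

set_option autoImplicit false
set_option linter.unusedSectionVars false

open Finset

namespace Pool.Agent.Work.MP_02c6ed_co.G24

variable {α : Type} [PartialOrder α] [Fintype α] [DecidableEq α]

/-- The elimination condition: if `c` covers `a` and `b`, `d` covers `b`, but `a` is not below
`d`, then there is a cover `z` of `a`, not above `b`, such that everything below `z` is below `c`
or below `d`. -/
def Elim (α : Type) [PartialOrder α] : Prop :=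
  ∀ a b c d : α, a ⋖ c → b ⋖ c → b ⋖ d → ¬ a < d →
    ∃ z, a ⋖ z ∧ ¬ b < z ∧ ∀ w, w < z → w < c ∨ w < d

/-- Consecutive elements of a path. -/
theorem path_split {S : Finset α} {y : α} {l : List α} (hy : Av S y)
    (hl : Path (insert y S) y l) {l₁ l₂ : List α} {u : α} (h : y :: l = l₁ ++ u :: l₂) :
    Av (S ∪ l₁.toFinset) u ∧ Path (insert u (S ∪ l₁.toFinset)) u l₂ ∧
      l₂.getLastD u = l.getLastD y := by
  cases l₁ with
  | nil =>
    simp only [List.nil_append, List.cons.injEq] at h
    obtain ⟨rfl, rfl⟩ := h
    simpa using ⟨hy, hl⟩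
  | cons c l₁ =>
    simp only [List.cons_append, List.cons.injEq] at h
    obtain ⟨rfl, rfl⟩ := h
    rw [path_append] at hl
    obtain ⟨_, h2⟩ := hl
    rw [insert_union_toFinset] at h2
    refine ⟨h2.1, h2.2.2, ?_⟩
    rw [getLastD_append, List.getLastD_cons]

theorem elim_step (hE : Elim α) {S : Finset α} (hS : Down S) {y₁ y₂ : α} {l₁ l₂ : List α}
    (h₁ : Av S y₁) (h₂ : Av S y₂) (hne : y₁ ≠ y₂) (hp₁ : Path (insert y₁ S) y₁ l₁)
    (hp₂ : Path (insert y₂ S) y₂ l₂)
    (hs₁ : Stuck (S ∪ (y₁ :: l₁).toFinset) (l₁.getLastD y₁)) (W : Finset α)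
    (hW : W = S ∪ (y₁ :: l₁).toFinset ∪ (y₂ :: l₂).toFinset)
    (hs₂ : Stuck W (l₂.getLastD y₂)) : Stuck W (l₁.getLastD y₁) := by
  classical
  have hD1 : Down (S ∪ (y₁ :: l₁).toFinset) := down_union hS h₁ hp₁
  have hD2 : Down (S ∪ (y₂ :: l₂).toFinset) := down_union hS h₂ hp₂
  -- the chains are disjoint
  have hdis : ∀ w ∈ y₁ :: l₁, w ∉ S ∪ (y₂ :: l₂).toFinset := by
    intro w hw hw'
    have h3 : y₁ ∉ S ∪ (y₂ :: l₂).toFinset := disjoint_paths h₁ h₂ hne hp₂
    rcases List.mem_cons.1 hw with rfl | hw
    · exact h3 hw'
    · exact h3 (hD2 w hw' y₁ (hp₁.lt w hw))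
  have hdis' : ∀ w ∈ y₂ :: l₂, w ∉ S ∪ (y₁ :: l₁).toFinset := by
    intro w hw hw'
    rcases mem_union.1 hw' with h | h
    · rcases List.mem_cons.1 hw with rfl | hw
      · exact h₂.1 h
      · exact hp₂.notMem w hw (mem_insert_of_mem h)
    · rw [List.mem_toFinset] at h
      exact hdis w h (mem_union_right _ (by rw [List.mem_toFinset]; exact hw))
  set t := l₁.getLastD y₁ with ht
  have htm : t ∈ y₁ :: l₁ := getLastD_mem l₁ y₁
  have ht2 : t ∉ S ∪ (y₂ :: l₂).toFinset := hdis t htm
  have htS : t ∉ S := fun h => ht2 (mem_union_left _ h)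
  have main : ∀ (n : ℕ) (e : α), ((y₂ :: l₂).toFinset.filter (· < e)).card ≤ n → Av W e →
      t < e → False := by
    intro n
    induction n with
    | zero =>
      intro e hn he hte
      refine hs₁ e ⟨?_, ?_⟩ hte
      · intro h
        exact he.1 (hW ▸ mem_union_left _ h)
      · intro z hz
        have := he.2 z hz
        rw [hW] at this
        rcases mem_union.1 this with h | h
        · exact h
        · exfalso
          have h5 : z ∈ (y₂ :: l₂).toFinset.filter (· < e) := mem_filter.2 ⟨h, hz⟩
          rw [Nat.le_zero, Finset.card_eq_zero] at hn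
          rw [hn] at h5
          exact notMem_empty _ h5
    | succ n ih =>
      intro e hn he hte
      -- the last element of the second chain below `e`
      have hex : ∃ w ∈ y₂ :: l₂, w < e := by
        by_contra hno
        push Not at hno
        refine hs₁ e ⟨fun h => he.1 (hW ▸ mem_union_left _ h), fun z hz => ?_⟩ hte
        have := he.2 z hz
        rw [hW] at this
        rcases mem_union.1 this with h | h
        · exact h
        · rw [List.mem_toFinset] at h
          exact absurd hz (hno z h)
      obtain ⟨p, b, q, hs, hb, hq⟩ := exists_split (· < e) _ hex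
      obtain ⟨g1, g2, g3⟩ := path_split h₂ hp₂ hs
      cases q with
      | nil =>
        rw [List.getLastD_nil] at g3
        rw [← g3] at hs₂
        exact hs₂ e he hb
      | cons d q =>
        have hbd : b < d := g2.2.1
        have hpS : Down (S ∪ p.toFinset) := by
          cases p with
          | nil => simpa using hS
          | cons y₃ p =>
            simp only [List.cons_append, List.cons.injEq] at hs
            obtain ⟨rfl, hs⟩ := hs
            rw [hs, path_append] at hp₂
            exact down_union hS h₂ hp₂.1
        have hmem2 : ∀ w, w ∈ (y₂ :: l₂).toFinset ↔ (w ∈ p ∨ w = b ∨ w = d ∨ w ∈ q) := by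
          intro w
          rw [hs, List.mem_toFinset]
          simp only [List.mem_append, List.mem_cons]
        have hb2 : b ∈ y₂ :: l₂ := by rw [hs]; simp
        have hd2 : d ∈ y₂ :: l₂ := by rw [hs]; simp
        have hbS : b ∉ S ∪ (y₁ :: l₁).toFinset := hdis' b hb2
        -- `b ⋖ d`
        have c1 : b ⋖ d := by
          refine ⟨hbd, fun w hbw hwd => ?_⟩
          have := g2.1.2 w hwd
          rcases mem_insert.1 this with rfl | h
          · exact lt_irrefl _ hbw
          · exact g1.1 (hpS w h b hbw)
        -- `b ⋖ e`
        have c2 : b ⋖ e := by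
          refine ⟨hb, fun w hbw hwe => ?_⟩
          have := he.2 w hwe
          rw [hW] at this
          rcases mem_union.1 this with h | h
          · exact hbS (hD1 w h b hbw)
          · rw [hmem2] at h
            rcases h with h | rfl | h
            · exact g1.1 (hpS w (mem_union_right _ (by simpa using h)) b hbw)
            · exact lt_irrefl _ hbw
            · exact hq w (by simpa using h) hwe
        -- `t ⋖ e`
        have c3 : t ⋖ e := by
          refine ⟨hte, fun w htw hwe => ?_⟩
          have := he.2 w hwe
          rw [hW] at this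
          rcases mem_union.1 this with h | h
          · rcases mem_union.1 h with h | h
            · exact htS (hS w h t htw)
            · rw [List.mem_toFinset] at h
              exact absurd htw (not_lt_of_ge (hp₁.le_last w h))
          · exact ht2 (hD2 w (mem_union_right _ h) t htw)
        have c4 : ¬ t < d := fun h =>
          ht2 (hD2 d (mem_union_right _ (by rw [List.mem_toFinset]; exact hd2)) t h)
        obtain ⟨z, z1, z2, z3⟩ := hE t b e d c3 c2 c1 c4
        have hpW : ∀ w, w ∈ insert b (S ∪ p.toFinset) → w ∈ W := by
          intro w hw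
          rw [hW]
          simp only [mem_insert, mem_union, List.mem_toFinset] at hw
          rcases hw with rfl | h | h
          · exact mem_union_right _ (by rw [List.mem_toFinset]; exact hb2)
          · exact mem_union_left _ (mem_union_left _ h)
          · exact mem_union_right _ ((hmem2 w).2 (Or.inl h))
        have hzW : z ∉ W := by
          rw [hW]
          intro h
          rcases mem_union.1 h with h | h
          · rcases mem_union.1 h with h | h
            · exact htS (hS z h t z1.lt)
            · rw [List.mem_toFinset] at h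
              exact absurd z1.lt (not_lt_of_ge (hp₁.le_last z h))
          · exact ht2 (hD2 z (mem_union_right _ h) t z1.lt)
        have hav : Av W z := by
          refine ⟨hzW, fun w hw => ?_⟩
          rcases z3 w hw with h | h
          · exact he.2 w h
          · exact hpW w (g2.1.2 w h)
        refine ih z ?_ hav z1.lt
        -- fewer elements below `z`
        have hss : (y₂ :: l₂).toFinset.filter (· < z) ⊂ (y₂ :: l₂).toFinset.filter (· < e) := by
          refine ⟨fun w hw => ?_, fun hh => ?_⟩
          · rw [mem_filter] at hw ⊢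
            refine ⟨hw.1, ?_⟩
            rcases z3 w hw.2 with h | h
            · exact h
            · have h6 := g2.1.2 w h
              rcases mem_insert.1 h6 with rfl | h6
              · exact hb
              · have h7 : w ∈ p := by
                  rcases mem_union.1 h6 with h8 | h8
                  · exact absurd (mem_union_left _ h8) (hdis' w (by
                      rw [← List.mem_toFinset]; exact hw.1))
                  · simpa using h8
                -- elements of `p` are below `b`
                have h8 : w ≤ b := by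
                  cases p with
                  | nil => simp at h7
                  | cons y₃ p =>
                    simp only [List.cons_append, List.cons.injEq] at hs
                    obtain ⟨rfl, hs⟩ := hs
                    have hP := hp₂
                    rw [hs, path_append] at hP
                    exact (hP.1.le_last w h7).trans hP.2.2.1.le
                exact h8.trans_lt hb
          · have h6 : b ∈ (y₂ :: l₂).toFinset.filter (· < e) :=
              mem_filter.2 ⟨by rw [List.mem_toFinset]; exact hb2, hb⟩
            exact z2 (mem_filter.1 (hh h6)).2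
        have := Finset.card_lt_card hss
        omega
  intro e he hte
  exact main _ e le_rfl he hte

/-- The elimination condition implies the local condition in every up-set. -/
theorem LC_of_elim (hE : Elim α) {S₀ : Finset α} (h₀ : Down S₀) : LC S₀ := by
  intro S o hr y₁ y₂ l₁ l₂ h₁ h₂ hne hp₁ hp₂ hs₁ hs₂
  have hS : Down S := Reach.down h₀ hr
  rw [insert_union_toFinset] at hs₁ hs₂ ⊢
  rw [insert_union_toFinset]
  have e1 : S ∪ (y₁ :: l₁).toFinset ∪ (S ∪ (y₂ :: l₂).toFinset) =
      S ∪ (y₁ :: l₁).toFinset ∪ (y₂ :: l₂).toFinset := by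
    ext w; simp only [mem_union]; tauto
  have e2 : S ∪ (y₁ :: l₁).toFinset ∪ (S ∪ (y₂ :: l₂).toFinset) =
      S ∪ (y₂ :: l₂).toFinset ∪ (y₁ :: l₁).toFinset := by
    ext w; simp only [mem_union]; tauto
  constructor
  · intro h
    exact elim_step hE hS h₂.1 h₁.1 hne.symm hp₂ hp₁ hs₂ _ e2 h
  · intro h
    exact elim_step hE hS h₁.1 h₂.1 hne hp₁ hp₂ hs₁ _ e1 h

/-- The number of chains changes by the number of the first elements which cannot be
continued. -/
theorem G_insert (hLC : ∀ S : Finset α, Down S → LC S) {S : Finset α} (hS : Down S) {x : α}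
    (hx : Av S x) :
    (Stuck (insert x S) x → G S none = G (insert x S) none + 1) ∧
    (¬ Stuck (insert x S) x → G S none = G (insert x S) none) := by
  have hS' := hS.insert hx
  have hN := nice_of_LC hS (hLC S hS)
  have hN' := nice_of_LC hS' (hLC _ hS')
  have h1 : G S none = 1 + G (insert x S) (some x) := by
    rw [hN S none Reach.nil x ⟨hx, by simp⟩, cost_none]
  have hr : Reach S (insert x S) (some x) := Reach.step S none x Reach.nil ⟨hx, by simp⟩
  constructor
  · intro hst
    have h2 : G (insert x S) (some x) = G (insert x S) none := by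
      by_cases hex : ∃ y, Av (insert x S) y
      · obtain ⟨y, hy⟩ := hex
        rw [hN _ _ hr y (nxt_of_stuck hst hy), hN' _ none Reach.nil y ⟨hy, by simp⟩,
          cost_none, cost_not (hst y hy)]
      · rw [G_eq_zero, G_eq_zero]
        · rintro ⟨y, hy⟩
          exact hex ⟨y, hy.1⟩
        · rintro ⟨y, hy⟩
          exact hex ⟨y, hy.1⟩
    omega
  · intro hst
    unfold Stuck at hst
    push Not at hst
    obtain ⟨e, he, hxe⟩ := hst
    have h2 : G (insert x S) (some x) = 0 + G (insert e (insert x S)) (some e) := by
      rw [hN _ _ hr e (nxt_of_lt hxe he), cost_lt hxe]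
    have h3 : G (insert x S) none = 1 + G (insert e (insert x S)) (some e) := by
      rw [hN' _ none Reach.nil e ⟨he, by simp⟩, cost_none]
    omega

/-- A rank function on the down-sets: it grows by one exactly if the new element cannot be
continued. -/
def IsRank (r : Finset α → ℤ) : Prop :=
  ∀ S : Finset α, Down S → ∀ x, Av S x →
    (Stuck (insert x S) x → r (insert x S) = r S + 1) ∧
    (¬ Stuck (insert x S) x → r (insert x S) = r S)

theorem elim_of_rank {r : Finset α → ℤ} (hr : IsRank r) : Elim α := by
  classical
  intro a b c d hac hbc hbd had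
  by_contra hno
  push Not at hno
  set D : Finset α := univ.filter (fun w => (w < c ∨ w < d) ∧ w ≠ a ∧ w ≠ b) with hD
  have hmD : ∀ w, w ∈ D ↔ ((w < c ∨ w < d) ∧ w ≠ a ∧ w ≠ b) := by
    intro w; rw [hD]; simp
  have hDd : Down D := by
    intro w hw v hv
    rw [hmD] at hw ⊢
    refine ⟨hw.1.imp (hv.trans) (hv.trans), ?_, ?_⟩
    · rintro rfl
      rcases hw.1 with h | h
      · exact hac.2 hv h
      · exact had (hv.trans h)
    · rintro rfl
      rcases hw.1 with h | h
      · exact hbc.2 hv h
      · exact hbd.2 hv h
  have hab : a ≠ b := by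
    rintro rfl
    exact had hbd.lt
  have haD : a ∉ D := fun h => ((hmD a).1 h).2.1 rfl
  have hbD : b ∉ D := fun h => ((hmD b).1 h).2.2 rfl
  have hAa : Av D a := by
    refine ⟨haD, fun w hw => (hmD w).2 ⟨Or.inl (hw.trans hac.lt), hw.ne, ?_⟩⟩
    rintro rfl
    exact hbc.2 hw hac.lt
  have hAb : Av D b := by
    refine ⟨hbD, fun w hw => (hmD w).2 ⟨Or.inl (hw.trans hbc.lt), ?_, hw.ne⟩⟩
    rintro rfl
    exact hac.2 hw hbc.lt
  have hAb' : Av (insert a D) b := hAb.mono (subset_insert _ _) (by
    rw [mem_insert, not_or]; exact ⟨hab.symm, hbD⟩)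
  have hAa' : Av (insert b D) a := hAa.mono (subset_insert _ _) (by
    rw [mem_insert, not_or]; exact ⟨hab, haD⟩)
  -- `a` cannot be continued
  have s1 : Stuck (insert a D) a := by
    intro z hz haz
    have hbz : ¬ b < z := by
      intro h
      have := hz.2 b h
      rcases mem_insert.1 this with h' | h'
      · exact hab h'.symm
      · exact hbD h'
    have hcov : a ⋖ z := by
      refine ⟨haz, fun v hav hvz => ?_⟩
      have := hz.2 v hvz
      rcases mem_insert.1 this with rfl | h'
      · exact lt_irrefl _ hav
      · exact haD (hDd v h' a hav)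
    obtain ⟨w, hw, h1, h2⟩ := hno z hcov hbz
    have := hz.2 w hw
    rcases mem_insert.1 this with rfl | h'
    · exact h1 hac.lt
    · rcases ((hmD w).1 h').1 with h | h
      · exact h1 h
      · exact h2 h
  -- `b` can be continued by `d`
  have s2 : ¬ Stuck (insert b D) b := by
    intro h
    refine h d ⟨?_, fun w hw => ?_⟩ hbd.lt
    · intro h'
      rcases mem_insert.1 h' with h' | h'
      · exact hbd.lt.ne h'.symm
      · rcases ((hmD d).1 h').1 with h'' | h''
        · exact hbc.2 hbd.lt h''
        · exact lt_irrefl _ h''
    · by_cases hwb : w = b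
      · rw [hwb]; exact mem_insert_self _ _
      · refine mem_insert_of_mem ((hmD w).2 ⟨Or.inr hw, ?_, hwb⟩)
        rintro rfl
        exact had hw
  -- `a` can be continued by `c` after `b`
  have s3 : ¬ Stuck (insert a (insert b D)) a := by
    intro h
    refine h c ⟨?_, fun w hw => ?_⟩ hac.lt
    · intro h'
      rcases mem_insert.1 h' with h' | h'
      · exact hac.lt.ne h'.symm
      · rcases mem_insert.1 h' with h' | h'
        · exact hbc.lt.ne h'.symm
        · rcases ((hmD c).1 h').1 with h'' | h''
          · exact lt_irrefl _ h''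
          · exact had (hac.lt.trans h'')
    · by_cases hwa : w = a
      · rw [hwa]; exact mem_insert_self _ _
      · by_cases hwb : w = b
        · rw [hwb]; exact mem_insert_of_mem (mem_insert_self _ _)
        · exact mem_insert_of_mem (mem_insert_of_mem ((hmD w).2 ⟨Or.inl hw, hwa, hwb⟩))
  have g1 := (hr D hDd a hAa).1 s1
  have g2 := hr _ (hDd.insert hAa) b hAb'
  have g3 := (hr D hDd b hAb).2 s2
  have g4 := (hr _ (hDd.insert hAb) a hAa').2 s3
  rw [Finset.insert_comm] at g4
  by_cases hs : Stuck (insert b (insert a D)) b
  · have := g2.1 hs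
    omega
  · have := g2.2 hs
    omega

theorem isRank_G (hLC : ∀ S : Finset α, Down S → LC S) :
    IsRank (fun S : Finset α => -(G S none : ℤ)) := by
  intro S hS x hx
  have h := G_insert hLC hS hx
  refine ⟨fun hs => ?_, fun hs => ?_⟩
  · have := h.1 hs
    simp only
    omega
  · have := h.2 hs
    simp only
    omega

theorem elim_of_LC (hLC : ∀ S : Finset α, Down S → LC S) : Elim α :=
  elim_of_rank (isRank_G hLC)

/-- **All up-sets are greedy iff the elimination condition holds.** -/
theorem all_greedy_iff_elim :
    (∀ S : Finset α, Down S → Greedy (univ \ S)) ↔ Elim α := by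
  constructor
  · intro h
    exact elim_of_LC (fun S hS => (greedy_iff_LC hS).1 (h S hS))
  · intro h S hS
    exact (greedy_iff_LC hS).2 (LC_of_elim h hS)

/-- **All up-sets are greedy iff there is a rank function on the down-sets.** -/
theorem all_greedy_iff_rank :
    (∀ S : Finset α, Down S → Greedy (univ \ S)) ↔ ∃ r : Finset α → ℤ, IsRank r := by
  constructor
  · intro h
    exact ⟨_, isRank_G (fun S hS => (greedy_iff_LC hS).1 (h S hS))⟩
  · rintro ⟨r, hr⟩
    exact all_greedy_iff_elim.2 (elim_of_rank hr)

end Pool.Agent.Work.MP_02c6ed_co.G24
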