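import Pool.Agent.Work.MP_02c6ed_co.G24.Elim

/-!
# Greedy posets of height at most 2
-/

set_option autoImplicit false
set_option linter.unusedSectionVars false

open Finset

namespace Pool.Agent.Work.MP_02c6ed_co.G24

variable {α : Type} [PartialOrder α] [Fintype α] [DecidableEq α]

/-- The elements all of whose minimal elements are in `D`. -/
def Hull (D : Finset α) (w : α) : Prop := ∀ m : α, (∀ v, ¬ v < m) → m ≤ w → m ∈ D

theorem exists_min_le (w : α) : ∃ m : α, (∀ v, ¬ v < m) ∧ m ≤ w := by
  classical
  have hne : (univ.filter (fun v : α => v ≤ w)).Nonempty := ⟨w, by simp⟩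
  obtain ⟨m, hm⟩ := Finset.exists_minimal hne
  have hmw : m ≤ w := by simpa using hm.1
  refine ⟨m, fun v hv => ?_, hmw⟩
  have := hm.2 (by simpa using hv.le.trans hmw) hv.le
  exact absurd hv (not_lt_of_ge this)

/-- The hull of a set of minimal elements is reached by the procedure. -/
theorem reach_hull (D : Finset α) : ∀ (n : ℕ) (S : Finset α) (o : Option α),
    (univ \ S).card ≤ n → Reach ∅ S o → (∀ w ∈ S, Hull D w) →
    ∃ (T : Finset α) (o' : Option α), Reach ∅ T o' ∧ (∀ w, w ∈ T ↔ Hull D w) ∧
      ∀ x ∈ o', Stuck T x := by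
  classical
  have hdown : Down (∅ : Finset α) := by
    intro w hw
    simp at hw
  have hup : ∀ (S : Finset α), (∀ w ∈ S, Hull D w) → ∀ x ∈ S, ∀ y, Av S y → x < y → Hull D y := by
    intro S hS x hx y hy hxy m hm hmy
    rcases hmy.lt_or_eq with h | rfl
    · exact hS m (hy.2 m h) m hm le_rfl
    · exact absurd hxy (hm x)
  have hmem : ∀ (S : Finset α) (o : Option α), Reach ∅ S o → ∀ x ∈ o, x ∈ S := by
    intro S o h x hx
    cases h with
    | nil => simp at hx
    | step S o y _ _ =>
      simp only [Option.mem_def, Option.some.injEq] at hx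
      rw [← hx]
      exact mem_insert_self _ _
  intro n
  induction n with
  | zero =>
    intro S o hn hr hS
    have hS' : S = univ := by
      rw [Nat.le_zero, Finset.card_eq_zero, Finset.sdiff_eq_empty_iff_subset] at hn
      exact Finset.univ_subset_iff.1 hn
    refine ⟨S, o, hr, fun w => ⟨hS w, fun _ => hS' ▸ mem_univ w⟩, fun x _ y hy => ?_⟩
    exact absurd (hS' ▸ mem_univ y) hy.1
  | succ n ih =>
    intro S o hn hr hS
    have hstep : ∀ y, Nxt S o y → Hull D y →
        ∃ (T : Finset α) (o' : Option α), Reach ∅ T o' ∧ (∀ w, w ∈ T ↔ Hull D w) ∧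
          ∀ x ∈ o', Stuck T x := by
      intro y hy hH
      refine ih (insert y S) (some y) ?_ (Reach.step S o y hr hy) ?_
      · have : (univ \ insert y S).card < (univ \ S).card := by
          refine Finset.card_lt_card ⟨?_, fun hh => ?_⟩
          · intro w hw
            simp only [mem_sdiff, mem_univ, mem_insert, true_and, not_or] at hw ⊢
            exact hw.2
          · have := hh (mem_sdiff.2 ⟨mem_univ y, hy.1.1⟩)
            simp at this
        omega
      · intro w hw
        rcases mem_insert.1 hw with rfl | hw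
        · exact hH
        · exact hS w hw
    by_cases hst : ∀ x ∈ o, Stuck S x
    · by_cases hex : ∃ w, Hull D w ∧ w ∉ S
      · have hne : (univ.filter (fun w => Hull D w ∧ w ∉ S)).Nonempty := by
          obtain ⟨w, hw⟩ := hex
          exact ⟨w, by simpa using hw⟩
        obtain ⟨m, hm⟩ := Finset.exists_minimal hne
        have hm1 : Hull D m ∧ m ∉ S := by simpa using hm.1
        refine hstep m ⟨⟨hm1.2, fun z hz => ?_⟩, fun x hx => Or.inr (hst x hx)⟩ hm1.1
        by_contra hzS
        have hz' : Hull D z := fun v hv hvz => hm1.1 v hv (hvz.trans hz.le)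
        have := hm.2 (by simpa using ⟨hz', hzS⟩) hz.le
        exact absurd hz (not_lt_of_ge this)
      · push Not at hex
        exact ⟨S, o, hr, fun w => ⟨hS w, hex w⟩, hst⟩
    · push Not at hst
      obtain ⟨x, hx, hsx⟩ := hst
      unfold Stuck at hsx
      push Not at hsx
      obtain ⟨y, hy, hxy⟩ := hsx
      refine hstep y ⟨hy, fun x' hx' => ?_⟩ (hup S hS x (hmem S o hr x hx) y hy hxy)
      rw [Option.mem_def] at hx hx'
      rw [hx, Option.some.injEq] at hx'
      exact Or.inl (hx' ▸ hxy)

/-- **Height at most 2**: greedy iff the elimination condition holds. -/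
theorem greedy_iff_elim (h2 : ∀ x y z : α, x < y → ¬ y < z) :
    Greedy (univ : Finset α) ↔ Elim α := by
  classical
  have hdown : Down (∅ : Finset α) := by
    intro w hw
    simp at hw
  constructor
  · intro hG
    have hLC : LC (∅ : Finset α) := by
      rw [← greedy_iff_LC hdown, sdiff_empty]
      exact hG
    intro a b c d hac hbc hbd had
    by_contra hno
    push Not at hno
    have hcov : ∀ x y : α, x < y → x ⋖ y := fun x y h => ⟨h, fun v hv => h2 x v y hv⟩
    have hmin : ∀ x y : α, x < y → ∀ v, ¬ v < x := fun x y h v hv => h2 v x y hv h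
    set D : Finset α := univ.filter (fun w => (w < c ∨ w < d) ∧ w ≠ a ∧ w ≠ b) with hD
    have hmD : ∀ w, w ∈ D ↔ ((w < c ∨ w < d) ∧ w ≠ a ∧ w ≠ b) := by
      intro w; rw [hD]; simp
    obtain ⟨T, o, hr, hT, hst⟩ := reach_hull D _ ∅ none le_rfl Reach.nil (by simp)
    have hab : a ≠ b := by
      rintro rfl
      exact had hbd.lt
    have hcd : c ≠ d := by
      rintro rfl
      exact had hac.lt
    have ha0 := hmin a c hac.lt
    have hb0 := hmin b c hbc.lt
    have haT : a ∉ T := fun h => ((hmD a).1 ((hT a).1 h a ha0 le_rfl)).2.1 rfl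
    have hbT : b ∉ T := fun h => ((hmD b).1 ((hT b).1 h b hb0 le_rfl)).2.2 rfl
    have hcT : c ∉ T := fun h => ((hmD a).1 ((hT c).1 h a ha0 hac.le)).2.1 rfl
    have hdT : d ∉ T := fun h => ((hmD b).1 ((hT d).1 h b hb0 hbd.le)).2.2 rfl
    have hDT : ∀ w ∈ D, w ∈ T := by
      intro w hw
      rw [hT]
      intro m hm hmw
      rcases hmw.lt_or_eq with h | rfl
      · exfalso
        rcases ((hmD w).1 hw).1 with h' | h'
        · exact h2 m w c h h'
        · exact h2 m w d h h'
      · exact hw
    have hAa : Av T a := ⟨haT, fun w hw => absurd hw (ha0 w)⟩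
    have hAb : Av T b := ⟨hbT, fun w hw => absurd hw (hb0 w)⟩
    have hbel : ∀ w, w < d → w ∈ insert b T := by
      intro w hw
      by_cases hwb : w = b
      · rw [hwb]; exact mem_insert_self _ _
      · refine mem_insert_of_mem (hDT w ((hmD w).2 ⟨Or.inr hw, ?_, hwb⟩))
        rintro rfl
        exact had hw
    have hAd : Av (insert b T) d := by
      refine ⟨?_, hbel⟩
      rw [mem_insert, not_or]
      exact ⟨hbd.lt.ne', hdT⟩
    have hdmax : ∀ y, ¬ d < y := fun y => h2 b d y hbd.lt
    have sa : Stuck (insert a T) a := by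
      intro z hz haz
      have hbz : ¬ b < z := by
        intro h
        have := hz.2 b h
        rcases mem_insert.1 this with h' | h'
        · exact hab h'.symm
        · exact hbT h'
      obtain ⟨w, hw, h3, h4⟩ := hno z (hcov a z haz) hbz
      have := hz.2 w hw
      rcases mem_insert.1 this with rfl | h'
      · exact h3 hac.lt
      · have hwD := (hT w).1 h' w (hmin w z hw) le_rfl
        rcases ((hmD w).1 hwD).1 with h | h
        · exact h3 h
        · exact h4 h
    have hl := hLC T o hr a b [] [d] ⟨hAa, fun x hx => Or.inr (hst x hx)⟩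
      ⟨hAb, fun x hx => Or.inr (hst x hx)⟩ hab trivial ⟨hAd, hbd.lt, trivial⟩
      (by simpa using sa) (fun y _ hy => hdmax y (by simpa using hy))
    simp only [List.toFinset_nil, List.getLastD_nil, List.toFinset_cons, List.getLastD_cons] at hl
    have h5 := hl.2 (fun y _ hy => hdmax y hy)
    refine h5 c ⟨?_, fun w hw => ?_⟩ hac.lt
    · simp only [mem_union, mem_insert, notMem_empty, or_false, not_or]
      exact ⟨⟨hac.lt.ne', hcT⟩, ⟨hbc.lt.ne', hcT⟩, hcd⟩
    · by_cases hwa : w = a
      · rw [hwa]; simp
      · by_cases hwb : w = b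
        · rw [hwb]; simp
        · have := hDT w ((hmD w).2 ⟨Or.inl hw, hwa, hwb⟩)
          simp only [mem_union, mem_insert]
          exact Or.inl (Or.inl (Or.inr this))
  · intro hE
    have := (all_greedy_iff_elim (α := α)).2 hE ∅ hdown
    rwa [sdiff_empty] at this

end Pool.Agent.Work.MP_02c6ed_co.G24
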