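import Pool.Agent.Work.MP_02c6ed_co.G24.Runs

/-!
# The outputs of the greedy procedure form an interval
-/

set_option autoImplicit false
set_option linter.unusedSectionVars false

open Finset

namespace Pool.Agent.Work.MP_02c6ed_co.G24

variable {α : Type} [PartialOrder α] [Fintype α] [DecidableEq α]

/-- `n` chains begin after the state `(S, o)` in some greedy completion. -/
def Out (S : Finset α) (o : Option α) (n : ℕ) : Prop := ∃ L, GComp S o L ∧ jf o L = n

theorem card_insert_lt {S : Finset α} {y : α} (hy : y ∉ S) :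
    (univ \ insert y S).card < (univ \ S).card := by
  refine Finset.card_lt_card ⟨?_, fun hh => ?_⟩
  · intro w hw
    simp only [mem_sdiff, mem_univ, mem_insert, true_and, not_or] at hw ⊢
    exact hw.2
  · have := hh (mem_sdiff.2 ⟨mem_univ y, hy⟩)
    simp at this

theorem paths_disjoint {S : Finset α} {a b : α} {la lb : List α} (ha : Av S a) (hb : Av S b)
    (hab : a ≠ b) (hla : Path (insert a S) a la) (hlb : Path (insert b S) b lb) :
    ∀ w ∈ a :: la, w ∉ S ∪ (b :: lb).toFinset := by
  have hb' : a ∉ S ∪ (b :: lb).toFinset := by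
    intro h
    rcases mem_union.1 h with h | h
    · exact ha.1 h
    · rw [List.mem_toFinset] at h
      rcases List.mem_cons.1 h with h | h
      · exact hab h
      · exact hb.1 (ha.2 b (hlb.lt a h))
  intro w hw h
  rcases List.mem_cons.1 hw with rfl | hw
  · exact hb' h
  · have hlt := hla.lt w hw
    rcases mem_union.1 h with h | h
    · exact hla.notMem w hw (mem_insert_of_mem h)
    · rw [List.mem_toFinset] at h
      rcases List.mem_cons.1 h with h | h
      · subst h
        exact ha.1 (hb.2 a hlt)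
      · have := hlb.below w h a hlt
        rw [insert_union_toFinset] at this
        exact hb' this

/-- Two disjoint chains placed one after the other. -/
theorem out_two {S : Finset α} {a b : α} {la lb : List α} (ha : Av S a) (hb : Av S b)
    (hab : a ≠ b) (hla : Path (insert a S) a la) (hlb : Path (insert b S) b lb)
    (hst : Stuck (S ∪ (a :: la).toFinset) (la.getLastD a)) {n : ℕ}
    (h : Out (S ∪ (a :: la).toFinset ∪ (b :: lb).toFinset) (some (lb.getLastD b)) n) :
    Out (insert a S) (some a) (n + 1) := by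
  obtain ⟨L, hL, hn⟩ := h
  have hd := paths_disjoint hb ha (Ne.symm hab) hlb hla
  have hb1 : Av (S ∪ (a :: la).toFinset) b := hb.mono subset_union_left (hd b (by simp))
  have hlb1 : Path (insert b (S ∪ (a :: la).toFinset)) b lb := by
    refine hlb.mono (insert_subset_insert _ subset_union_left) ?_
    intro w hw hwm
    rcases mem_insert.1 hwm with h | h
    · exact lt_irrefl _ (h ▸ hlb.lt w hw)
    · exact hd w (List.mem_cons_of_mem _ hw) h
  rw [← insert_union_toFinset (S ∪ (a :: la).toFinset) b lb] at hL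
  obtain ⟨g1, g2⟩ := gcomp_append hlb1 hL
  have g3 : GComp (S ∪ (a :: la).toFinset) (some (la.getLastD a)) (b :: (lb ++ L)) :=
    ⟨nxt_of_stuck hst hb1, g1⟩
  rw [← insert_union_toFinset] at g3 hst
  obtain ⟨g4, g5⟩ := gcomp_append hla g3
  refine ⟨_, g4, ?_⟩
  rw [g5, jf, cost_not (by
    rw [insert_union_toFinset] at hst
    exact hst b hb1), g2, hn, add_comm]

/-- **Touching**: the outputs of two states with the same placed set nearly meet. -/
theorem touch (n : ℕ) : ∀ (W : Finset α) (t₁ t₂ : α), (univ \ W).card ≤ n → Down W →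
    ∃ a b, Out W (some t₁) a ∧ Out W (some t₂) b ∧ a ≤ b + 1 ∧ b ≤ a + 1 := by
  induction n with
  | zero =>
    intro W t₁ t₂ hn _
    have hW : W = univ := by
      rw [Nat.le_zero, Finset.card_eq_zero, Finset.sdiff_eq_empty_iff_subset] at hn
      exact Finset.univ_subset_iff.1 hn
    exact ⟨0, 0, ⟨[], hW, rfl⟩, ⟨[], hW, rfl⟩, by omega, by omega⟩
  | succ n ih =>
    intro W t₁ t₂ hn hW
    -- a common next element
    have common : ∀ e, Av W e → (t₁ < e ∨ Stuck W t₁) → (t₂ < e ∨ Stuck W t₂) →
        ∃ a b, Out W (some t₁) a ∧ Out W (some t₂) b ∧ a ≤ b + 1 ∧ b ≤ a + 1 := by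
      intro e he h1 h2
      obtain ⟨L, hL⟩ := exists_gcomp (insert e W) (hW.insert he) (some e)
      refine ⟨cost (some t₁) e + jf (some e) L, cost (some t₂) e + jf (some e) L,
        ⟨e :: L, ⟨⟨he, fun x hx => ?_⟩, hL⟩, rfl⟩, ⟨e :: L, ⟨⟨he, fun x hx => ?_⟩, hL⟩, rfl⟩, ?_, ?_⟩
      · simp only [Option.mem_def, Option.some.injEq] at hx
        exact hx ▸ h1
      · simp only [Option.mem_def, Option.some.injEq] at hx
        exact hx ▸ h2
      · have := cost_le_one (some t₁) e
        omega
      · have := cost_le_one (some t₂) e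
        omega
    by_cases hWu : W = univ
    · exact ⟨0, 0, ⟨[], hWu, rfl⟩, ⟨[], hWu, rfl⟩, by omega, by omega⟩
    by_cases s1 : Stuck W t₁
    · by_cases s2 : Stuck W t₂
      · obtain ⟨L, hL⟩ := exists_gcomp W hW none
        cases L with
        | nil => exact absurd hL hWu
        | cons e L => exact common e hL.1.1 (Or.inr s1) (Or.inr s2)
      · unfold Stuck at s2
        push Not at s2
        obtain ⟨e, he, hlt⟩ := s2
        exact common e he (Or.inr s1) (Or.inl hlt)
    · have s1' := s1
      unfold Stuck at s1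
      push Not at s1
      obtain ⟨e₁, he₁, hlt₁⟩ := s1
      by_cases s2 : Stuck W t₂
      · exact common e₁ he₁ (Or.inl hlt₁) (Or.inr s2)
      · have s2' := s2
        unfold Stuck at s2
        push Not at s2
        obtain ⟨e₂, he₂, hlt₂⟩ := s2
        by_cases hee : e₁ = e₂
        · subst hee
          exact common e₁ he₁ (Or.inl hlt₁) (Or.inl hlt₂)
        · obtain ⟨l₁, hl₁, hs₁⟩ := exists_path (insert e₁ W) e₁
          obtain ⟨l₂, hl₂, hs₂⟩ := exists_path (insert e₂ W) e₂
          rw [insert_union_toFinset] at hs₁ hs₂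
          have hd : Down (W ∪ (e₁ :: l₁).toFinset ∪ (e₂ :: l₂).toFinset) := by
            have h1 := down_union hW he₁ hl₁
            have hdd := paths_disjoint he₂ he₁ (Ne.symm hee) hl₂ hl₁
            refine down_union h1 (he₂.mono subset_union_left (hdd e₂ (by simp))) ?_
            refine hl₂.mono (insert_subset_insert _ subset_union_left) ?_
            intro w hw hwm
            rcases mem_insert.1 hwm with h | h
            · exact lt_irrefl _ (h ▸ hl₂.lt w hw)
            · exact hdd w (List.mem_cons_of_mem _ hw) h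
          have hcomm : W ∪ (e₂ :: l₂).toFinset ∪ (e₁ :: l₁).toFinset =
              W ∪ (e₁ :: l₁).toFinset ∪ (e₂ :: l₂).toFinset := by
            rw [union_assoc, union_assoc, union_comm (e₂ :: l₂).toFinset]
          have hcard : (univ \ (W ∪ (e₁ :: l₁).toFinset ∪ (e₂ :: l₂).toFinset)).card ≤ n := by
            have h1 := card_insert_lt he₁.1
            have h2 : (univ \ (W ∪ (e₁ :: l₁).toFinset ∪ (e₂ :: l₂).toFinset)).card ≤
                (univ \ insert e₁ W).card := by
              apply Finset.card_le_card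
              intro w hw
              simp only [mem_sdiff, mem_univ, true_and, mem_union, List.mem_toFinset,
                List.mem_cons, mem_insert, not_or] at hw ⊢
              exact ⟨hw.1.2.1, hw.1.1⟩
            omega
          obtain ⟨a, b, ha, hb, h1, h2⟩ := ih _ (l₂.getLastD e₂) (l₁.getLastD e₁) hcard hd
          have g1 := out_two he₁ he₂ hee hl₁ hl₂ hs₁ ha
          rw [← hcomm] at hb
          have g2 := out_two he₂ he₁ (Ne.symm hee) hl₂ hl₁ hs₂ hb
          obtain ⟨L₁, hL₁, hj₁⟩ := g1
          obtain ⟨L₂, hL₂, hj₂⟩ := g2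
          refine ⟨a + 1, b + 1, ⟨e₁ :: L₁, ⟨nxt_of_lt hlt₁ he₁, hL₁⟩, ?_⟩,
            ⟨e₂ :: L₂, ⟨nxt_of_lt hlt₂ he₂, hL₂⟩, ?_⟩, by omega, by omega⟩
          · rw [jf, cost_lt hlt₁, hj₁, zero_add]
          · rw [jf, cost_lt hlt₂, hj₂, zero_add]

/-- The outputs of two different next elements nearly meet. -/
theorem touch_next {S : Finset α} (hS : Down S) {y₁ y₂ : α} (h₁ : Av S y₁) (h₂ : Av S y₂)
    (hne : y₁ ≠ y₂) : ∃ a b, Out (insert y₁ S) (some y₁) a ∧ Out (insert y₂ S) (some y₂) b ∧
      a ≤ b + 1 ∧ b ≤ a + 1 := by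
  obtain ⟨l₁, hl₁, hs₁⟩ := exists_path (insert y₁ S) y₁
  obtain ⟨l₂, hl₂, hs₂⟩ := exists_path (insert y₂ S) y₂
  rw [insert_union_toFinset] at hs₁ hs₂
  have hd : Down (S ∪ (y₁ :: l₁).toFinset ∪ (y₂ :: l₂).toFinset) := by
    have h1 := down_union hS h₁ hl₁
    have hdd := paths_disjoint h₂ h₁ (Ne.symm hne) hl₂ hl₁
    refine down_union h1 (h₂.mono subset_union_left (hdd y₂ (by simp))) ?_
    refine hl₂.mono (insert_subset_insert _ subset_union_left) ?_
    intro w hw hwm
    rcases mem_insert.1 hwm with h | h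
    · exact lt_irrefl _ (h ▸ hl₂.lt w hw)
    · exact hdd w (List.mem_cons_of_mem _ hw) h
  have hcomm : S ∪ (y₂ :: l₂).toFinset ∪ (y₁ :: l₁).toFinset =
      S ∪ (y₁ :: l₁).toFinset ∪ (y₂ :: l₂).toFinset := by
    rw [union_assoc, union_assoc, union_comm (y₂ :: l₂).toFinset]
  obtain ⟨a, b, ha, hb, h1, h2⟩ := touch _ _ (l₂.getLastD y₂) (l₁.getLastD y₁) le_rfl hd
  rw [← hcomm] at hb
  exact ⟨a + 1, b + 1, out_two h₁ h₂ hne hl₁ hl₂ hs₁ ha,
    out_two h₂ h₁ (Ne.symm hne) hl₂ hl₁ hs₂ hb, by omega, by omega⟩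

theorem out_interval (n : ℕ) : ∀ (S : Finset α) (o : Option α), (univ \ S).card ≤ n → Down S →
    ∀ a b m, Out S o a → Out S o b → a ≤ m → m ≤ b → Out S o m := by
  induction n with
  | zero =>
    intro S o hn _ a b m ha hb h1 h2
    have hS : S = univ := by
      rw [Nat.le_zero, Finset.card_eq_zero, Finset.sdiff_eq_empty_iff_subset] at hn
      exact Finset.univ_subset_iff.1 hn
    have hz : ∀ c, Out S o c → c = 0 := by
      rintro c ⟨L, hL, rfl⟩
      cases L with
      | nil => rfl
      | cons y l => exact absurd (hS ▸ mem_univ y) hL.1.1.1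
    have := hz a ha
    have := hz b hb
    obtain rfl : m = a := by omega
    exact ha
  | succ n ih =>
    intro S o hn hS a b m ha hb h1 h2
    obtain ⟨L₁, hL₁, hj₁⟩ := ha
    obtain ⟨L₂, hL₂, hj₂⟩ := hb
    cases L₁ with
    | nil =>
      cases L₂ with
      | nil =>
        obtain rfl : m = a := by rw [jf] at hj₁ hj₂; omega
        exact ⟨[], hL₁, hj₁⟩
      | cons y l =>
        rw [GComp] at hL₁
        exact absurd (hL₁ ▸ mem_univ y) hL₂.1.1.1
    | cons y₁ l₁ =>
      cases L₂ with
      | nil =>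
        rw [GComp] at hL₂
        exact absurd (hL₂ ▸ mem_univ y₁) hL₁.1.1.1
      | cons y₂ l₂ =>
        have hc := cost_eq hL₁.1 hL₂.1
        rw [jf] at hj₁ hj₂
        have up : ∀ y, Nxt S o y → ∀ c, Out (insert y S) (some y) c → Out S o (cost o y + c) := by
          rintro y hy c ⟨L, hL, rfl⟩
          exact ⟨y :: L, ⟨hy, hL⟩, rfl⟩
        have hc1 : (univ \ insert y₁ S).card ≤ n := by
          have := card_insert_lt hL₁.1.1.1
          omega
        have hc2 : (univ \ insert y₂ S).card ≤ n := by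
          have := card_insert_lt hL₂.1.1.1
          omega
        have i1 := ih (insert y₁ S) (some y₁) hc1 (hS.insert hL₁.1.1)
        have i2 := ih (insert y₂ S) (some y₂) hc2 (hS.insert hL₂.1.1)
        have o1 : Out (insert y₁ S) (some y₁) (jf (some y₁) l₁) := ⟨l₁, hL₁.2, rfl⟩
        have o2 : Out (insert y₂ S) (some y₂) (jf (some y₂) l₂) := ⟨l₂, hL₂.2, rfl⟩
        have e1 : m = cost o y₁ + (m - cost o y₁) := by omega
        have e2 : m = cost o y₂ + (m - cost o y₁) := by omega
        by_cases hne : y₁ = y₂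
        · subst hne
          rw [e1]
          exact up y₁ hL₁.1 _ (i1 _ _ _ o1 o2 (by omega) (by omega))
        · obtain ⟨p, q, hp, hq, h3, h4⟩ := touch_next hS hL₁.1.1 hL₂.1.1 hne
          by_cases hm : m - cost o y₁ ≤ p
          · rw [e1]
            exact up y₁ hL₁.1 _ (i1 _ _ _ o1 hp (by omega) hm)
          · rw [e2]
            exact up y₂ hL₂.1 _ (i2 _ _ _ hq o2 (by omega) (by omega))

/-- **Interval theorem**: the outputs of the greedy procedure form an interval. -/
theorem run_interval {a b m : ℕ} (ha : Run (univ : Finset α) a) (hb : Run (univ : Finset α) b)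
    (h1 : a ≤ m) (h2 : m ≤ b) : Run (univ : Finset α) m := by
  have hdown : Down (∅ : Finset α) := by
    intro w hw
    simp at hw
  have hu : (univ : Finset α) = univ \ ∅ := by simp
  by_cases hne : (univ : Finset α).Nonempty
  · obtain ⟨L₁, hL₁, hj₁⟩ := gcomp_of_run ha ∅ hdown hu hne
    obtain ⟨L₂, hL₂, hj₂⟩ := gcomp_of_run hb ∅ hdown hu hne
    obtain ⟨L, hL, hj⟩ := out_interval _ (∅ : Finset α) none le_rfl hdown (a + 1) (b + 1) (m + 1)
      ⟨L₁, hL₁, hj₁⟩ ⟨L₂, hL₂, hj₂⟩ (by omega) (by omega)
    have hLne : L ≠ [] := by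
      rintro rfl
      rw [jf] at hj
      omega
    obtain ⟨k, hk, hjk⟩ := run_of_gcomp _ ∅ L le_rfl hdown hL hLne
    rw [← hu] at hk
    obtain rfl : m = k := by omega
    exact hk
  · rw [Finset.not_nonempty_iff_eq_empty] at hne
    have hz : ∀ c, Run (univ : Finset α) c → c = 0 := by
      intro c hc
      have hch : IsChain (· ≤ ·) ((univ : Finset α) : Set α) := by rw [hne]; simp
      cases hc with
      | done _ _ => rfl
      | step _ C k h _ _ => exact absurd hch h
    have := hz a ha
    have := hz b hb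
    obtain rfl : m = a := by omega
    exact ha

/-- Some run outputs the jump number. -/
theorem run_sigma : Run (univ : Finset α) (sigma (univ : Finset α)) := by
  have hdown : Down (∅ : Finset α) := by
    intro w hw
    simp at hw
  have hu : (univ : Finset α) = univ \ ∅ := by simp
  by_cases hne : (univ : Finset α).Nonempty
  · obtain ⟨L, hL⟩ := exists_gcomp (∅ : Finset α) hdown none
    have hne' : ∀ L, Comp (∅ : Finset α) L → L ≠ [] := by
      rintro L hL rfl
      rw [Comp] at hL
      rw [← hL] at hne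
      simp at hne
    have hmem : jumps (univ \ ∅) L ∈ {k | ∃ L, LinExt (univ \ ∅ : Finset α) L ∧
        jumps (univ \ ∅) L = k} := ⟨L, (comp_iff hdown L).1 hL.comp, rfl⟩
    obtain ⟨L₀, hL₀, hj₀⟩ := Nat.sInf_mem ⟨_, hmem⟩
    have hc₀ := (comp_iff hdown L₀).2 hL₀
    obtain ⟨L', hL', hjL'⟩ := exists_greedy _ ∅ none L₀ rfl hc₀
    have h5 := jumps_add_one (Q := univ \ ∅) hdown L₀ hc₀ (hne' L₀ hc₀)
    have h6 := jumps_add_one (Q := univ \ ∅) hdown L' hL'.comp (hne' L' hL'.comp)
    have h7 : sigma (univ \ ∅ : Finset α) ≤ jumps (univ \ ∅) L' :=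
      Nat.sInf_le ⟨L', (comp_iff hdown L').1 hL'.comp, rfl⟩
    have h8 : sigma (univ \ ∅ : Finset α) = jumps (univ \ ∅) L₀ := hj₀.symm
    obtain ⟨k, hk, hjk⟩ := run_of_gcomp _ ∅ L' le_rfl hdown hL' (hne' L' hL'.comp)
    rw [← hu] at hk h7 h8 h6 h5
    obtain rfl : sigma (univ : Finset α) = k := by omega
    exact hk
  · rw [Finset.not_nonempty_iff_eq_empty] at hne
    have h0 : sigma (univ : Finset α) = 0 := by
      apply Nat.eq_zero_of_le_zero
      apply Nat.sInf_le
      refine ⟨[], ⟨fun x => ?_, List.Pairwise.nil⟩, by simp [jumps]⟩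
      rw [hne]; simp
    rw [h0]
    exact Run.done _ (by rw [hne]; simp)

theorem sigma_le_run {k : ℕ} (hk : Run (univ : Finset α) k) : sigma (univ : Finset α) ≤ k := by
  have hdown : Down (∅ : Finset α) := by
    intro w hw
    simp at hw
  have hu : (univ : Finset α) = univ \ ∅ := by simp
  by_cases hne : (univ : Finset α).Nonempty
  · obtain ⟨L, hL, hj⟩ := gcomp_of_run hk ∅ hdown hu hne
    have hLne : L ≠ [] := by
      rintro rfl
      rw [jf] at hj
      omega
    have h5 := jumps_add_one (Q := univ \ ∅) hdown L hL.comp hLne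
    rw [← hu] at h5
    refine Nat.sInf_le ⟨L, ?_, by omega⟩
    have := (comp_iff hdown L).1 hL.comp
    rwa [← hu] at this
  · rw [Finset.not_nonempty_iff_eq_empty] at hne
    have h0 : sigma (univ : Finset α) = 0 := by
      apply Nat.eq_zero_of_le_zero
      apply Nat.sInf_le
      refine ⟨[], ⟨fun x => ?_, List.Pairwise.nil⟩, by simp [jumps]⟩
      rw [hne]; simp
    omega

/-- A poset is greedy iff no run outputs the jump number plus 1. -/
theorem greedy_iff_no_succ :
    Greedy (univ : Finset α) ↔ ¬ Run (univ : Finset α) (sigma (univ : Finset α) + 1) := by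
  constructor
  · intro h hr
    have := h _ hr
    omega
  · intro h k hk
    by_contra hne
    have h1 := sigma_le_run hk
    exact h (run_interval run_sigma hk (by omega) (by omega))

end Pool.Agent.Work.MP_02c6ed_co.G24
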