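import Pool.Agent.Work.MP_02c6ed_co.G24.Core

/-!
# Greedy posets: the local-global principle (levels)
-/

set_option autoImplicit false
set_option linter.unusedSectionVars false

open Finset

namespace Pool.Agent.Work.MP_02c6ed_co.G24

variable {α : Type} [PartialOrder α] [Fintype α] [DecidableEq α]

theorem nxt_of_stuck {S : Finset α} {z y : α} (hs : Stuck S z) (hy : Av S y) :
    Nxt S (some z) y :=
  ⟨hy, fun x hx => by
    simp only [Option.mem_def, Option.some.injEq] at hx
    exact Or.inr (hx ▸ hs)⟩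

theorem nxt_of_lt {S : Finset α} {z y : α} (hs : z < y) (hy : Av S y) :
    Nxt S (some z) y :=
  ⟨hy, fun x hx => by
    simp only [Option.mem_def, Option.some.injEq] at hx
    exact Or.inl (hx ▸ hs)⟩

/-- A down-set. -/
def Down (S : Finset α) : Prop := ∀ w ∈ S, ∀ v, v < w → v ∈ S

theorem Reach.down {S₀ S : Finset α} {o : Option α} (h₀ : Down S₀) (h : Reach S₀ S o) :
    ∀ w ∈ S, ∀ v, v < w → v ∈ S := by
  induction h with
  | nil => exact h₀
  | step S o y _ hy ih =>
    intro w hw v hv
    rcases mem_insert.1 hw with rfl | hw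
    · exact mem_insert_of_mem (hy.1.2 v hv)
    · exact mem_insert_of_mem (ih w hw v hv)

theorem insert_union_toFinset (S : Finset α) (y : α) (l : List α) :
    insert y S ∪ l.toFinset = S ∪ (y :: l).toFinset := by
  ext z; simp only [mem_union, mem_insert, List.mem_toFinset, List.mem_cons]; tauto

/-- Split a list at the last element with the property `p`. -/
theorem exists_split (p : α → Prop) (l : List α) (h : ∃ w ∈ l, p w) :
    ∃ l₁ u l₂, l = l₁ ++ u :: l₂ ∧ p u ∧ ∀ w ∈ l₂, ¬ p w := by
  induction l with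
  | nil => simp at h
  | cons a l ih =>
    by_cases hl : ∃ w ∈ l, p w
    · obtain ⟨l₁, u, l₂, h1, h2, h3⟩ := ih hl
      exact ⟨a :: l₁, u, l₂, by rw [h1]; rfl, h2, h3⟩
    · push Not at hl
      obtain ⟨w, hw, hpw⟩ := h
      rcases List.mem_cons.1 hw with rfl | hw
      · exact ⟨[], w, l, rfl, hpw, hl⟩
      · exact absurd hpw (hl w hw)

/-- A prefix of a new chain. -/
theorem reach_prefix {S₀ A : Finset α} {z x₀ : α} {xl : List α} (hA : Reach S₀ A (some z))
    (hAs : Stuck A z) (hAx : Av A x₀) (hAp : Path (insert x₀ A) x₀ xl)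
    {l₁ l₂ : List α} {u : α} (hs : x₀ :: xl = l₁ ++ u :: l₂) :
    ∃ S' : Finset α, Reach S₀ S' (some u) ∧ Path S' u l₂ ∧ S' = A ∪ (l₁ ++ [u]).toFinset ∧
      A ∪ (x₀ :: xl).toFinset = S' ∪ l₂.toFinset := by
  have hr : Reach S₀ (insert x₀ A) (some x₀) := Reach.step A _ x₀ hA (nxt_of_stuck hAs hAx)
  cases l₁ with
  | nil =>
    simp only [List.nil_append, List.cons.injEq] at hs
    obtain ⟨rfl, rfl⟩ := hs
    refine ⟨insert x₀ A, hr, hAp, ?_, ?_⟩
    · ext w; simp only [mem_union, mem_insert, List.mem_toFinset, List.nil_append, List.mem_cons,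
        List.not_mem_nil]; tauto
    · exact (insert_union_toFinset _ _ _).symm
  | cons a l₁ =>
    simp only [List.cons_append, List.cons.injEq] at hs
    obtain ⟨rfl, rfl⟩ := hs
    have e : l₁ ++ u :: l₂ = (l₁ ++ [u]) ++ l₂ := by simp
    rw [e, path_append] at hAp
    have hl : (l₁ ++ [u]).getLastD x₀ = u := by
      rw [getLastD_append]; simp
    rw [hl] at hAp
    refine ⟨insert x₀ A ∪ (l₁ ++ [u]).toFinset, ?_, hAp.2, ?_, ?_⟩
    · have := hr.path hAp.1
      rwa [hl] at this
    · rw [insert_union_toFinset]; rfl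
    · ext w; simp only [mem_union, mem_insert, List.mem_toFinset, List.mem_append, List.mem_cons]
      tauto

/-- The use of the local condition at a crossing. -/
theorem side {S₀ : Finset α} (h₀ : Down S₀) (hLC : LC S₀) {A W : Finset α} {z x₀ : α}
    {xl : List α} (hA : Reach S₀ A (some z))
    (hAs : Stuck A z) (hAx : Av A x₀) (hAp : Path (insert x₀ A) x₀ xl)
    (hW : W = A ∪ (x₀ :: xl).toFinset) {y₂ : α} (hy : Av W y₂) (hzy : z < y₂)
    (hxy : ¬ xl.getLastD x₀ < y₂) :
    ∃ k : List α, Path (insert y₂ W) y₂ k ∧ ∀ (y₁ : α) (m : List α), y₁ ≠ y₂ →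
      Path W (xl.getLastD x₀) (y₁ :: m) →
      Stuck (W ∪ (y₁ :: m).toFinset) (m.getLastD y₁) →
      (Stuck (W ∪ (y₁ :: m).toFinset ∪ (y₂ :: k).toFinset) (m.getLastD y₁) ↔
        Stuck (W ∪ (y₁ :: m).toFinset ∪ (y₂ :: k).toFinset) (k.getLastD y₂)) := by
  have hAW : A ⊆ W := hW ▸ subset_union_left
  -- an element of the chain below `y₂`
  have hex : ∃ w ∈ x₀ :: xl, w < y₂ := by
    by_contra hne
    push Not at hne
    refine hAs y₂ ⟨fun h => hy.1 (hAW h), fun w hw => ?_⟩ hzy
    have := hy.2 w hw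
    rw [hW, mem_union, List.mem_toFinset] at this
    rcases this with h | h
    · exact h
    · exact absurd hw (hne w h)
  obtain ⟨l₁, u, l₂, hs, hu, hl₂⟩ := exists_split (· < y₂) _ hex
  obtain ⟨S', hS', hP, hSe, hWe⟩ := reach_prefix hA hAs hAx hAp hs
  rw [← hW] at hWe
  have hlast : xl.getLastD x₀ = l₂.getLastD u := by
    have h1 : (x₀ :: xl).getLastD x₀ = (l₁ ++ u :: l₂).getLastD x₀ := by rw [hs]
    rw [List.getLastD_cons, getLastD_append, List.getLastD_cons] at h1
    exact h1
  have hS'W : S' ⊆ W := hWe ▸ subset_union_left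
  have hy' : Av S' y₂ := by
    refine ⟨fun h => hy.1 (hS'W h), fun w hw => ?_⟩
    have := hy.2 w hw
    rw [hWe, mem_union, List.mem_toFinset] at this
    rcases this with h | h
    · exact h
    · exact absurd hw (hl₂ w h)
  obtain ⟨k, hk, hkst⟩ := exists_path (insert y₂ S') y₂
  have hWr : Reach S₀ W (some (xl.getLastD x₀)) := by
    rw [hWe, hlast]
    exact hS'.path hP
  refine ⟨k, ?_, ?_⟩
  · refine hk.mono (insert_subset_insert _ hS'W) ?_
    intro w hw hwW
    rcases mem_insert.1 hwW with rfl | hwW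
    · exact lt_irrefl _ (hk.lt w hw)
    · exact hy.1 (hWr.down h₀ w hwW y₂ (hk.lt w hw))
  · intro y₁ m hne hm hst
    cases l₂ with
    | nil =>
      exact absurd (by rw [hlast]; simpa using hu) hxy
    | cons v₀ l₂ =>
      have hv := hP
      rw [Path] at hv
      have hvne : v₀ ≠ y₂ := by
        rintro rfl
        exact hl₂ v₀ (by simp) |>.elim (by
          exfalso
          exact hy.1 (by rw [hWe]; simp))
      have e1 : insert v₀ S' ∪ l₂.toFinset = W := by rw [insert_union_toFinset, hWe]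
      have hlast' : l₂.getLastD v₀ = xl.getLastD x₀ := by rw [hlast, List.getLastD_cons]
      have hp : Path (insert v₀ S') v₀ (l₂ ++ (y₁ :: m)) := by
        rw [path_append, e1, hlast']
        exact ⟨hv.2.2, hm⟩
      have hl' : (l₂ ++ (y₁ :: m)).getLastD v₀ = m.getLastD y₁ := by
        rw [getLastD_append, List.getLastD_cons]
      have e2 : insert v₀ S' ∪ (l₂ ++ (y₁ :: m)).toFinset = W ∪ (y₁ :: m).toFinset := by
        rw [List.toFinset_append, ← union_assoc, e1]
      have e3 : W ∪ (y₁ :: m).toFinset ∪ (insert y₂ S' ∪ k.toFinset) =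
          W ∪ (y₁ :: m).toFinset ∪ (y₂ :: k).toFinset := by
        rw [insert_union_toFinset]
        ext w
        simp only [mem_union, List.mem_toFinset]
        constructor
        · rintro (h | h | h)
          · exact Or.inl h
          · exact Or.inl (Or.inl (hS'W h))
          · exact Or.inr h
        · rintro (h | h)
          · exact Or.inl h
          · exact Or.inr (Or.inr h)
      have := hLC S' (some u) hS' v₀ y₂ (l₂ ++ (y₁ :: m)) k (nxt_of_lt hv.2.1 hv.1)
        (nxt_of_lt hu hy') hvne hp hk (by rw [e2, hl']; exact hst) hkst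
      rwa [e2, e3, hl'] at this

end Pool.Agent.Work.MP_02c6ed_co.G24
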