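import Pool.Agent.Work.MP_02c6ed_co.G24.Elim

/-!
# Greedy posets: the jump number and the rank function
-/

set_option autoImplicit false
set_option linter.unusedSectionVars false

open Finset

namespace Pool.Agent.Work.MP_02c6ed_co.G24

variable {α : Type} [PartialOrder α] [Fintype α] [DecidableEq α]

theorem rank_unique {r r' : Finset α → ℤ} (hr : IsRank r) (hr' : IsRank r') :
    ∀ (L : List α) (S : Finset α), Down S → Comp S L → r univ - r S = r' univ - r' S := by
  intro L
  induction L with
  | nil =>
    intro S _ h
    rw [Comp] at h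
    rw [h]
    simp
  | cons y l ih =>
    intro S hS h
    have h1 := ih (insert y S) (hS.insert h.1) h.2
    have h2 := hr S hS y h.1
    have h3 := hr' S hS y h.1
    by_cases hst : Stuck (insert y S) y
    · have := h2.1 hst
      have := h3.1 hst
      omega
    · have := h2.2 hst
      have := h3.2 hst
      omega

/-- The jump number from a rank function. -/
theorem sigma_of_rank [Nonempty α] {r : Finset α → ℤ} (hr : IsRank r) :
    (sigma (univ : Finset α) : ℤ) + 1 = r univ - r ∅ := by
  have hdown : Down (∅ : Finset α) := by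
    intro w hw
    simp at hw
  have hLC : ∀ S : Finset α, Down S → LC S := fun S hS => LC_of_elim (elim_of_rank hr) hS
  have hG : Greedy (univ : Finset α) := by
    have := (greedy_iff_LC hdown).2 (hLC ∅ hdown)
    rwa [sdiff_empty] at this
  obtain ⟨L, hL⟩ := exists_gcomp (∅ : Finset α) hdown none
  have hne : L ≠ [] := by
    rintro rfl
    rw [GComp] at hL
    obtain ⟨x⟩ := ‹Nonempty α›
    have : x ∈ (∅ : Finset α) := hL ▸ mem_univ x
    exact notMem_empty _ this
  obtain ⟨k, hk, hjk⟩ := run_of_gcomp _ ∅ L le_rfl hdown hL hne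
  rw [sdiff_empty] at hk
  have h1 := hG k hk
  have h2 := jf_eq_G (nice_of_LC hdown (hLC ∅ hdown)) Reach.nil hL
  have h3 := rank_unique hr (isRank_G hLC) L ∅ hdown hL.comp
  have h4 : G (univ : Finset α) none = 0 := by
    rw [G_eq_zero]
    rintro ⟨y, hy⟩
    exact hy.1.1 (mem_univ y)
  simp only [h4] at h3
  omega

end Pool.Agent.Work.MP_02c6ed_co.G24
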