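import Pool.Agent.Work.MP_02c6ed_co.G24.Height2
import Pool.Agent.Work.MP_02c6ed_co.G24.Rank

/-!
# Greedy posets of height at most 2 are matroids
-/

set_option autoImplicit false
set_option linter.unusedSectionVars false

open Finset

namespace Pool.Agent.Work.MP_02c6ed_co.G24

variable {α : Type} [PartialOrder α] [Fintype α] [DecidableEq α]

/-- The sets of elements below an element are unions of circuits of the matroid `M` on the ordered
set, and all circuits of `M` are of this form. -/
def CircuitsBelow (M : Matroid α) : Prop :=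
  M.E = Set.univ ∧ (∀ C, M.IsCircuit C → ∃ y, C = {x | x < y}) ∧
    ∀ x y : α, x < y → ∃ C, M.IsCircuit C ∧ x ∈ C ∧ C ⊆ {v | v < y}

theorem elim_of_matroid (h2 : ∀ x y z : α, x < y → ¬ y < z) {M : Matroid α}
    (hM : CircuitsBelow M) : Elim α := by
  obtain ⟨_, h1, h3⟩ := hM
  intro a b c d hac hbc hbd had
  obtain ⟨C, hC, haC, hCc⟩ := h3 a c hac.lt
  have key : ∀ C, M.IsCircuit C → a ∈ C → b ∉ C → (∀ w ∈ C, w < c ∨ w < d) →
      ∃ z, a ⋖ z ∧ ¬ b < z ∧ ∀ w, w < z → w < c ∨ w < d := by
    intro C hC ha hb hw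
    obtain ⟨z, rfl⟩ := h1 C hC
    exact ⟨z, ⟨ha, fun v hv => h2 a v z hv⟩, hb, hw⟩
  by_cases hbC : b ∈ C
  · obtain ⟨C', hC', hbC', hCd⟩ := h3 b d hbd.lt
    have haC' : a ∉ C' := fun h => had (hCd h)
    obtain ⟨C'', hs, hC'', ha''⟩ := hC.strong_elimination hC' hbC hbC' haC haC'
    refine key C'' hC'' ha'' (fun h => (hs h).2 rfl) (fun w hw => ?_)
    rcases (hs hw).1 with h | h
    · exact Or.inl (hCc h)
    · exact Or.inr (hCd h)
  · exact key C hC haC hbC (fun w hw => Or.inl (hCc hw))

/-- Independence. -/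
def Ind (I : Finset α) : Prop := ∀ y : α, (∃ x, x < y) → ¬ ∀ x, x < y → x ∈ I

theorem ind_aug (h2 : ∀ x y z : α, x < y → ¬ y < z) (hE : Elim α) {I J : Finset α}
    (hI : Ind I) (hJ : Ind J) (hIJ : I.card < J.card) : ∃ e ∈ J, e ∉ I ∧ Ind (insert e I) := by
  classical
  have hcov : ∀ x y : α, x < y → x ⋖ y := fun x y h => ⟨h, fun v hv => h2 x v y hv⟩
  by_contra hno
  push Not at hno
  have hmono : ∀ A B : Finset α, Ind B → A ⊆ B → Ind A := fun A B hB hAB y hy hA =>
    hB y hy (fun x hx => hAB (hA x hx))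
  -- choose the set
  set F : Finset (Finset α) := (I ∪ J).powerset.filter (fun T => Ind T ∧ I.card < T.card) with hF
  have hne : F.Nonempty := ⟨J, by
    rw [hF, mem_filter, mem_powerset]
    exact ⟨subset_union_right, hJ, hIJ⟩⟩
  obtain ⟨T, hT, hmin⟩ := Finset.exists_min_image F (fun T => (I \ T).card) hne
  rw [hF, mem_filter, mem_powerset] at hT
  obtain ⟨hT1, hT2, hT3⟩ := hT
  obtain ⟨g, hg⟩ : (T \ I).Nonempty := by
    rw [Finset.sdiff_nonempty]
    intro h
    exact absurd (card_le_card h) (by omega)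
  have hg' := mem_sdiff.1 hg
  by_cases hIT : (I \ T).Nonempty
  · obtain ⟨e, he⟩ := hIT
    have he' := mem_sdiff.1 he
    -- the circuits
    have hcir : ∀ f ∈ T \ I, ∃ y, (∃ x, x < y) ∧ (∀ x, x < y → x ∈ (insert e T).erase f) := by
      intro f hf
      have hf' := mem_sdiff.1 hf
      by_contra hcon
      push Not at hcon
      have hef : e ≠ f := by
        rintro rfl
        exact hf'.2 he'.1
      have hind : Ind ((insert e T).erase f) := by
        intro y hy hall
        obtain ⟨x, hx, hx'⟩ := hcon y hy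
        exact hx' (hall x hx)
      have hcard : ((insert e T).erase f).card = T.card := by
        rw [card_erase_of_mem (mem_insert_of_mem hf'.1), card_insert_of_notMem he'.2]
        rfl
      have hmem : (insert e T).erase f ∈ F := by
        rw [hF, mem_filter, mem_powerset]
        refine ⟨?_, hind, by omega⟩
        intro x hx
        rw [mem_erase, mem_insert] at hx
        rcases hx.2 with rfl | h
        · exact mem_union_left _ he'.1
        · exact hT1 h
      have h1 := hmin _ hmem
      have h3 : I \ (insert e T).erase f ⊂ I \ T := by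
        refine ⟨fun x hx => ?_, fun hh => ?_⟩
        · rw [mem_sdiff] at hx ⊢
          refine ⟨hx.1, fun hxT => hx.2 ?_⟩
          rw [mem_erase, mem_insert]
          refine ⟨?_, Or.inr hxT⟩
          rintro rfl
          exact hf'.2 hx.1
        · have := hh he
          rw [mem_sdiff] at this
          apply this.2
          rw [mem_erase, mem_insert]
          exact ⟨hef, Or.inl rfl⟩
      have := card_lt_card h3
      omega
    have hein : ∀ f y, (∃ x, x < y) → (∀ x, x < y → x ∈ (insert e T).erase f) → e < y := by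
      intro f y hy hall
      by_contra hey
      refine hT2 y hy (fun x hx => ?_)
      have := hall x hx
      rw [mem_erase, mem_insert] at this
      rcases this.2 with rfl | h
      · exact absurd hx hey
      · exact h
    obtain ⟨y, hy, hyall⟩ := hcir g hg
    have hey := hein g y hy hyall
    obtain ⟨h, hhy, hhI⟩ : ∃ h, h < y ∧ h ∉ I := by
      by_contra hcon
      push Not at hcon
      exact hI y hy hcon
    have hhT : h ∈ T := by
      have := hyall h hhy
      rw [mem_erase, mem_insert] at this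
      rcases this.2 with rfl | h'
      · exact absurd he'.1 hhI
      · exact h'
    obtain ⟨y', hy', hyall'⟩ := hcir h (mem_sdiff.2 ⟨hhT, hhI⟩)
    have hey' := hein h y' hy' hyall'
    have hhy' : ¬ h < y' := by
      intro hlt
      have := hyall' h hlt
      rw [mem_erase] at this
      exact this.1 rfl
    obtain ⟨z, hz1, hz2, hz3⟩ := hE h e y y' (hcov _ _ hhy) (hcov _ _ hey) (hcov _ _ hey') hhy'
    refine hT2 z ⟨h, hz1.lt⟩ (fun x hx => ?_)
    have hxe : x ≠ e := by
      rintro rfl
      exact hz2 hx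
    rcases hz3 x hx with h' | h'
    · have := hyall x h'
      rw [mem_erase, mem_insert] at this
      exact this.2.resolve_left hxe
    · have := hyall' x h'
      rw [mem_erase, mem_insert] at this
      exact this.2.resolve_left hxe
  · rw [Finset.not_nonempty_iff_eq_empty, Finset.sdiff_eq_empty_iff_subset] at hIT
    have hgJ : g ∈ J := by
      rcases mem_union.1 (hT1 hg'.1) with h | h
      · exact absurd h hg'.2
      · exact h
    refine hno g hgJ hg'.2 (hmono _ T hT2 ?_)
    intro x hx
    rcases mem_insert.1 hx with rfl | hx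
    · exact hg'.1
    · exact hIT hx

theorem matroid_of_elim (h2 : ∀ x y z : α, x < y → ¬ y < z) (hE : Elim α) :
    ∃ M : Matroid α, CircuitsBelow M := by
  classical
  have hcov : ∀ x y : α, x < y → x ⋖ y := fun x y h => ⟨h, fun v hv => h2 x v y hv⟩
  have e1 : Ind (∅ : Finset α) := by
    intro y hy h
    obtain ⟨x, hx⟩ := hy
    exact notMem_empty _ (h x hx)
  have e2 : ∀ ⦃I J : Finset α⦄, Ind J → I ⊆ J → Ind I := by
    intro I J hJ hIJ y hy hI
    exact hJ y hy (fun x hx => hIJ (hI x hx))
  have e3 : ∀ ⦃I J : Finset α⦄, Ind I → Ind J → I.card < J.card →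
      ∃ e ∈ J, e ∉ I ∧ Ind (insert e I) := fun I J hI hJ h => ind_aug h2 hE hI hJ h
  have e4 : ∀ ⦃I : Finset α⦄, Ind I → (I : Set α) ⊆ Set.univ := fun I _ => Set.subset_univ _
  set N : IndepMatroid α := IndepMatroid.ofFinset Set.univ (Ind (α := α)) e1 e2 e3 e4 with hN
  have hindep : ∀ X : Set α, N.matroid.Indep X ↔
      ∀ y : α, (∃ x, x < y) → ¬ ({x | x < y} ⊆ X) := by
    intro X
    have h0 : N.matroid.Indep X ↔ ∀ J : Finset α, (J : Set α) ⊆ X → Ind J := by
      rw [IndepMatroid.matroid_Indep, hN]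
      exact IndepMatroid.ofFinset_indep' Set.univ _ e1 e2 e3 e4
    rw [h0]
    constructor
    · intro h y hy hsub
      refine h (univ.filter (· < y)) ?_ y hy (fun x hx => by simpa using hx)
      intro x hx
      exact hsub (by simpa using hx)
    · intro h J hJ y hy hall
      exact h y hy (fun x hx => hJ (hall x hx))
  have hdep : ∀ X : Set α, N.matroid.Dep X ↔ ∃ y : α, (∃ x, x < y) ∧ {x | x < y} ⊆ X := by
    intro X
    have hE' : X ⊆ N.matroid.E := by
      have : N.matroid.E = Set.univ := rfl
      rw [this]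
      exact Set.subset_univ _
    rw [← Matroid.not_indep_iff hE', hindep]
    push Not
    rfl
  refine ⟨N.matroid, rfl, ?_, ?_⟩
  · intro C hC
    rw [Matroid.isCircuit_iff] at hC
    obtain ⟨y, hy, hyC⟩ := (hdep C).1 hC.1
    exact ⟨y, (hC.2 ((hdep _).2 ⟨y, hy, subset_rfl⟩) hyC).symm⟩
  · intro x y hxy
    have hne : (univ.filter (fun z : α => x < z ∧ ∀ w, w < z → w < y)).Nonempty :=
      ⟨y, by simp [hxy]⟩
    obtain ⟨z, hz, hmin⟩ := Finset.exists_min_image _
      (fun z : α => (univ.filter (· < z)).card) hne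
    have hz' : x < z ∧ ∀ w, w < z → w < y := by simpa using hz
    refine ⟨{v | v < z}, ?_, hz'.1, hz'.2⟩
    rw [Matroid.isCircuit_iff]
    refine ⟨(hdep _).2 ⟨z, ⟨x, hz'.1⟩, subset_rfl⟩, ?_⟩
    intro D hD hDz
    obtain ⟨u, hu, huD⟩ := (hdep D).1 hD
    by_contra hne'
    -- `u` has fewer lower covers
    have hss : {v | v < u} ≠ {v : α | v < z} := by
      intro h
      exact hne' (Set.Subset.antisymm hDz (h ▸ huD))
    have hsub : ∀ v, v < u → v < z := fun v hv => hDz (huD hv)
    have hlt : ∀ t : α, (∀ v, v < t → v < z) → (∃ v, v < z ∧ ¬ v < t) →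
        (univ.filter (· < t)).card < (univ.filter (· < z)).card := by
      intro t ht hv
      obtain ⟨v, hv1, hv2⟩ := hv
      refine card_lt_card ⟨fun w hw => ?_, fun hh => ?_⟩
      · rw [mem_filter] at hw ⊢
        exact ⟨hw.1, ht w hw.2⟩
      · have := hh (mem_filter.2 ⟨mem_univ v, hv1⟩)
        exact hv2 (mem_filter.1 this).2
    have hex : ∃ v, v < z ∧ ¬ v < u := by
      by_contra hcon
      push Not at hcon
      exact hss (Set.Subset.antisymm hsub hcon)
    have hxu : ¬ x < u := by
      intro h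
      have := hmin u (by simpa using ⟨h, fun w hw => hz'.2 w (hsub w hw)⟩)
      have := hlt u hsub hex
      omega
    obtain ⟨b, hb⟩ := hu
    obtain ⟨t, ht1, ht2, ht3⟩ := hE x b z u (hcov _ _ hz'.1) (hcov _ _ (hsub b hb))
      (hcov _ _ hb) hxu
    have ht4 : ∀ v, v < t → v < z := fun v hv => (ht3 v hv).elim id (hsub v)
    have := hmin t (by simpa using ⟨ht1.lt, fun w hw => hz'.2 w (ht4 w hw)⟩)
    have := hlt t ht4 ⟨b, hsub b hb, ht2⟩
    omega

/-- The rank of a matroid whose circuits lie below elements. -/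
theorem isRank_of_matroid {M : Matroid α} (hM : CircuitsBelow M) :
    IsRank (fun S : Finset α => ((M.eRk (S : Set α)).toNat : ℤ)) := by
  obtain ⟨hE, h1, h3⟩ := hM
  intro S hS x hx
  have hfin : ∀ X : Set α, M.eRk X ≠ ⊤ := by
    intro X h
    have h5 := M.eRk_le_encard X
    rw [h, top_le_iff, Set.encard_eq_top_iff] at h5
    exact h5 (Set.toFinite X)
  simp only [coe_insert]
  have hxS : x ∉ (S : Set α) := by exact_mod_cast hx.1
  constructor
  · intro hst
    have hcl : x ∉ M.closure (S : Set α) := by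
      intro hcl
      obtain ⟨C, hCs, hC, hxC⟩ := M.exists_isCircuit_of_mem_closure hcl hxS
      obtain ⟨y, rfl⟩ := h1 C hC
      refine hst y ⟨?_, fun z hz => ?_⟩ hxC
      · intro hy
        rcases mem_insert.1 hy with rfl | hy
        · exact lt_irrefl _ hxC
        · exact hx.1 (hS y hy x hxC)
      · have := hCs hz
        exact_mod_cast this
    have h5 := Matroid.eRk_insert_eq_add_one (M := M) (e := x) (X := (S : Set α))
      ⟨hE ▸ Set.mem_univ x, hcl⟩
    rw [h5, ENat.toNat_add (hfin _) (by simp)]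
    simp
  · intro hst
    unfold Stuck at hst
    push Not at hst
    obtain ⟨y, hy, hxy⟩ := hst
    obtain ⟨C, hC, hxC, hCy⟩ := h3 x y hxy
    have hcl : x ∈ M.closure (S : Set α) := by
      rw [Matroid.mem_closure_iff_exists_isCircuit hxS]
      refine ⟨C, fun w hw => ?_, hC, hxC⟩
      have := hy.2 w (hCy hw)
      exact_mod_cast this
    have h5 : M.eRk (insert x (S : Set α)) = M.eRk (S : Set α) := by
      apply le_antisymm
      · rw [← M.eRk_closure_eq (S : Set α)]
        apply M.eRk_mono
        rw [Set.insert_subset_iff]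
        exact ⟨hcl, M.subset_closure _ (by rw [hE]; exact Set.subset_univ _)⟩
      · exact M.eRk_mono (Set.subset_insert _ _)
    rw [h5]

/-- **Greedy posets of height at most 2.** -/
theorem greedy_iff_matroid (h2 : ∀ x y z : α, x < y → ¬ y < z) :
    Greedy (univ : Finset α) ↔ ∃ M : Matroid α, CircuitsBelow M := by
  rw [greedy_iff_elim h2]
  exact ⟨matroid_of_elim h2, fun ⟨_, hM⟩ => elim_of_matroid h2 hM⟩

/-- The jump number is the rank minus 1. -/
theorem sigma_of_matroid [Nonempty α] {M : Matroid α} (hM : CircuitsBelow M) :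
    ∀ B, M.IsBase B → B.ncard = sigma (univ : Finset α) + 1 := by
  intro B hB
  have h := sigma_of_rank (isRank_of_matroid hM)
  simp only [coe_empty, Matroid.eRk_empty, coe_univ, Matroid.eRk_univ_eq] at h
  rw [← hB.encard_eq_eRank] at h
  simp only [ENat.toNat_zero, Nat.cast_zero, sub_zero] at h
  have h2 : (B.encard.toNat : ℤ) = (B.ncard : ℤ) := rfl
  rw [h2] at h
  exact_mod_cast h.symm

end Pool.Agent.Work.MP_02c6ed_co.G24
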