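import Pool.Agent.Work.MP_02c6ed_co.G24.Bridge

/-!
# Greedy posets: runs of the greedy procedure are greedy completions
-/

set_option autoImplicit false
set_option linter.unusedSectionVars false

open Finset

namespace Pool.Agent.Work.MP_02c6ed_co.G24

variable {α : Type} [PartialOrder α] [Fintype α] [DecidableEq α]

theorem Path.isChain {S : Finset α} {x : α} {l : List α} (h : Path S x l) :
    IsChain (· ≤ ·) ((x :: l).toFinset : Set α) := by
  induction l generalizing S x with
  | nil =>
    intro a ha b hb hab
    rw [mem_coe, List.mem_toFinset, List.mem_singleton] at ha hb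
    exact absurd (ha.trans hb.symm) hab
  | cons y l ih =>
    have h1 := ih h.2.2
    intro a ha b hb hab
    rw [mem_coe, List.mem_toFinset] at ha hb
    rcases List.mem_cons.1 ha with ha' | ha'
    · rcases List.mem_cons.1 hb with hb' | hb'
      · exact absurd (ha'.trans hb'.symm) hab
      · exact Or.inl (ha' ▸ (h.lt b hb').le)
    · rcases List.mem_cons.1 hb with hb' | hb'
      · exact Or.inr (hb' ▸ (h.lt a ha').le)
      · exact h1 (by rw [mem_coe, List.mem_toFinset]; exact ha')
          (by rw [mem_coe, List.mem_toFinset]; exact hb') hab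

theorem Path.le_last {S : Finset α} {x : α} {l : List α} (h : Path S x l) :
    ∀ w ∈ x :: l, w ≤ l.getLastD x := by
  induction l generalizing S x with
  | nil => simp
  | cons y l ih =>
    intro w hw
    rw [List.getLastD_cons]
    rcases List.mem_cons.1 hw with rfl | hw
    · exact h.2.1.le.trans (ih h.2.2 y (by simp))
    · exact ih h.2.2 w hw

/-- A nonempty down-closed chain is a path. -/
theorem path_of_chain (n : ℕ) : ∀ (S C : Finset α), Down S → C.card = n → C.Nonempty →
    DChain (univ \ S) C →
    ∃ (y : α) (l : List α), Av S y ∧ Path (insert y S) y l ∧ C = (y :: l).toFinset := by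
  induction n with
  | zero =>
    intro S C _ hn hne _
    rw [Finset.card_eq_zero] at hn
    exact absurd hn hne.ne_empty
  | succ n ih =>
    intro S C hS hn hne hC
    obtain ⟨m, hm⟩ := Finset.exists_minimal hne
    have hmin : ∀ w ∈ C, m ≤ w := by
      intro w hw
      by_cases hmw : m = w
      · exact hmw.le
      · rcases hC.2.1 hm.1 hw hmw with h | h
        · exact h
        · exact hm.2 hw h
    have hmS : m ∉ S := (mem_sdiff.1 (hC.1 hm.1)).2
    have hav : Av S m := by
      refine ⟨hmS, fun z hz => ?_⟩
      by_contra hzS
      have := hC.2.2 m hm.1 z (mem_sdiff.2 ⟨mem_univ z, hzS⟩) hz.le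
      exact absurd (hmin z this) (not_le_of_gt hz)
    by_cases hC' : (C.erase m).Nonempty
    · obtain ⟨y, l, h1, h2, h3⟩ := ih (insert m S) (C.erase m) (hS.insert hav)
        (by rw [Finset.card_erase_of_mem hm.1, hn]; rfl) hC' (by
          refine ⟨?_, ?_, ?_⟩
          · intro w hw
            rw [mem_erase] at hw
            have := hC.1 hw.2
            simp only [mem_sdiff, mem_univ, true_and, mem_insert, not_or] at this ⊢
            exact ⟨hw.1, this⟩
          · exact hC.2.1.mono (by simp)
          · intro x hx y hy hyx
            simp only [mem_sdiff, mem_univ, true_and, mem_insert, not_or] at hy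
            rw [mem_erase] at hx ⊢
            exact ⟨hy.1, hC.2.2 x hx.2 y (by simp [hy.2]) hyx⟩)
      have hyC : y ∈ C.erase m := by rw [h3]; simp
      rw [mem_erase] at hyC
      refine ⟨m, y :: l, hav, ⟨h1, lt_of_le_of_ne (hmin y hyC.2) (Ne.symm hyC.1), h2⟩, ?_⟩
      rw [List.toFinset_cons, ← h3, Finset.insert_erase hm.1]
    · refine ⟨m, [], hav, trivial, ?_⟩
      rw [Finset.not_nonempty_iff_eq_empty] at hC'
      ext w
      simp only [List.toFinset_cons, List.toFinset_nil, mem_insert, notMem_empty, or_false]
      constructor
      · intro hw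
        by_contra hwm
        have : w ∈ C.erase m := mem_erase.2 ⟨hwm, hw⟩
        rw [hC'] at this
        exact notMem_empty _ this
      · rintro rfl
        exact hm.1

theorem dchain_of_path {S : Finset α} {y : α} {l : List α} (hy : Av S y)
    (hl : Path (insert y S) y l) : DChain (univ \ S) (y :: l).toFinset := by
  refine ⟨?_, hl.isChain, ?_⟩
  · intro w hw
    simp only [List.mem_toFinset] at hw
    simp only [mem_sdiff, mem_univ, true_and]
    rcases List.mem_cons.1 hw with rfl | hw
    · exact hy.1
    · exact fun h => hl.notMem w hw (mem_insert_of_mem h)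
  · intro x hx z hz hzx
    simp only [mem_sdiff, mem_univ, true_and] at hz
    rcases hzx.lt_or_eq with hlt | rfl
    · simp only [List.mem_toFinset] at hx
      rcases List.mem_cons.1 hx with rfl | hx
      · exact absurd (hy.2 z hlt) hz
      · have := hl.below x hx z hlt
        rw [insert_union_toFinset] at this
        rcases mem_union.1 this with h | h
        · exact absurd h hz
        · exact h
    · exact hx

/-- Greedy chains of the remainder after `S`. -/
theorem greedyChain_iff {S : Finset α} (hS : Down S) (hne : (univ \ S).Nonempty)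
    (C : Finset α) : GreedyChain (univ \ S) C ↔
      ∃ (y : α) (l : List α), Av S y ∧ Path (insert y S) y l ∧ C = (y :: l).toFinset ∧
        Stuck (S ∪ (y :: l).toFinset) (l.getLastD y) := by
  constructor
  · intro h
    have hCne : C.Nonempty := by
      rw [Finset.nonempty_iff_ne_empty]
      rintro rfl
      obtain ⟨m, hm⟩ := Finset.exists_minimal hne
      have : ({m} : Finset α) = ∅ := by
        refine h.2 {m} ⟨?_, ?_, ?_⟩ (empty_subset _)
        · exact singleton_subset_iff.2 hm.1
        · simp
        · intro x hx y hy hyx
          rw [mem_singleton] at hx ⊢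
          subst hx
          exact le_antisymm hyx (hm.2 hy hyx)
      simp at this
    obtain ⟨y, l, h1, h2, h3⟩ := path_of_chain _ S C hS rfl hCne h.1
    refine ⟨y, l, h1, h2, h3, ?_⟩
    intro e he hlt
    have hle : ∀ w ∈ C, w < e := by
      intro w hw
      rw [h3, List.mem_toFinset] at hw
      exact (h2.le_last w hw).trans_lt hlt
    have heC : e ∉ C := fun h' => lt_irrefl _ (hle e h')
    have := h.2 (insert e C) ⟨?_, ?_, ?_⟩ (subset_insert _ _)
    · rw [← this] at heC
      exact heC (mem_insert_self _ _)
    · intro w hw
      rcases mem_insert.1 hw with rfl | hw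
      · simp only [mem_sdiff, mem_univ, true_and]
        exact fun h' => he.1 (mem_union_left _ h')
      · exact h.1.1 hw
    · rw [coe_insert]
      exact h.1.2.1.insert (fun b hb _ => Or.inr (hle b hb).le)
    · intro x hx z hz hzx
      rcases mem_insert.1 hx with rfl | hx
      · rcases hzx.lt_or_eq with hlt' | rfl
        · have := he.2 z hlt'
          rw [← h3] at this
          rcases mem_union.1 this with h' | h'
          · exact absurd h' (mem_sdiff.1 hz).2
          · exact mem_insert_of_mem h'
        · exact mem_insert_self _ _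
      · exact mem_insert_of_mem (h.1.2.2 x hx z hz hzx)
  · rintro ⟨y, l, h1, h2, rfl, h4⟩
    refine ⟨dchain_of_path h1 h2, ?_⟩
    intro D hD hsub
    by_contra hne'
    have hex : (D \ (y :: l).toFinset).Nonempty := by
      rw [Finset.sdiff_nonempty]
      intro h'
      exact hne' (Subset.antisymm h' hsub)
    obtain ⟨e, he⟩ := Finset.exists_minimal hex
    have heD := (mem_sdiff.1 he.1).1
    have heC := (mem_sdiff.1 he.1).2
    have heQ := hD.1 heD
    have hlast : l.getLastD y ∈ (y :: l).toFinset := by
      rw [List.mem_toFinset]; exact getLastD_mem l y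
    have hne2 : l.getLastD y ≠ e := by
      rintro rfl
      exact heC hlast
    refine h4 e ⟨?_, ?_⟩ ?_
    · rw [mem_union, not_or]
      exact ⟨(mem_sdiff.1 heQ).2, heC⟩
    · intro z hz
      by_cases hzS : z ∈ S
      · exact mem_union_left _ hzS
      · have hzD := hD.2.2 e heD z (mem_sdiff.2 ⟨mem_univ z, hzS⟩) hz.le
        by_contra hzu
        rw [mem_union, not_or] at hzu
        have := he.2 (mem_sdiff.2 ⟨hzD, hzu.2⟩) hz.le
        exact absurd hz (not_lt_of_ge this)
    · rcases hD.2.1 (hsub hlast) heD hne2 with h' | h'
      · exact lt_of_le_of_ne h' hne2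
      · exact absurd ((dchain_of_path h1 h2).2.2 _ hlast e heQ h') heC

theorem Path.down {S : Finset α} {x : α} {l : List α} (hS : Down S) (h : Path S x l) :
    Down (S ∪ l.toFinset) := by
  induction l generalizing S x with
  | nil => simpa using hS
  | cons y l ih =>
    have := ih (hS.insert h.1) h.2.2
    rwa [insert_union_toFinset] at this

theorem down_union {S : Finset α} {y : α} {l : List α} (hS : Down S) (hy : Av S y)
    (hl : Path (insert y S) y l) : Down (S ∪ (y :: l).toFinset) := by
  have := hl.down (hS.insert hy)
  rwa [insert_union_toFinset] at this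

/-- A completion of a path. -/
theorem gcomp_append {S : Finset α} {x : α} {l L : List α} (hl : Path S x l)
    (hL : GComp (S ∪ l.toFinset) (some (l.getLastD x)) L) :
    GComp S (some x) (l ++ L) ∧ jf (some x) (l ++ L) = jf (some (l.getLastD x)) L := by
  induction l generalizing S x with
  | nil => simpa using hL
  | cons y l ih =>
    rw [← insert_union_toFinset, List.getLastD_cons] at hL
    obtain ⟨h1, h2⟩ := ih hl.2.2 hL
    refine ⟨⟨nxt_of_lt hl.2.1 hl.1, h1⟩, ?_⟩
    rw [List.cons_append, jf, cost_lt hl.2.1, h2, List.getLastD_cons, zero_add]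

theorem gcomp_of_stuck {S : Finset α} {x : α} {L : List α} (hs : Stuck S x)
    (hL : GComp S none L) : GComp S (some x) L ∧ jf (some x) L = jf none L := by
  cases L with
  | nil => exact ⟨hL, by simp [jf]⟩
  | cons w L =>
    refine ⟨⟨nxt_of_stuck hs hL.1.1, hL.2⟩, ?_⟩
    rw [jf, jf, cost_none, cost_not (hs w hL.1.1)]

theorem gcomp_none {S : Finset α} {o : Option α} {L : List α}
    (hL : GComp S o L) : GComp S none L := by
  cases L with
  | nil => exact hL
  | cons w L => exact ⟨⟨hL.1.1, by simp⟩, hL.2⟩

theorem nonempty_of_path {S : Finset α} {y : α} (hy : Av S y) : (univ \ S).Nonempty :=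
  ⟨y, mem_sdiff.2 ⟨mem_univ y, hy.1⟩⟩

/-- Every run gives a greedy completion. -/
theorem gcomp_of_run {Q : Finset α} {k : ℕ} (hr : Run Q k) : ∀ S : Finset α, Down S →
    Q = univ \ S → Q.Nonempty → ∃ L, GComp S none L ∧ jf none L = k + 1 := by
  induction hr with
  | done Q hQ =>
    intro S hS hQS hne
    obtain ⟨y, l, h1, h2, h3⟩ := path_of_chain _ S Q hS rfl hne (by
      rw [← hQS]
      exact ⟨Subset.refl _, hQ, fun x _ y hy _ => hy⟩)
    refine ⟨y :: l, ⟨⟨h1, by simp⟩, ?_⟩, ?_⟩
    · have hu : insert y S ∪ l.toFinset = univ := by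
        rw [insert_union_toFinset, ← h3, hQS]
        simp
      have := (gcomp_append (L := []) h2 hu).1
      simpa using this
    · have hu : insert y S ∪ l.toFinset = univ := by
        rw [insert_union_toFinset, ← h3, hQS]
        simp
      have := (gcomp_append (L := []) h2 hu).2
      simp only [List.append_nil, jf] at this
      rw [jf, cost_none, this]
  | step Q C k hQ hC _ ih =>
    intro S hS hQS hne
    subst hQS
    obtain ⟨y, l, h1, h2, h3, h4⟩ := (greedyChain_iff hS hne C).1 hC
    subst h3
    have hQC : (univ \ S) \ (y :: l).toFinset = univ \ (S ∪ (y :: l).toFinset) := by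
      ext w; simp only [mem_sdiff, mem_univ, true_and, mem_union, not_or]
    have hne' : ((univ \ S) \ (y :: l).toFinset).Nonempty := by
      rw [Finset.sdiff_nonempty]
      intro h
      apply hQ
      exact h2.isChain.mono (by exact_mod_cast h)
    obtain ⟨L, hL, hjL⟩ := ih (S ∪ (y :: l).toFinset) (down_union hS h1 h2) hQC hne'
    obtain ⟨g1, g2⟩ := gcomp_of_stuck h4 hL
    rw [← insert_union_toFinset] at g1
    obtain ⟨g3, g4⟩ := gcomp_append h2 g1
    refine ⟨y :: (l ++ L), ⟨⟨h1, by simp⟩, g3⟩, ?_⟩
    rw [jf, cost_none, g4, g2, hjL, add_comm]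

/-- The first chain of a greedy completion. -/
theorem first_chain {S : Finset α} {x : α} {L : List α} (h : GComp S (some x) L) :
    ∃ l L', L = l ++ L' ∧ Path S x l ∧ Stuck (S ∪ l.toFinset) (l.getLastD x) ∧
      GComp (S ∪ l.toFinset) (some (l.getLastD x)) L' := by
  induction L generalizing S x with
  | nil =>
    refine ⟨[], [], rfl, trivial, ?_, by simpa using h⟩
    rw [GComp] at h
    intro y hy
    exact absurd (h ▸ mem_univ y) (by simpa using hy.1)
  | cons y L ih =>
    by_cases hs : Stuck S x
    · exact ⟨[], y :: L, rfl, trivial, by simpa using hs, by simpa using h⟩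
    · have hxy : x < y := (h.1.2 x rfl).resolve_right hs
      obtain ⟨l, L', h1, h2, h3, h4⟩ := ih h.2
      refine ⟨y :: l, L', by rw [h1]; rfl, ⟨h.1.1, hxy, h2⟩, ?_, ?_⟩
      · rw [List.getLastD_cons, ← insert_union_toFinset]; exact h3
      · rw [List.getLastD_cons, ← insert_union_toFinset]; exact h4

/-- Every greedy completion gives a run. -/
theorem run_of_gcomp (n : ℕ) : ∀ (S : Finset α) (L : List α), L.length ≤ n → Down S →
    GComp S none L → L ≠ [] → ∃ k, Run (univ \ S) k ∧ jf none L = k + 1 := by
  induction n with
  | zero =>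
    intro S L hn _ _ hne
    exact absurd (List.length_eq_zero_iff.1 (Nat.le_zero.1 hn)) hne
  | succ n ih =>
    intro S L hn hS hL hne
    cases L with
    | nil => exact absurd rfl hne
    | cons y L =>
      obtain ⟨l, L', rfl, h2, h3, h4⟩ := first_chain hL.2
      have h3' := h3
      rw [insert_union_toFinset] at h3'
      have hjf := (gcomp_append h2 h4).2
      have hQC : (univ \ S) \ (y :: l).toFinset = univ \ (S ∪ (y :: l).toFinset) := by
        ext w; simp only [mem_sdiff, mem_univ, true_and, mem_union, not_or]
      cases L' with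
      | nil =>
        refine ⟨0, Run.done _ ?_, ?_⟩
        · rw [GComp, insert_union_toFinset] at h4
          have : univ \ S ⊆ (y :: l).toFinset := by
            intro w hw
            have h5 : w ∈ S ∪ (y :: l).toFinset := h4 ▸ mem_univ w
            rcases mem_union.1 h5 with h6 | h6
            · exact absurd h6 (mem_sdiff.1 hw).2
            · exact h6
          exact h2.isChain.mono (by exact_mod_cast this)
        · rw [jf, cost_none, hjf, jf]
      | cons e L' =>
        have hd := down_union hS hL.1.1 h2
        rw [insert_union_toFinset] at h4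
        obtain ⟨k, hk, hjk⟩ := ih (S ∪ (y :: l).toFinset) (e :: L') (by
          simp only [List.length_cons, List.length_append] at hn ⊢
          omega) hd (gcomp_none h4) (by simp)
        refine ⟨k + 1, Run.step _ (y :: l).toFinset k ?_ ?_ ?_, ?_⟩
        · intro hch
          have he := h4.1.1
          have heS : e ∉ S := fun h => he.1 (mem_union_left _ h)
          have heC : e ∉ (y :: l).toFinset := fun h => he.1 (mem_union_right _ h)
          have hlm : l.getLastD y ∈ (y :: l).toFinset := by
            rw [List.mem_toFinset]; exact getLastD_mem l y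
          have hlQ := (dchain_of_path hL.1.1 h2).1 hlm
          have hneq : l.getLastD y ≠ e := by
            intro h
            exact heC (h ▸ hlm)
          rcases hch (by exact_mod_cast hlQ) (by simp [heS]) hneq with h | h
          · exact h3' e he (lt_of_le_of_ne h hneq)
          · exact heC ((dchain_of_path hL.1.1 h2).2.2 _ hlm e (by simp [heS]) h)
        · exact (greedyChain_iff hS (nonempty_of_path hL.1.1) _).2
            ⟨y, l, hL.1.1, h2, rfl, h3'⟩
        · rw [hQC]; exact hk
        · have h5 := (gcomp_of_stuck h3' (gcomp_none h4)).2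
          rw [jf, cost_none, hjf, h5, hjk, add_comm]

/-- Greedy = all greedy completions have the same number of chains. -/
theorem greedy_iff_unique {S : Finset α} (hS : Down S) : Greedy (univ \ S) ↔
    ∀ L L', GComp S none L → GComp S none L' → jf none L = jf none L' := by
  by_cases hne : (univ \ S).Nonempty
  · have hnil : ∀ L, GComp S none L → L ≠ [] := by
      rintro L hL rfl
      rw [GComp] at hL
      rw [hL] at hne
      simp at hne
    constructor
    · intro h L L' hL hL'
      obtain ⟨k, hk, hjk⟩ := run_of_gcomp _ S L le_rfl hS hL (hnil L hL)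
      obtain ⟨k', hk', hjk'⟩ := run_of_gcomp _ S L' le_rfl hS hL' (hnil L' hL')
      rw [hjk, hjk', h k hk, h k' hk']
    · intro h k hk
      obtain ⟨L, hL, hjL⟩ := gcomp_of_run hk S hS rfl hne
      have hj := jumps_add_one (Q := univ \ S) hS L hL.comp (hnil L hL)
      have hle : (univ \ S, L).2 = L := rfl
      have hmem : k ∈ {k | ∃ L, LinExt (univ \ S) L ∧ jumps (univ \ S) L = k} :=
        ⟨L, (comp_iff hS L).1 hL.comp, by omega⟩
      refine le_antisymm ?_ (Nat.sInf_le hmem)
      obtain ⟨L₀, hL₀, hj₀⟩ := Nat.sInf_mem ⟨k, hmem⟩
      have hc₀ := (comp_iff hS L₀).2 hL₀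
      obtain ⟨L', hL', hjL'⟩ := exists_greedy _ S none L₀ rfl hc₀
      have hne₀ : L₀ ≠ [] := by
        rintro rfl
        rw [Comp] at hc₀
        rw [hc₀] at hne
        simp at hne
      have h5 := jumps_add_one (Q := univ \ S) hS L₀ hc₀ hne₀
      have h6 := h L L' hL hL'
      show k ≤ sInf {k | ∃ L, LinExt (univ \ S) L ∧ jumps (univ \ S) L = k}
      omega
  · rw [Finset.not_nonempty_iff_eq_empty] at hne
    constructor
    · intro _ L L' hL hL'
      have : ∀ L, GComp S none L → L = [] := by
        intro L hL
        cases L with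
        | nil => rfl
        | cons y L =>
          have := nonempty_of_path hL.1.1
          rw [hne] at this
          simp at this
      rw [this L hL, this L' hL']
    · intro _ k hk
      have hch : IsChain (· ≤ ·) ((∅ : Finset α) : Set α) := by simp
      rw [hne] at hk ⊢
      cases hk with
      | done _ _ =>
        symm
        apply Nat.eq_zero_of_le_zero
        apply Nat.sInf_le
        exact ⟨[], ⟨by simp, List.Pairwise.nil⟩, by simp [jumps]⟩
      | step _ C k h _ _ => exact absurd hch h

/-- **Greedy posets are the posets with the local condition.** -/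
theorem greedy_iff_LC {S : Finset α} (hS : Down S) : Greedy (univ \ S) ↔ LC S := by
  rw [greedy_iff_unique hS]
  constructor
  · intro h
    exact LC_of_nice hS (nice_of_unique hS h)
  · intro h L L' hL hL'
    have hN := nice_of_LC hS h
    rw [jf_eq_G hN Reach.nil hL, jf_eq_G hN Reach.nil hL']

end Pool.Agent.Work.MP_02c6ed_co.G24
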