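import Mathlib

/-!
# Greedy posets: the definitions of the problem

`Q` is a finite set of elements of an ordered type, with the induced order.
-/

set_option autoImplicit false
set_option linter.unusedSectionVars false

open Finset

namespace Pool.Agent.Work.MP_02c6ed_co.G24

variable {α : Type} [PartialOrder α] [Fintype α] [DecidableEq α]

/-- `C` is a chain of `Q` and a down-set of `Q`. -/
def DChain (Q C : Finset α) : Prop :=
  C ⊆ Q ∧ IsChain (· ≤ ·) (C : Set α) ∧ ∀ x ∈ C, ∀ y ∈ Q, y ≤ x → y ∈ C

/-- `C` is a greedy chain of `Q`. -/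
def GreedyChain (Q C : Finset α) : Prop :=
  DChain Q C ∧ ∀ D, DChain Q D → C ⊆ D → D = C

/-- `Run Q k`: some run of the greedy procedure on `Q` outputs `k`. -/
inductive Run : Finset α → ℕ → Prop
  | done (Q : Finset α) : IsChain (· ≤ ·) (Q : Set α) → Run Q 0
  | step (Q C : Finset α) (k : ℕ) : ¬ IsChain (· ≤ ·) (Q : Set α) → GreedyChain Q C →
      Run (Q \ C) k → Run Q (k + 1)

/-- `L` is a linear extension of `Q`. -/
def LinExt (Q : Finset α) (L : List α) : Prop :=
  (∀ x, x ∈ L ↔ x ∈ Q) ∧ L.Pairwise (fun x y => ¬ y ≤ x)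

/-- `y` covers `x` in `Q`. -/
def CoversIn (Q : Finset α) (x y : α) : Prop := x < y ∧ ∀ z ∈ Q, ¬ (x < z ∧ z < y)

open Classical in
/-- The number of jumps. -/
noncomputable def jumps (Q : Finset α) : List α → ℕ
  | [] => 0
  | [_] => 0
  | x :: y :: l => (if CoversIn Q x y then 0 else 1) + jumps Q (y :: l)

/-- The jump number of `Q`. -/
noncomputable def sigma (Q : Finset α) : ℕ := sInf {k | ∃ L, LinExt Q L ∧ jumps Q L = k}

/-- `Q` is greedy: every run of the greedy procedure outputs the jump number. -/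
def Greedy (Q : Finset α) : Prop := ∀ k, Run Q k → k = sigma Q

end Pool.Agent.Work.MP_02c6ed_co.G24
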